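import Pool.Agent.H920.St.Good
import Pool.Graph.R_seed8.H666R3.NG.Limit

/-!
# The limit argument
-/

set_option autoImplicit false
set_option linter.unusedSectionVars false

open CategoryTheory AlgebraicGeometry Opposite Pool.Agent.H666R3.NG TensorProduct

namespace Pool.Agent.H920

noncomputable section

variable {κ : Type} [Field κ] {𝒳 𝒴 : OverSch κ}

/-- image of an object under a functor over the base -/
def AOb.map (G : BasedFunctor 𝒳 𝒴) {A : Type} [CommRing A] [Algebra κ A] (x : AOb 𝒳 A) :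
    AOb 𝒴 A := ⟨G.obj x.o, eqToIso (G.w_obj x.o) ≪≫ x.i⟩

lemma map_based (G : BasedFunctor 𝒳 𝒴) {x y : 𝒳.obj} (φ : x ⟶ y) :
    𝒴.p.map (G.map φ) = eqToHom (G.w_obj x) ≫ 𝒳.p.map φ ≫ eqToHom (G.w_obj y).symm := by
  have h : 𝒴.p.IsHomLift (𝒳.p.map φ) (G.map φ) := inferInstance
  have := IsHomLift.fac' 𝒴.p (𝒳.p.map φ) (G.map φ)
  exact this

lemma Lies.map (G : BasedFunctor 𝒳 𝒴) {A B : Type} [CommRing A] [Algebra κ A] [CommRing B]
    [Algebra κ B] {x : AOb 𝒳 A} {y : AOb 𝒳 B} {φ : x.o ⟶ y.o} {f : B →ₐ[κ] A} (h : Lies x y φ f) :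
    Lies (x.map G) (y.map G) (G.map φ) f := by
  have h' : 𝒳.p.map φ ≫ y.i.hom = x.i.hom ≫ SpecM f := h
  change 𝒴.p.map (G.map φ) ≫ (eqToIso (G.w_obj y.o) ≪≫ y.i).hom =
    (eqToIso (G.w_obj x.o) ≪≫ x.i).hom ≫ SpecM f
  refine (congrArg (fun t => t ≫ (eqToIso (G.w_obj y.o) ≪≫ y.i).hom) (map_based G φ)).trans ?_
  simp only [Iso.trans_hom, eqToIso.hom, Category.assoc, eqToHom_trans_assoc, eqToHom_refl,
    Category.id_comp]
  rw [h']

lemma iso₀ : Nonempty (pt κ ≅ SpecO κ κ) := by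
  refine ⟨Over.isoMk (Iso.refl _) ?_⟩
  simp only [Iso.refl_hom, Over.mk_hom]
  exact (Category.id_comp _).trans (Spec.map_id _)

/-- an object of the fibre over the point -/
def yF (y : 𝒳.p.Fiber (pt κ)) : AOb 𝒳 κ := ⟨y.1, eqToIso y.2 ≪≫ (iso₀ (κ := κ)).some⟩

lemma exists_fib (hX : IsFibredInGroupoids 𝒳) (y : AOb 𝒳 κ) :
    ∃ y' : 𝒳.p.Fiber (pt κ), Nonempty (y.o ≅ y'.1) := by
  obtain ⟨i₀⟩ := iso₀ (κ := κ)
  have ey : 𝒳.p.obj y.o ≅ pt κ := y.i ≪≫ i₀.symm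
  obtain ⟨y', φ, hφ⟩ := exists_pull' hX y.o rfl ey.inv
  have h1 : 𝒳.p.obj y' = pt κ := IsHomLift.domain_eq 𝒳.p ey.inv φ
  have h2 := IsHomLift.fac' 𝒳.p ey.inv φ
  haveI : IsIso φ := isIso_of_base hX φ (by rw [h2]; infer_instance)
  exact ⟨⟨y', h1⟩, ⟨(asIso φ).symm⟩⟩

lemma lies_pt {A : Type} [CommRing A] [Algebra κ A] {x : AOb 𝒳 A} {y : AOb 𝒳 κ} (φ : x.o ⟶ y.o) :
    Lies x y φ (Algebra.ofId κ A) := by
  unfold Lies
  have := terminal_y y _ (𝒳.p.map φ) (x.i.hom ≫ SpecM (Algebra.ofId κ A) ≫ y.i.inv)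
  rw [this]; simp

variable {k : Type} [Field k] [Fintype k] [Algebra k κ] {k₁ : Type} [Field k₁] [Algebra k k₁]
  {A : Type} [CommRing A] [Algebra κ A]

lemma IsGood.of_hom {x₁ : A →ₐ[κ] κ ⊗[k] k₁} {η : AOb 𝒳 A} {y y' : AOb 𝒳 κ}
    (h : IsGood x₁ η y) (e : y.o ⟶ y'.o) : IsGood x₁ η y' := by
  obtain ⟨L, _, _, _, φ, w, ω, θ, hω, hθ⟩ := h
  exact ⟨L, inferInstance, inferInstance, inferInstance, φ, w, ω, θ ≫ e, hω, lies_pt _⟩

lemma IsGood.map {x₁ : A →ₐ[κ] κ ⊗[k] k₁} {η : AOb 𝒳 A} {y : AOb 𝒳 κ}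
    (h : IsGood x₁ η y) (G : BasedFunctor 𝒳 𝒴) {η' : AOb 𝒴 A} (e : (η.map G).o ⟶ η'.o)
    (he : Lies (η.map G) η' e (AlgHom.id κ A)) : IsGood x₁ η' (y.map G) := by
  obtain ⟨L, _, _, _, φ, w, ω, θ, hω, hθ⟩ := h
  refine ⟨L, inferInstance, inferInstance, inferInstance, φ, w.map G, G.map ω ≫ e, G.map θ, ?_,
    lies_pt _⟩
  have := (hω.map G).comp he
  rwa [AlgHom.comp_id] at this

variable [Finite k₁]

/-- **The projective limit of finite gerbes has an object over `κ` if all of them have a good object.** -/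
theorem exists_limObjG (hfield : ∀ (L : Type) [Field L] [Algebra k L] [Finite L], IsField (κ ⊗[k] L))
    {I : Type} [Preorder I] [IsDirectedOrder I] [Nonempty I]
    (𝒮 : Diagram (Sch κ) I) (α : 𝒮.Transitivity) (h𝒮 : IsSystem 𝒮 α)
    (hfin : ∀ i, IsFiniteGerbe (𝒮.Γ i)) (x₁ : A →ₐ[κ] κ ⊗[k] k₁) (η : ∀ i, AOb (𝒮.Γ i) A)
    (e : ∀ (i j : I) (h : i ≤ j), ((η j).map (𝒮.F h)).o ⟶ (η i).o)
    (he : ∀ (i j : I) (h : i ≤ j), Lies ((η j).map (𝒮.F h)) (η i) (e i j h) (AlgHom.id κ A))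
    (hgood : ∀ i, ∃ y : AOb (𝒮.Γ i) κ, IsGood x₁ (η i) y) :
    ∃ o : LimData 𝒮 (pt κ), IsLimObj α o := by
  classical
  have hat : ∀ i, ∃ u : (𝒮.Γ i).obj, IsFiniteAtlas (𝒮.Γ i) u := fun i => by
    obtain ⟨u, _, hu⟩ := (hfin i).finite.atlas
    exact ⟨u, hu⟩
  choose u hu using hat
  have hreps : ∀ i, ∃ (ι : Type) (_ : Finite ι) (s : ι → (𝒮.Γ i).p.Fiber (pt κ)),
      ∀ y : AOb (𝒮.Γ i) κ, IsGood x₁ (η i) y → ∃ j, Nonempty (y.o ≅ (s j).1) := by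
    intro i
    obtain ⟨ι, hι, s, hs⟩ := exists_repsG (hfin i).finite.stack (hu i) hfield x₁ (η i)
    have h1 : ∀ j, ∃ y' : (𝒮.Γ i).p.Fiber (pt κ), Nonempty ((s j).1.o ≅ y'.1) := fun j =>
      exists_fib (hfin i).finite.stack.fibred _
    choose s' hs' using h1
    refine ⟨ι, hι, s', fun y hy => ?_⟩
    obtain ⟨j, ⟨e1⟩⟩ := hs y hy
    obtain ⟨e2⟩ := hs' j
    exact ⟨j, ⟨e1 ≪≫ e2⟩⟩
  choose ι hι s hs using hreps
  have hX : ∀ i, ∃ y : (𝒮.Γ i).p.Fiber (pt κ), IsGood x₁ (η i) (yF y) := by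
    intro i
    obtain ⟨y, hy⟩ := hgood i
    obtain ⟨y', ⟨e'⟩⟩ := exists_fib (hfin i).finite.stack.fibred y
    exact ⟨y', hy.of_hom (y' := yF y') e'.hom⟩
  choose X hXg using hX
  let 𝒰 : Ultrafilter I := Ultrafilter.of Filter.atTop
  have h𝒰 : (𝒰 : Filter I) ≤ Filter.atTop := Ultrafilter.of_le _
  have hge : ∀ i, ∀ᶠ m in (𝒰 : Filter I), i ≤ m := fun i => h𝒰 (Filter.eventually_ge_atTop i)
  -- the class of the image of `X m`
  have hT : ∀ i, ∃ c : ι i, ∀ᶠ m in (𝒰 : Filter I), ∃ h : i ≤ m,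
      Nonempty ((𝒮.F h).obj (X m).1 ≅ (s i c).1) := by
    intro i
    haveI := hι i
    apply ev_exists
    filter_upwards [hge i] with m hm
    obtain ⟨c, hc⟩ := hs i ((yF (X m)).map (𝒮.F hm)) ((hXg m).map (𝒮.F hm) (e i m hm) (he i m hm))
    exact ⟨c, hm, hc⟩
  choose T hT using hT
  let β : ∀ (i j l : I) (hij : i ≤ j) (hjl : j ≤ l) (x : (𝒮.Γ l).obj),
    (𝒮.F hij).obj ((𝒮.F hjl).obj x) ⟶ (𝒮.F (hij.trans hjl)).obj x := α
  -- choose the isomorphisms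
  let B : ∀ (i m : I) (h : i ≤ m) (_ : Nonempty ((𝒮.F h).obj (X m).1 ≅ (s i (T i)).1)),
    ((𝒮.F h).obj (X m).1 ≅ (s i (T i)).1) := fun i m h H => H.some
  have hG : ∀ (i j : I) (hij : i ≤ j), ∃ g : (𝒮.F hij).obj (s j (T j)).1 ⟶ (s i (T i)).1,
      ∀ᶠ m in (𝒰 : Filter I), ∃ (hm : j ≤ m) (H₁ : Nonempty ((𝒮.F (hij.trans hm)).obj (X m).1 ≅ (s i (T i)).1))
        (H₂ : Nonempty ((𝒮.F hm).obj (X m).1 ≅ (s j (T j)).1)),
        g = (𝒮.F hij).map (B j m hm H₂).inv ≫ β i j m hij hm (X m).1 ≫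
          (B i m (hij.trans hm) H₁).hom := by
    intro i j hij
    haveI : Finite ((𝒮.F hij).obj (s j (T j)).1 ⟶ (s i (T i)).1) := by
      have h1 := finite_hom_field (hfin i).finite.stack (hu i) (Field.toIsField κ)
        ((yF (s j (T j))).map (𝒮.F hij)) (yF (s i (T i))) (Algebra.ofId κ κ)
      refine Finite.of_injective (β := {f // Lies ((yF (s j (T j))).map (𝒮.F hij)) (yF (s i (T i))) f
        (Algebra.ofId κ κ)}) (fun f => ⟨f, lies_pt _⟩) ?_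
      intro f f' hff
      exact congrArg Subtype.val hff
    apply ev_exists
    filter_upwards [hT i, hT j] with m hm hm'
    obtain ⟨h1, H1⟩ := hm
    obtain ⟨h2, H2⟩ := hm'
    exact ⟨_, h2, H1, H2, rfl⟩
  choose g hg using hG
  have hgp : ∀ (i j : I) (hij : i ≤ j), (𝒮.Γ i).p.IsHomLift (𝟙 (pt κ)) (g i j hij) := by
    intro i j hij
    refine IsHomLift.of_fac' (𝒮.Γ i).p (𝟙 (pt κ)) (g i j hij)
      (((𝒮.F hij).w_obj _).trans (s j (T j)).2) (s i (T i)).2 ?_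
    exact pt_unique' (eqToIso (s i (T i)).2) _ _ _
  refine ⟨{ ξ := fun i => s i (T i)
            φ := fun i j h => g i j h },
    { liesOver := fun i j h => hgp i j h
      coh := ?_ }⟩
  intro i j l hij hjl
  change (𝒮.F hij).map (g j l hjl) ≫ g i j hij =
    β i j l hij hjl (s l (T l)).1 ≫ g i l (hij.trans hjl)
  obtain ⟨m, ⟨hm1, H1, H2, e1⟩, ⟨hm2, H3, H4, e2⟩, ⟨hm3, H5, H6, e3⟩⟩ :=
    ((hg i j hij).and ((hg j l hjl).and (hg i l (hij.trans hjl)))).exists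
  rw [e1, e2, e3]
  have hcoh : (𝒮.F hij).map (β j l m hjl hm2 (X m).1) ≫ β i j m hij (hjl.trans hm2) (X m).1 =
      β i j l hij hjl ((𝒮.F hm2).obj (X m).1) ≫ β i l m (hij.trans hjl) hm2 (X m).1 :=
    h𝒮.coh i j l m hij hjl hm2 (X m).1
  have hnat : (𝒮.F hij).map ((𝒮.F hjl).map (B l m hm2 H4).inv) ≫
        β i j l hij hjl ((𝒮.F hm2).obj (X m).1) =
      β i j l hij hjl (s l (T l)).1 ≫ (𝒮.F (hij.trans hjl)).map (B l m hm2 H4).inv :=
    h𝒮.nat i j l hij hjl (s l (T l)).1 ((𝒮.F hm2).obj (X m).1) (B l m hm2 H4).inv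
  calc (𝒮.F hij).map ((𝒮.F hjl).map (B l m hm2 H4).inv ≫ β j l m hjl hm2 (X m).1 ≫
        (B j m (hjl.trans hm2) H3).hom) ≫ (𝒮.F hij).map (B j m hm1 H2).inv ≫
        β i j m hij hm1 (X m).1 ≫ (B i m (hij.trans hm1) H1).hom
      = (𝒮.F hij).map ((𝒮.F hjl).map (B l m hm2 H4).inv) ≫
        ((𝒮.F hij).map (β j l m hjl hm2 (X m).1) ≫ β i j m hij (hjl.trans hm2) (X m).1) ≫
        (B i m (hij.trans hm1) H1).hom := by
        simp only [Functor.map_comp, Category.assoc]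
        congr 2
        rw [← Category.assoc ((𝒮.F hij).map (B j m (hjl.trans hm2) H3).hom), ← Functor.map_comp]
        have : (B j m (hjl.trans hm2) H3).hom ≫ (B j m hm1 H2).inv = 𝟙 _ :=
          (B j m (hjl.trans hm2) H3).hom_inv_id
        rw [this]
        simp
    _ = ((𝒮.F hij).map ((𝒮.F hjl).map (B l m hm2 H4).inv) ≫
        β i j l hij hjl ((𝒮.F hm2).obj (X m).1)) ≫ β i l m (hij.trans hjl) hm2 (X m).1 ≫
        (B i m (hij.trans hm1) H1).hom := by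
        rw [hcoh]; simp only [Category.assoc]
    _ = _ := by
        rw [hnat]; simp only [Category.assoc]

end

end Pool.Agent.H920
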