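import Pool.Graph.R_seed8.H666R3.NG.Gal2

/-!
# Objects over affine schemes
-/

set_option autoImplicit false
set_option linter.unusedSectionVars false

open CategoryTheory AlgebraicGeometry Opposite Pool.Agent.H666R3.NG

namespace Pool.Agent.H920

noncomputable section

variable {κ : Type} [Field κ] {𝒳 : OverSch κ}

/-- an object of `𝒳` over the spectrum of `A` -/
structure AOb (𝒳 : OverSch κ) (A : Type) [CommRing A] [Algebra κ A] where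
  /-- the object -/
  o : 𝒳.obj
  /-- the identification of the base -/
  i : 𝒳.p.obj o ≅ SpecO κ A

variable {A B D : Type} [CommRing A] [Algebra κ A] [CommRing B] [Algebra κ B] [CommRing D]
  [Algebra κ D]

/-- the morphism `φ` lies over the homomorphism `f` -/
def Lies (x : AOb 𝒳 A) (y : AOb 𝒳 B) (φ : x.o ⟶ y.o) (f : B →ₐ[κ] A) : Prop :=
  𝒳.p.map φ ≫ y.i.hom = x.i.hom ≫ SpecM f

lemma SpecM_inj {f g : B →ₐ[κ] A} (h : SpecM f = SpecM g) : f = g := by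
  have h1 := congrArg (fun t => t.left) h
  simp only [Over.homMk_left] at h1
  have h2 := Spec.map_injective h1
  ext x
  exact congrArg (fun F => F.hom x) h2

lemma Lies.map_eq {x : AOb 𝒳 A} {y : AOb 𝒳 B} {φ : x.o ⟶ y.o} {f : B →ₐ[κ] A}
    (h : Lies x y φ f) : 𝒳.p.map φ = x.i.hom ≫ SpecM f ≫ y.i.inv := by
  have h' : 𝒳.p.map φ ≫ y.i.hom = x.i.hom ≫ SpecM f := h
  rw [← Category.assoc, ← h', Category.assoc, Iso.hom_inv_id, Category.comp_id]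

lemma Lies.of_map_eq {x : AOb 𝒳 A} {y : AOb 𝒳 B} {φ : x.o ⟶ y.o} {f : B →ₐ[κ] A}
    (h : 𝒳.p.map φ = x.i.hom ≫ SpecM f ≫ y.i.inv) : Lies x y φ f := by
  unfold Lies
  rw [h]; simp

lemma Lies.unique {x : AOb 𝒳 A} {y : AOb 𝒳 B} {φ : x.o ⟶ y.o} {f g : B →ₐ[κ] A}
    (h : Lies x y φ f) (h' : Lies x y φ g) : f = g := by
  apply SpecM_inj
  unfold Lies at h h'
  rw [h] at h'
  exact (cancel_epi _).1 h'

lemma Lies.map_unique {x : AOb 𝒳 A} {y : AOb 𝒳 B} {φ ψ : x.o ⟶ y.o} {f : B →ₐ[κ] A}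
    (h : Lies x y φ f) (h' : Lies x y ψ f) : 𝒳.p.map φ = 𝒳.p.map ψ := by
  rw [h.map_eq, h'.map_eq]

lemma exists_lies (x : AOb 𝒳 A) (y : AOb 𝒳 B) (φ : x.o ⟶ y.o) : ∃ f : B →ₐ[κ] A, Lies x y φ f := by
  obtain ⟨f, hf⟩ := exists_SpecM (x.i.inv ≫ 𝒳.p.map φ ≫ y.i.hom)
  refine ⟨f, ?_⟩
  unfold Lies
  rw [← hf]; simp

lemma Lies.comp {x : AOb 𝒳 A} {y : AOb 𝒳 B} {z : AOb 𝒳 D} {φ : x.o ⟶ y.o} {ψ : y.o ⟶ z.o}
    {f : B →ₐ[κ] A} {g : D →ₐ[κ] B} (h : Lies x y φ f) (h' : Lies y z ψ g) :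
    Lies x z (φ ≫ ψ) (f.comp g) := by
  unfold Lies at h h' ⊢
  rw [Functor.map_comp, Category.assoc, h', ← Category.assoc, h, Category.assoc, SpecM_comp]

lemma Lies.id (x : AOb 𝒳 A) : Lies x x (𝟙 x.o) (AlgHom.id κ A) := by
  unfold Lies
  rw [SpecM_id]; simp

variable (hX : IsFibredInGroupoids 𝒳)

include hX

/-- pullback -/
lemma exists_pullA (y : AOb 𝒳 B) (f : B →ₐ[κ] A) :
    ∃ (x : AOb 𝒳 A) (φ : x.o ⟶ y.o), Lies x y φ f := by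
  obtain ⟨x, e, φ, hφ⟩ := exists_pull hX y.o (SpecM f ≫ y.i.inv)
  exact ⟨⟨x, e⟩, φ, Lies.of_map_eq hφ⟩

/-- lifting -/
lemma liftA {x : AOb 𝒳 A} {y : AOb 𝒳 B} {z : AOb 𝒳 D} (φ : y.o ⟶ z.o) (ψ : x.o ⟶ z.o)
    {f : B →ₐ[κ] A} {g : D →ₐ[κ] B} (hφ : Lies y z φ g) (hψ : Lies x z ψ (f.comp g)) :
    ∃ χ : x.o ⟶ y.o, Lies x y χ f ∧ χ ≫ φ = ψ := by
  obtain ⟨χ, ⟨h1, h2⟩, _⟩ := lift_unique hX φ ψ (x.i.hom ≫ SpecM f ≫ y.i.inv) (by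
    rw [hφ.map_eq, hψ.map_eq, ← SpecM_comp]; simp)
  exact ⟨χ, Lies.of_map_eq h1, h2⟩

/-- two morphisms over the same homomorphism which agree after composition are equal -/
lemma homA_eq {x : AOb 𝒳 A} {y : AOb 𝒳 B} {z : 𝒳.obj} (φ : y.o ⟶ z) {a b : x.o ⟶ y.o}
    {f : B →ₐ[κ] A} (ha : Lies x y a f) (hb : Lies x y b f) (h : a ≫ φ = b ≫ φ) : a = b :=
  hom_eq hX φ a b (ha.map_unique hb) h

lemma isIso_of_lies {x y : AOb 𝒳 A} {φ : x.o ⟶ y.o} (h : Lies x y φ (AlgHom.id κ A)) : IsIso φ := by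
  apply isIso_of_base hX
  rw [h.map_eq, SpecM_id]
  infer_instance

lemma lies_inv {x y : AOb 𝒳 A} {φ : x.o ⟶ y.o} (h : Lies x y φ (AlgHom.id κ A)) :
    ∃ ψ : y.o ⟶ x.o, Lies y x ψ (AlgHom.id κ A) ∧ φ ≫ ψ = 𝟙 _ ∧ ψ ≫ φ = 𝟙 _ := by
  have := isIso_of_lies hX h
  obtain ⟨χ, h1, h2⟩ := liftA hX (f := AlgHom.id κ A) φ (𝟙 y.o) h (Lies.id y)
  refine ⟨χ, h1, ?_, h2⟩
  rw [← cancel_mono φ, Category.assoc, h2, Category.comp_id, Category.id_comp]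

end

end Pool.Agent.H920
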