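import Pool.Agent.H920.St.Fin

/-!
# Constant extensions are cyclic coverings
-/

set_option autoImplicit false
set_option linter.unusedSectionVars false

open CategoryTheory AlgebraicGeometry Opposite Pool.Agent.H666R3.NG TensorProduct

namespace Pool.Agent.H920

noncomputable section

variable (κ k : Type) [Field κ] [Field k] [Fintype k] [Algebra k κ]

/-- the Frobenius of the second factor -/
def frK (L : Type) [Field L] [Algebra k L] : κ ⊗[k] L →ₐ[κ] κ ⊗[k] L :=
  Algebra.TensorProduct.map (AlgHom.id κ κ) (fr (k := k) L)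

variable {κ k}

lemma frK_tmul {L : Type} [Field L] [Algebra k L] (a : κ) (b : L) :
    frK κ k L (a ⊗ₜ b) = a ⊗ₜ (fr (k := k) L b) := by
  rw [frK, Algebra.TensorProduct.map_tmul]; rfl

lemma frK_pow_tmul {L : Type} [Field L] [Algebra k L] (a : κ) (b : L) (i : ℕ) :
    (frK κ k L ^ i) (a ⊗ₜ b) = a ⊗ₜ ((fr (k := k) L ^ i) b) := by
  induction i generalizing b with
  | zero => rw [pow_zero, pow_zero]; rfl
  | succ i ih => rw [pow_succ, pow_succ, AlgHom.mul_apply, frK_tmul, ih, AlgHom.mul_apply]

lemma tensor_ext {L A : Type} [CommRing L] [Algebra k L] [CommRing A] {F G : κ ⊗[k] L →+* A}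
    (h1 : ∀ a : κ, F (a ⊗ₜ 1) = G (a ⊗ₜ 1)) (h2 : ∀ b : L, F (1 ⊗ₜ b) = G (1 ⊗ₜ b)) : F = G := by
  apply RingHom.ext
  intro x
  induction x using TensorProduct.induction_on with
  | zero => rw [map_zero, map_zero]
  | tmul a b =>
    have : a ⊗ₜ[k] b = (a ⊗ₜ[k] (1 : L)) * ((1 : κ) ⊗ₜ[k] b) := by
      rw [Algebra.TensorProduct.tmul_mul_tmul, mul_one, one_mul]
    rw [this, map_mul, map_mul, h1, h2]
  | add x y hx hy => rw [map_add, map_add, hx, hy]

lemma toRing_comp_alg' {T : Sch κ} {A : Type} [CommRing A] [Algebra κ A] (m : T ⟶ SpecO κ A) :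
    (toRing m.left).comp (algebraMap κ A) = toRing T.hom := by
  rw [← toRing_SpecMap]
  congr 1
  exact Over.w m

/-- the Frobenius of a constant extension is a cyclic covering -/
theorem isCyclic_frK (L : Type) [Field L] [Algebra k L] [Finite L] :
    IsCyclic (fpqc κ) (SpecM (frK κ k L)) (Module.finrank k L) := by
  classical
  have : FiniteDimensional k L := Module.Finite.of_finite
  have hfin : 0 < Module.finrank k L := Module.finrank_pos
  obtain ⟨α, hα0, hα⟩ := exists_gen L
  let ir : L →+* κ ⊗[k] L := (Algebra.TensorProduct.includeRight : L →ₐ[k] κ ⊗[k] L).toRingHom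
  have hir : ∀ b, ir b = (1 : κ) ⊗ₜ[k] b := fun b => rfl
  -- distinct powers give units
  have hunit : ∀ {A : Type} [CommRing A] (f : L →+* A) (i j : ℕ),
      i % Module.finrank k L ≠ j % Module.finrank k L →
      IsUnit (f ((fr (k := k) L ^ i) α) - f ((fr (k := k) L ^ j) α)) := by
    intro A _ f i j hij
    rw [← map_sub]
    refine IsUnit.map f (isUnit_iff_ne_zero.2 ?_)
    intro h0
    apply hij
    rw [← fr_pow_eq_one_iff (k := k) L]
    have := ringHom_ext_gen L hα (fr (k := k) L ^ i).toRingHom (fr (k := k) L ^ j).toRingHom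
      (sub_eq_zero.1 h0)
    ext x
    exact congrArg (fun F : L →+* L => F x) this
  refine ⟨hfin, ?_, ?_, ?_⟩
  · rw [it_SpecM]
    have h1 : fr (k := k) L ^ Module.finrank k L = 1 := by
      rw [← FiniteField.orderOf_frobeniusAlgHom k L]; exact pow_orderOf_eq_one _
    have h2 : frK κ k L ^ Module.finrank k L = AlgHom.id κ _ := by
      apply AlgHom.coe_ringHom_injective
      apply tensor_ext
      · intro a
        change (frK κ k L ^ Module.finrank k L) (a ⊗ₜ[k] (1 : L)) = _
        rw [frK_pow_tmul, h1]; rfl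
      · intro a
        change (frK κ k L ^ Module.finrank k L) ((1 : κ) ⊗ₜ[k] a) = _
        rw [frK_pow_tmul, h1]; rfl
    rw [h2]
    exact SpecM_id _
  · intro T m₁ m₂
    set n := Module.finrank k L with hn
    let ψ₁ := (toRing m₁.left).comp ir
    let ψ₂ := (toRing m₂.left).comp ir
    have hφ : (toRing m₁.left).comp (algebraMap κ (κ ⊗[k] L)) =
        (toRing m₂.left).comp (algebraMap κ (κ ⊗[k] L)) := by
      rw [toRing_comp_alg', toRing_comp_alg']
    have hirk : ∀ c : k, ir (algebraMap k L c) = algebraMap κ (κ ⊗[k] L) (algebraMap k κ c) := by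
      intro c
      rw [hir, Algebra.TensorProduct.algebraMap_apply]
      change _ = algebraMap k κ c ⊗ₜ[k] (1 : L)
      rw [← mul_one (algebraMap k L c), ← Algebra.smul_def, ← TensorProduct.smul_tmul,
        Algebra.smul_def, mul_one]
    have hψ : ψ₁.comp (algebraMap k L) = ψ₂.comp (algebraMap k L) := by
      ext c
      change toRing m₁.left (ir (algebraMap k L c)) = toRing m₂.left (ir (algebraMap k L c))
      rw [hirk]
      exact congrArg (fun F : κ →+* Γ(T.left, ⊤) => F (algebraMap k κ c)) hφ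
    let uu : ℕ → Γ(T.left, ⊤) := fun i => ψ₂ α - ψ₁ ((fr (k := k) L ^ i) α)
    have hprod : ∏ i ∈ Finset.range n, uu i = 0 := prod_eq_zero L ψ₁ ψ₂ hψ α
    have hdiff : ∀ i < n, ∀ j < n, i ≠ j → IsUnit (uu i - uu j) := by
      intro i hi j hj hij
      have h1 : uu i - uu j = ψ₁ ((fr (k := k) L ^ j) α) - ψ₁ ((fr (k := k) L ^ i) α) := by
        simp only [uu]; ring
      rw [h1]
      refine hunit ψ₁ j i ?_
      rw [Nat.mod_eq_of_lt hi, Nat.mod_eq_of_lt hj]
      exact Ne.symm hij
    let U : Fin n → T.left.Opens := fun i =>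
      T.left.basicOpen (∏ j ∈ (Finset.range n).erase i.1, uu j)
    have hU : ∀ t : T.left, ∃ i, t ∈ U i := by
      intro t
      let γ := (T.left.presheaf.germ ⊤ t trivial).hom
      obtain ⟨i, hi, h2⟩ := local_prod n (fun i => γ (uu i)) (by
        rw [← map_prod, hprod, map_zero]) (fun i hi j hj hij => by
        rw [← map_sub]; exact (hdiff i hi j hj hij).map γ)
      refine ⟨⟨i, hi⟩, ?_⟩
      rw [← map_prod] at h2
      rw [Scheme.mem_basicOpen_top]
      exact h2
    obtain ⟨R, hR, hR'⟩ := cover_opens T U hU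
    refine ⟨R, hR, ?_⟩
    intro T' h hh
    obtain ⟨i, g, hg⟩ := hR' T' h hh
    refine ⟨i.1, ?_⟩
    -- the product is invertible on `T'`
    have hunit' : IsUnit (h.left.appTop.hom (∏ j ∈ (Finset.range n).erase i.1, uu j)) := by
      have h3 : h.left ⁻¹ᵁ (U i) = ⊤ := by
        rw [hg, Scheme.Hom.comp_preimage, Scheme.Opens.ι_preimage_self]
        rfl
      have h4 : T'.left.basicOpen (h.left.appTop.hom (∏ j ∈ (Finset.range n).erase i.1, uu j)) = ⊤ := by
        have := Scheme.preimage_basicOpen_top h.left (∏ j ∈ (Finset.range n).erase i.1, uu j)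
        rw [← this]
        exact h3
      refine T'.left.toRingedSpace.isUnit_of_isUnit_germ ⊤ _ fun t _ => ?_
      have h5 : t ∈ T'.left.basicOpen
          (h.left.appTop.hom (∏ j ∈ (Finset.range n).erase i.1, uu j)) := by
        rw [h4]; trivial
      rw [Scheme.mem_basicOpen_top] at h5
      exact h5
    have hzero : h.left.appTop.hom (uu i.1) = 0 := by
      have h5 : h.left.appTop.hom (uu i.1) *
          h.left.appTop.hom (∏ j ∈ (Finset.range n).erase i.1, uu j) = 0 := by
        rw [← map_mul, Finset.mul_prod_erase _ _ (Finset.mem_range.2 i.2), hprod, map_zero]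
      exact (hunit'.mul_left_eq_zero).1 h5
    -- compare the two maps
    ext1
    rw [it_SpecM]
    simp only [Over.comp_left, Over.homMk_left]
    apply toRing_inj
    have e1 : toRing (h.left ≫ m₁.left ≫ Spec.map (CommRingCat.ofHom (frK κ k L ^ i.1).toRingHom)) =
        (h.left.appTop.hom.comp (toRing m₁.left)).comp (frK κ k L ^ i.1).toRingHom := by
      rw [← Category.assoc, toRing_SpecMap, toRing_comp]
    have e2 : toRing (h.left ≫ m₂.left) = h.left.appTop.hom.comp (toRing m₂.left) := toRing_comp _ _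
    rw [e1, e2]
    apply tensor_ext
    · intro a
      change h.left.appTop.hom (toRing m₁.left ((frK κ k L ^ i.1) (a ⊗ₜ[k] (1 : L)))) = 
        h.left.appTop.hom (toRing m₂.left (a ⊗ₜ[k] (1 : L)))
      rw [frK_pow_tmul, map_one]
      exact congrArg (fun F : κ →+* Γ(T.left, ⊤) => h.left.appTop.hom (F a)) hφ
    · have h7 := ringHom_ext_gen L hα
        (((h.left.appTop.hom.comp (toRing m₁.left)).comp (frK κ k L ^ i.1).toRingHom).comp ir)
        ((h.left.appTop.hom.comp (toRing m₂.left)).comp ir) (by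
          have h6 : h.left.appTop.hom (ψ₂ α) - h.left.appTop.hom (ψ₁ ((fr (k := k) L ^ i.1) α)) = 0 := by
            rw [← map_sub]; exact hzero
          change h.left.appTop.hom (toRing m₁.left ((frK κ k L ^ i.1) ((1 : κ) ⊗ₜ[k] α))) = _
          rw [frK_pow_tmul]
          exact (sub_eq_zero.1 h6).symm)
      intro b
      exact congrArg (fun F : L →+* Γ(T'.left, ⊤) => F b) h7
  · intro T m i j hij
    by_cases hmod : i % Module.finrank k L = j % Module.finrank k L
    · exact Or.inl hmod
    · right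
      apply bot_mem
      rw [it_SpecM, it_SpecM] at hij
      have h1 := congrArg (fun t : T ⟶ SpecO κ (κ ⊗[k] L) => toRing t.left) hij
      simp only [Over.comp_left, Over.homMk_left] at h1
      rw [toRing_SpecMap, toRing_SpecMap] at h1
      have h2 := congrArg (fun F : (κ ⊗[k] L) →+* Γ(T.left, ⊤) => F ((1 : κ) ⊗ₜ[k] α)) h1
      change toRing m.left ((frK κ k L ^ i) ((1 : κ) ⊗ₜ[k] α)) =
        toRing m.left ((frK κ k L ^ j) ((1 : κ) ⊗ₜ[k] α)) at h2
      rw [frK_pow_tmul, frK_pow_tmul] at h2
      have h3 := hunit ((toRing m.left).comp ir) i j hmod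
      have h4 : (toRing m.left).comp ir ((fr (k := k) L ^ i) α) -
          (toRing m.left).comp ir ((fr (k := k) L ^ j) α) = 0 := sub_eq_zero.2 h2
      rw [h4] at h3
      have h5 : (0 : Γ(T.left, ⊤)) = 1 := by
        obtain ⟨w, hw⟩ := h3
        have := w.mul_inv
        rw [hw, zero_mul] at this
        exact this
      by_contra hne
      rw [not_isEmpty_iff] at hne
      obtain ⟨t⟩ := hne
      have h6 := congrArg (T.left.presheaf.germ ⊤ t trivial).hom h5
      rw [map_zero, map_one] at h6
      exact zero_ne_one h6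

/-- an object with a Frobenius -/
theorem isCyclic_obj {𝒳 : OverSch κ} {L : Type} [Field L] [Algebra k L] [Finite L]
    {w : AOb 𝒳 (κ ⊗[k] L)} {c : w.o ⟶ w.o} (hc : Lies w w c (frK κ k L)) :
    IsCyclic (fpqc κ) (𝒳.p.map c) (Module.finrank k L) := by
  rw [hc.map_eq]
  exact (isCyclic_frK L).transport w.i

end

end Pool.Agent.H920
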