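import Pool.Agent.H920.St.KStep
import Pool.Agent.H920.St.Cyc
import Pool.Agent.H920.Alg.Main

/-!
# The application of rigidity
-/

set_option autoImplicit false
set_option linter.unusedSectionVars false

open CategoryTheory AlgebraicGeometry Opposite Pool.Agent.H666R3.NG TensorProduct

namespace Pool.Agent.H920

noncomputable section

/-- the ring `E ⊗ E` -/
lemma exists_R {K E : Type} [CommRing K] [CommRing E] (ι : K →+* E) :
    ∃ (R : Type) (_ : CommRing R) (j : Bool → (E →+* R)), (j false).comp ι = (j true).comp ι ∧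
      ∀ (Λ : Type) [CommRing Λ] (f g : E →+* Λ), f.comp ι = g.comp ι →
        ∃ F : R →+* Λ, F.comp (j false) = f ∧ F.comp (j true) = g := by
  letI : Algebra K E := ι.toAlgebra
  refine ⟨E ⊗[K] E, inferInstance, fun b => match b with
    | false => Algebra.TensorProduct.includeLeftRingHom
    | true => (Algebra.TensorProduct.includeRight : E →ₐ[K] E ⊗[K] E).toRingHom, ?_, ?_⟩
  · ext x
    change (ι x) ⊗ₜ[K] (1 : E) = (1 : E) ⊗ₜ[K] (ι x)
    exact balance x
  · intro Λ _ f g h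
    obtain ⟨F, hF⟩ := exists_tlift (R := K) f g h
    refine ⟨F, ?_, ?_⟩
    · ext x
      change F (x ⊗ₜ 1) = _
      rw [hF, map_one, mul_one]
    · ext x
      change F (1 ⊗ₜ x) = _
      rw [hF, map_one, one_mul]

section

variable {κ k₀ k E : Type} [Field κ] [Field k₀] [Field k] [Field E] [Algebra k₀ κ] [Algebra k₀ k]
  [Algebra κ E] [Algebra k E]

open PowerSeries in
/-- the homomorphism between base changes -/
lemma exists_incl (R : Type) [CommRing R] [Algebra k R] {B B' : Subalgebra k k⟦X⟧} (h : B ≤ B') :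
    ∃ F : R ⊗[k] B →+* R ⊗[k] B', (∀ r b, F (r ⊗ₜ b) = r ⊗ₜ (Subalgebra.inclusion h b)) ∧
      ∀ t, Phi R B' (F t) = Phi R B t := by
  obtain ⟨F, hF⟩ := exists_tlift (R := k) (A := R) (B := B)
    (Algebra.TensorProduct.includeLeftRingHom : R →+* R ⊗[k] B')
    ((Algebra.TensorProduct.includeRight : B' →ₐ[k] R ⊗[k] B').toRingHom.comp
      (Subalgebra.inclusion h).toRingHom) (by
      ext c
      change (algebraMap k R c) ⊗ₜ[k] (1 : B') = 1 ⊗ₜ (Subalgebra.inclusion h (algebraMap k B c))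
      rw [AlgHom.commutes]
      exact balance c)
  have hF' : ∀ r b, F (r ⊗ₜ b) = r ⊗ₜ (Subalgebra.inclusion h b) := by
    intro r b
    rw [hF]
    change (r ⊗ₜ[k] (1 : B')) * (1 ⊗ₜ (Subalgebra.inclusion h b)) = _
    rw [Algebra.TensorProduct.tmul_mul_tmul, mul_one, one_mul]
  refine ⟨F, hF', ?_⟩
  intro t
  induction t using TensorProduct.induction_on with
  | zero => rw [map_zero, map_zero, map_zero]
  | tmul r b => rw [hF', Phi_tmul, Phi_tmul]; rfl
  | add x y hx hy => rw [map_add, map_add, map_add, hx, hy]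

open PowerSeries in
lemma Phi_one (R : Type) [CommRing R] [Algebra k R] (B : Subalgebra k k⟦X⟧) (r : R) :
    Phi R B (r ⊗ₜ 1) = PowerSeries.C r := by
  rw [Phi_tmul]
  change r • map (algebraMap k R) (1 : k⟦X⟧) = _
  rw [map_one, Algebra.smul_def, mul_one]
  rfl

open PowerSeries in
lemma constantCoeff_Phi (R : Type) [CommRing R] [Algebra k R] (B : Subalgebra k k⟦X⟧) (r : R)
    (b : B) : constantCoeff (Phi R B (r ⊗ₜ b)) = r * algebraMap k R (constantCoeff (b : k⟦X⟧)) := by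
  rw [Phi_tmul, Algebra.smul_def, map_mul]
  congr 1

variable {A : Ix → Type} [∀ i, CommRing (A i)] [∀ i, Algebra κ (A i)] {P : Ix → Type}
  [∀ i, CommRing (P i)] [∀ i, Algebra κ (P i)] {O : Type} [CommRing O] [Algebra κ O]
  {𝒳 : OverSch κ}

open PowerSeries in
/-- the application of rigidity to rings of power series -/
theorem kstep_abs (hst : IsStack (fpqc κ) 𝒳)
    (hfield : ∀ (L : Type) [Field L] [Algebra k₀ L] [Finite L], IsField (κ ⊗[k₀] L))
    (fa : ∀ i, A i →ₐ[κ] P i) (fb : ∀ i, O →ₐ[κ] P i) (g : ∀ i, P i →ₐ[κ] P .o)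
    (hgb : ∀ i, (g i).comp (fb i) = fb .o)
    (B : Ix → Subalgebra k k⟦X⟧) (hB : ∀ i, B i ≤ B .o) (hinf : B .l ⊓ B .r = ⊥)
    (Ψ : ∀ i, P i →+* E ⊗[k] B i)
    (hΨκ : ∀ i c, Ψ i (algebraMap κ _ c) = (algebraMap κ E c) ⊗ₜ 1)
    (hΨg : ∀ i c, Phi E (B i) (Ψ i c) = Phi E (B .o) (Ψ .o (g i c)))
    (hrat : ∀ i, ∃ s : Set (A i), Algebra.adjoin κ s = ⊤ ∧
      ∀ a ∈ s, ∃ b : B i, Ψ i (fa i a) = 1 ⊗ₜ b)
    (ι : κ ⊗[k₀] k →+* E) (hι : ∀ a b, ι (a ⊗ₜ b) = algebraMap κ E a * algebraMap k E b)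
    (x : A .o →ₐ[κ] κ ⊗[k₀] k)
    (hx : ∀ a : A .o, constantCoeff (Phi E (B .o) (Ψ .o (fa .o a))) = ι (x a))
    (u : AOb 𝒳 O) (hu : IsFiniteAtlas 𝒳 u.o) (η : ∀ i, AOb 𝒳 (A i))
    (α : ∀ i, (η .o).o ⟶ (η i).o)
    (q : ∀ i, AOb 𝒳 (P i)) (a : ∀ i, (q i).o ⟶ (η i).o) (ha : ∀ i, Lies (q i) (η i) (a i) (fa i))
    (b : ∀ i, (q i).o ⟶ u.o) (hb : ∀ i, Lies (q i) u (b i) (fb i))
    (γ : ∀ i, (q .o).o ⟶ (q i).o) (hγ : ∀ i, Lies (q .o) (q i) (γ i) (g i))
    (hγa : ∀ i, γ i ≫ a i = a .o ≫ α i) (hγb : ∀ i, γ i ≫ b i = b .o)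
    (w : AOb 𝒳 (κ ⊗[k₀] k)) (ω : w.o ⟶ (η .o).o) (hω : Lies w (η .o) ω x)
    (k' : Type) [Field k'] [Finite k'] [Algebra k k'] [Algebra k₀ k'] [IsScalarTower k₀ k k']
    (π : B .l →ₐ[k] k')
    (x' : A .l →ₐ[κ] κ ⊗[k₀] k') (πE : E ⊗[k] B .l →+* E ⊗[k] k')
    (hπE : ∀ e b, πE (e ⊗ₜ b) = e ⊗ₜ π b) (v : κ ⊗[k₀] k' →+* E ⊗[k] k')
    (hv : ∀ a b, v (a ⊗ₜ b) = (algebraMap κ E a) ⊗ₜ b)
    (hx' : ∀ a, πE (Ψ .l (fa .l a)) = v (x' a))
    (w' : AOb 𝒳 (κ ⊗[k₀] k')) (χ : w'.o ⟶ w.o) (h : κ ⊗[k₀] k →ₐ[κ] κ ⊗[k₀] k')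
    (hh : ∀ a b, h (a ⊗ₜ b) = a ⊗ₜ (algebraMap k k' b)) (hχ : Lies w' w χ h) :
    ∃ φ : w'.o ⟶ (η .l).o, Lies w' (η .l) φ x' := by
  have hX := hst.fibred
  obtain ⟨R, _, j, hj, huR⟩ := exists_R ι
  letI instRκ : Algebra κ R := ((j false).comp (algebraMap κ E)).toAlgebra
  letI instRk : Algebra k R := ((j false).comp (algebraMap k E)).toAlgebra
  have hιk : ∀ c : k, ι (1 ⊗ₜ c) = algebraMap k E c := fun c => by rw [hι, map_one, one_mul]
  have hικ : ∀ c : κ, ι (c ⊗ₜ 1) = algebraMap κ E c := fun c => by rw [hι, map_one, mul_one]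
  have hj' : ∀ c, j false (ι c) = j true (ι c) := fun c =>
    congrArg (fun F : (κ ⊗[k₀] k) →+* R => F c) hj
  have hjk : ∀ e c, j e (algebraMap k E c) = algebraMap k R c := by
    intro e c
    cases e
    · rfl
    · rw [← hιk, ← hj', hιk]; rfl
  have hjκ : ∀ e c, j e (algebraMap κ E c) = algebraMap κ R c := by
    intro e c
    cases e
    · rfl
    · rw [← hικ, ← hj', hικ]; rfl
  letI instS : ∀ i, Algebra κ (E ⊗[k] B i) := fun i =>
    ((Algebra.TensorProduct.includeLeftRingHom : E →+* E ⊗[k] B i).comp (algebraMap κ E)).toAlgebra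
  letI instT : ∀ i, Algebra κ (R ⊗[k] B i) := fun i =>
    ((Algebra.TensorProduct.includeLeftRingHom : R →+* R ⊗[k] B i).comp (algebraMap κ R)).toAlgebra
  letI instL : Algebra κ (E ⊗[k] k') :=
    ((Algebra.TensorProduct.includeLeftRingHom : E →+* E ⊗[k] k').comp (algebraMap κ E)).toAlgebra
  have hSκ : ∀ i c, algebraMap κ (E ⊗[k] B i) c = (algebraMap κ E c) ⊗ₜ 1 := fun i c => rfl
  have hTκ : ∀ i c, algebraMap κ (R ⊗[k] B i) c = (algebraMap κ R c) ⊗ₜ 1 := fun i c => rfl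
  have hLκ : ∀ c, algebraMap κ (E ⊗[k] k') c = (algebraMap κ E c) ⊗ₜ 1 := fun c => rfl
  -- the ring homomorphisms
  have hr := fun i => exists_incl E (hB i)
  choose rr hrr hrr' using hr
  have hρ := fun i => exists_incl R (hB i)
  choose ρρ hρρ hρρ' using hρ
  have hl : ∀ i e, ∃ F : E ⊗[k] B i →+* R ⊗[k] B i, ∀ s b, F (s ⊗ₜ b) = (j e s) ⊗ₜ b := by
    intro i e
    obtain ⟨F, hF⟩ := exists_tlift (R := k) (A := E) (B := B i)
      ((Algebra.TensorProduct.includeLeftRingHom : R →+* R ⊗[k] B i).comp (j e))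
      (Algebra.TensorProduct.includeRight : B i →ₐ[k] R ⊗[k] B i).toRingHom (by
        ext c
        change (j e (algebraMap k E c)) ⊗ₜ[k] (1 : B i) = 1 ⊗ₜ (algebraMap k (B i) c)
        rw [hjk]
        exact balance c)
    refine ⟨F, fun s b => ?_⟩
    rw [hF]
    change (j e s ⊗ₜ[k] (1 : B i)) * (1 ⊗ₜ b) = _
    rw [Algebra.TensorProduct.tmul_mul_tmul, mul_one, one_mul]
  choose ll hll using hl
  let ψ : ∀ i, P i →ₐ[κ] E ⊗[k] B i := fun i => { Ψ i with commutes' := hΨκ i }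
  have hψ : ∀ i c, ψ i c = Ψ i c := fun i c => rfl
  let r : ∀ i, E ⊗[k] B i →ₐ[κ] E ⊗[k] B .o := fun i => { rr i with
    commutes' := by
      intro c
      change rr i (algebraMap κ (E ⊗[k] B i) c) = _
      rw [hSκ, hrr, map_one]
      rfl }
  let c : ∀ i, E →ₐ[κ] E ⊗[k] B i := fun i =>
    { (Algebra.TensorProduct.includeLeftRingHom : E →+* E ⊗[k] B i) with commutes' := fun c => rfl }
  have hc : ∀ i s, c i s = s ⊗ₜ 1 := fun i s => rfl
  let y0 : E ⊗[k] B .o →ₐ[κ] E :=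
    { (constantCoeff (R := E)).comp (Phi E (B .o)).toRingHom with
      commutes' := by
        intro c
        change constantCoeff (Phi E (B .o) (algebraMap κ _ c)) = _
        rw [hSκ, Phi_one]
        simp }
  have hy0' : ∀ s, y0 s = constantCoeff (Phi E (B .o) s) := fun s => rfl
  let d : ∀ i, R →ₐ[κ] R ⊗[k] B i := fun i =>
    { (Algebra.TensorProduct.includeLeftRingHom : R →+* R ⊗[k] B i) with commutes' := fun c => rfl }
  let l : ∀ i, Bool → (E ⊗[k] B i →ₐ[κ] R ⊗[k] B i) := fun i e => { ll i e with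
    commutes' := by
      intro c
      change ll i e (algebraMap κ (E ⊗[k] B i) c) = _
      rw [hSκ, hll, hjκ]
      rfl }
  have hl' : ∀ i e s, l i e s = ll i e s := fun i e s => rfl
  let ρ : ∀ i, R ⊗[k] B i →ₐ[κ] R ⊗[k] B .o := fun i => { ρρ i with
    commutes' := by
      intro c
      change ρρ i (algebraMap κ (R ⊗[k] B i) c) = _
      rw [hTκ, hρρ, map_one]
      rfl }
  let yT : R ⊗[k] B .o →ₐ[κ] R :=
    { (constantCoeff (R := R)).comp (Phi R (B .o)).toRingHom with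
      commutes' := by
        intro c
        change constantCoeff (Phi R (B .o) (algebraMap κ _ c)) = _
        rw [hTκ, Phi_one]
        simp }
  let jj : Bool → (E →ₐ[κ] R) := fun e => { j e with commutes' := fun c => hjκ e c }
  let ι' : κ ⊗[k₀] k →ₐ[κ] E := { ι with
    commutes' := fun c => by
      change ι (c ⊗ₜ 1) = _
      rw [hικ] }
  let t : O →ₐ[κ] E := y0.comp ((ψ .o).comp (fb .o))
  have hconst : ∀ o : O, ∀ i, Ψ i (fb i o) = (t o) ⊗ₜ 1 := by
    intro o
    have h1 : ∀ i, Phi E (B i) (Ψ i (fb i o)) = Phi E (B .o) (Ψ .o (fb .o o)) := by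
      intro i
      rw [hΨg]
      congr 2
      exact congrArg (fun F : O →ₐ[κ] P .o => F o) (hgb i)
    obtain ⟨e, he⟩ := glue hinf (Ψ .l (fb .l o)) (Ψ .r (fb .r o)) ((h1 .l).trans (h1 .r).symm)
    have h2 : Phi E (B .o) (Ψ .o (fb .o o)) = PowerSeries.C e := by
      rw [← h1 .l, he, Phi_one]
    have h3 : t o = e := by
      change constantCoeff (Phi E (B .o) (Ψ .o (fb .o o))) = e
      rw [h2]
      simp
    intro i
    apply Phi_injective (B i)
    rw [h1, h2, h3, Phi_one]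
  have hAA : ∀ i (s : A i), l i false (ψ i (fa i s)) = l i true (ψ i (fa i s)) := by
    intro i s
    obtain ⟨S, hS, hS'⟩ := hrat i
    have h1 : (l i false).comp ((ψ i).comp (fa i)) = (l i true).comp ((ψ i).comp (fa i)) := by
      apply AlgHom.ext_of_adjoin_eq_top hS
      intro s hs
      obtain ⟨b, hb⟩ := hS' s hs
      change ll i false (Ψ i (fa i s)) = ll i true (Ψ i (fa i s))
      rw [hb, hll, hll, map_one, map_one]
    exact congrArg (fun F : A i →ₐ[κ] R ⊗[k] B i => F s) h1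
  let D : RData κ A P (fun i => E ⊗[k] B i) (fun i => R ⊗[k] B i) (κ ⊗[k₀] k) E R O :=
    { fa := fa
      fb := fb
      g := g
      ψ := ψ
      r := r
      c := c
      t := t
      y0 := y0
      ι := ι'
      x := x
      j := jj
      d := d
      l := l
      ρ := ρ
      yT := yT
      hrψ := by
        intro i
        ext s
        change rr i (Ψ i s) = Ψ .o (g i s)
        apply Phi_injective (B .o)
        rw [hrr', hΨg]
      hrc := by
        intro i
        ext s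
        change rr i (s ⊗ₜ 1) = s ⊗ₜ 1
        rw [hrr, map_one]
      hψb := by
        intro i
        ext s
        exact hconst s i
      hy0 := by
        ext s
        change constantCoeff (Phi E (B .o) (s ⊗ₜ 1)) = s
        rw [Phi_one]
        simp
      hx := by
        ext s
        exact hx s
      hj := by
        ext s
        exact hj' s
      hlc := by
        intro i e
        ext s
        change ll i e (s ⊗ₜ 1) = (j e s) ⊗ₜ 1
        rw [hll]
      hρl := by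
        intro i e
        have h1 : (ρρ i).comp (ll i e) = (ll .o e).comp (rr i) := by
          apply tensor_ringHom_ext
          · intro s
            change ρρ i (ll i e (s ⊗ₜ 1)) = ll .o e (rr i (s ⊗ₜ 1))
            rw [hll, hρρ, hrr, hll]
          · intro s
            change ρρ i (ll i e (1 ⊗ₜ s)) = ll .o e (rr i (1 ⊗ₜ s))
            rw [hll, hρρ, hrr, hll]
        ext s
        exact congrArg (fun F : E ⊗[k] B i →+* R ⊗[k] B .o => F s) h1
      hρd := by
        intro i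
        ext s
        change ρρ i (s ⊗ₜ 1) = s ⊗ₜ 1
        rw [hρρ, map_one]
      hyd := by
        ext s
        change constantCoeff (Phi R (B .o) (s ⊗ₜ 1)) = s
        rw [Phi_one]
        simp
      hyl := by
        intro e
        have h1 : ((constantCoeff (R := R)).comp (Phi R (B .o)).toRingHom).comp (ll .o e) =
            (j e).comp ((constantCoeff (R := E)).comp (Phi E (B .o)).toRingHom) := by
          apply tensor_ringHom_ext
          · intro s
            change constantCoeff (Phi R (B .o) (ll .o e (s ⊗ₜ 1))) =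
              j e (constantCoeff (Phi E (B .o) (s ⊗ₜ 1)))
            rw [hll, Phi_one, Phi_one]
            simp
          · intro s
            change constantCoeff (Phi R (B .o) (ll .o e (1 ⊗ₜ s))) =
              j e (constantCoeff (Phi E (B .o) (1 ⊗ₜ s)))
            rw [hll, constantCoeff_Phi, constantCoeff_Phi, map_mul, hjk]
        ext s
        exact congrArg (fun F : E ⊗[k] B .o →+* R => F s) h1
      hA := by
        intro i
        ext s
        exact hAA i s
      glue := by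
        intro t₁ t₂ h12
        have h1 : Phi R (B .l) t₁ = Phi R (B .r) t₂ := by
          rw [← hρρ' .l, ← hρρ' .r]
          exact congrArg (Phi R (B .o)) h12
        exact glue hinf t₁ t₂ h1 }
  obtain ⟨s₁, σ₁, hσ₁⟩ := exists_pullA hX (q .l) (ψ .l)
  obtain ⟨β, hβ, hrig⟩ := rigid hX D u hu η α q a ha b hb γ hγ hγa hγb w ω hω s₁ σ₁ hσ₁
  let v' : κ ⊗[k₀] k' →ₐ[κ] E ⊗[k] k' := { v with
    commutes' := fun c => by
      change v (c ⊗ₜ 1) = _
      rw [hv]
      rfl }
  let y : E ⊗[k] B .l →ₐ[κ] E ⊗[k] k' := { πE with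
    commutes' := fun c => by
      change πE (algebraMap κ (E ⊗[k] B .l) c) = _
      rw [hSκ, hπE, map_one]
      rfl }
  have hy1 : ∀ s, πE ((ι s) ⊗ₜ 1) = v (h s) := by
    have h1 : πE.comp ((Algebra.TensorProduct.includeLeftRingHom : E →+* E ⊗[k] B .l).comp ι) =
        v.comp h.toRingHom := by
      apply tensor_ringHom_ext
      · intro s
        change πE ((ι (s ⊗ₜ 1)) ⊗ₜ 1) = v (h (s ⊗ₜ 1))
        rw [hh, hv, map_one, hπE, map_one, hικ]
      · intro s
        change πE ((ι (1 ⊗ₜ s)) ⊗ₜ 1) = v (h (1 ⊗ₜ s))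
        rw [hh, hv, map_one, hπE, map_one, hιk]
        exact balance s
    exact fun s => congrArg (fun F : κ ⊗[k₀] k →+* E ⊗[k] k' => F s) h1
  have hy : y.comp ((c .l).comp ι') = v'.comp h := by
    ext s
    exact hy1 s
  have hff := ff_isField (hfield k') v'.toRingHom
  refine kstep hst (η .l) s₁ (σ₁ ≫ a .l) ((ψ .l).comp (fa .l)) (hσ₁.comp (ha .l)) w β
    ((c .l).comp ι') hβ (l .l) (D.hA .l) hrig w' χ h hχ v' hff.1 hff.2 y hy x' ?_ ?_
  · ext s
    exact hx' s
  · intro Λ _ _ m₁ m₂ hm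
    have hm' : ∀ s, m₁ (v s) = m₂ (v s) := fun s =>
      congrArg (fun F : κ ⊗[k₀] k' →ₐ[κ] Λ => F s) hm
    obtain ⟨F, hF1, hF2⟩ := huR Λ
      (m₁.toRingHom.comp (Algebra.TensorProduct.includeLeftRingHom : E →+* E ⊗[k] k'))
      (m₂.toRingHom.comp (Algebra.TensorProduct.includeLeftRingHom : E →+* E ⊗[k] k')) (by
        refine RingHom.ext fun s => ?_
        change m₁ ((ι s) ⊗ₜ 1) = m₂ ((ι s) ⊗ₜ 1)
        have h1 := hy1 s
        rw [hπE, map_one] at h1
        rw [h1, hm'])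
    have hF1' : ∀ s, F (j false s) = m₁ (s ⊗ₜ 1) := fun s =>
      congrArg (fun F : E →+* Λ => F s) hF1
    have hF2' : ∀ s, F (j true s) = m₂ (s ⊗ₜ 1) := fun s =>
      congrArg (fun F : E →+* Λ => F s) hF2
    obtain ⟨G, hG⟩ := exists_tlift (R := k) (A := R) (B := B .l) F
      (m₁.toRingHom.comp ((Algebra.TensorProduct.includeRight : k' →ₐ[k] E ⊗[k] k').toRingHom.comp
        π.toRingHom)) (by
        ext s
        change F (j false (algebraMap k E s)) = m₁ (1 ⊗ₜ (π (algebraMap k (B .l) s)))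
        rw [hF1', AlgHom.commutes]
        congr 1
        exact balance s)
    have hG' : ∀ s b, G (s ⊗ₜ b) = F s * m₁ (1 ⊗ₜ (π b)) := fun s b => hG s b
    have hm1 : ∀ s : k', m₁ (1 ⊗ₜ s) = m₂ (1 ⊗ₜ s) := by
      intro s
      have := hm' (1 ⊗ₜ s)
      rwa [hv, map_one] at this
    let n : R ⊗[k] B .l →ₐ[κ] Λ := { G with
      commutes' := fun c => by
        change G ((j false (algebraMap κ E c)) ⊗ₜ 1) = _
        rw [hG', hF1', map_one, ← hLκ, AlgHom.commutes]
        have : m₁ ((1 : E) ⊗ₜ[k] (1 : k')) = 1 := map_one m₁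
        rw [this, mul_one] }
    have hcomb : ∀ (m : E ⊗[k] k' →ₐ[κ] Λ) (s : E) (b : k'), m (s ⊗ₜ b) = m (s ⊗ₜ 1) * m (1 ⊗ₜ b) := by
      intro m s b
      rw [← map_mul, Algebra.TensorProduct.tmul_mul_tmul, mul_one, one_mul]
    refine ⟨n, ?_, ?_⟩
    · have h1 : G.comp (ll .l false) = m₁.toRingHom.comp πE := by
        apply tensor_ringHom_ext
        · intro s
          change G (ll .l false (s ⊗ₜ 1)) = m₁ (πE (s ⊗ₜ 1))
          rw [hll, hG', hF1', hπE, map_one, ← hcomb]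
        · intro s
          change G (ll .l false (1 ⊗ₜ s)) = m₁ (πE (1 ⊗ₜ s))
          rw [hll, hG', hF1', hπE, ← hcomb]
      ext s
      exact congrArg (fun F : E ⊗[k] B .l →+* Λ => F s) h1
    · have h1 : G.comp (ll .l true) = m₂.toRingHom.comp πE := by
        apply tensor_ringHom_ext
        · intro s
          change G (ll .l true (s ⊗ₜ 1)) = m₂ (πE (s ⊗ₜ 1))
          rw [hll, hG', hF2', hπE, hm1, ← hcomb]
        · intro s
          change G (ll .l true (1 ⊗ₜ s)) = m₂ (πE (1 ⊗ₜ s))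
          rw [hll, hG', hF2', hπE, hm1, ← hcomb]
      ext s
      exact congrArg (fun F : E ⊗[k] B .l →+* Λ => F s) h1

end

end

end Pool.Agent.H920
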