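import Pool.Agent.H920.St.EPt

/-!
# Existence of good objects
-/

set_option autoImplicit false
set_option linter.unusedSectionVars false

open CategoryTheory AlgebraicGeometry Opposite Pool.Agent.H666R3.NG TensorProduct

namespace Pool.Agent.H920

open Pool.Agent.Y939.NG

noncomputable section

lemma exists_n₁ (k : Type) [Field k] [Finite k] (p : ℕ) [Fact p.Prime] [CharP k p] (n₀ : ℕ) :
    ∃ n₁, n₀ ≤ n₁ ∧ ∀ c : k, c ^ p ^ n₁ = c := by
  haveI := Fintype.ofFinite k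
  obtain ⟨r, hp, hr⟩ := FiniteField.card k p
  refine ⟨r * n₀, Nat.le_mul_of_pos_left _ r.2, fun c => ?_⟩
  rw [pow_mul, ← hr]
  exact FiniteField.pow_card_pow n₀ c

lemma ringHom_ext_adjoin {κ A C : Type} [Field κ] [CommRing A] [Algebra κ A] [CommRing C]
    {F G : A →+* C} (hκ : ∀ c, F (algebraMap κ A c) = G (algebraMap κ A c)) (S : Set A)
    (hS : Algebra.adjoin κ S = ⊤) (h : ∀ s ∈ S, F s = G s) : F = G := by
  apply RingHom.ext
  intro a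
  have ha : a ∈ Algebra.adjoin κ S := by rw [hS]; trivial
  induction ha using Algebra.adjoin_induction with
  | mem x hx => exact h x hx
  | algebraMap r => exact hκ r
  | add x y _ _ hx hy => rw [map_add, map_add, hx, hy]
  | mul x y _ _ hx hy => rw [map_mul, map_mul, hx, hy]

variable {κ k₀ : Type} [Field κ] [Field k₀] [Fintype k₀] [Algebra k₀ κ] {p : ℕ} [Fact p.Prime]
  [CharP κ p] {𝒳 : OverSch κ}

open PowerSeries in
/-- the Frobenius structure -/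
theorem good_of_data {k E : Type} [Field k] [Finite k] [Field E] [Algebra k₀ k] [Algebra κ E]
    [Algebra k E] (htk₀ : ∀ c : k₀, algebraMap κ E (algebraMap k₀ κ c) =
      algebraMap k E (algebraMap k₀ k c)) (hst : IsStack (fpqc κ) 𝒳)
    (hfield : ∀ (L : Type) [Field L] [Algebra k₀ L] [Finite L], IsField (κ ⊗[k₀] L))
    {D : Dat k₀} {A : Ix → Type} [∀ i, CommRing (A i)] [∀ i, Algebra κ (A i)] (cd : CD κ D A)
    {P : Ix → Type} [∀ i, CommRing (P i)] [∀ i, Algebra κ (P i)] {O : Type} [CommRing O]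
    [Algebra κ O]
    (fa : ∀ i, A i →ₐ[κ] P i) (fb : ∀ i, O →ₐ[κ] P i) (g : ∀ i, P i →ₐ[κ] P .o)
    (hgb : ∀ i, (g i).comp (fb i) = fb .o)
    (B : Ix → Subalgebra k k⟦X⟧) (hB : ∀ i, B i ≤ B .o) (hinf : B .l ⊓ B .r = ⊥)
    (Ψ : ∀ i, P i →+* E ⊗[k] B i)
    (hΨκ : ∀ i c, Ψ i (algebraMap κ _ c) = (algebraMap κ E c) ⊗ₜ 1)
    (hΨg : ∀ i c, Phi E (B i) (Ψ i c) = Phi E (B .o) (Ψ .o (g i c)))
    (hrat : ∀ i, ∃ s : Set (A i), Algebra.adjoin κ s = ⊤ ∧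
      ∀ a ∈ s, ∃ b : B i, Ψ i (fa i a) = 1 ⊗ₜ b)
    (ι : κ ⊗[k₀] k →+* E) (hι : ∀ a b, ι (a ⊗ₜ b) = algebraMap κ E a * algebraMap k E b)
    {k₁ : Type} [Field k₁] [Finite k₁] [Algebra k₀ k₁] (z₀ y₀ : k₁) (j : k₁ →ₐ[k₀] k)
    (x₁ : A .o →ₐ[κ] κ ⊗[k₀] k₁)
    (hxz : x₁ (cd.z .o) = 1 ⊗ₜ z₀) (hxy : x₁ (cd.y .o) = 1 ⊗ₜ y₀)
    (hx : ∀ a : A .o, constantCoeff (Phi E (B .o) (Ψ .o (fa .o a))) = ι (mapH j (x₁ a)))
    (u : AOb 𝒳 O) (hu : IsFiniteAtlas 𝒳 u.o) (η : ∀ i, AOb 𝒳 (A i))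
    (α : ∀ i, (η .o).o ⟶ (η i).o) (hα : ∀ i, Lies (η .o) (η i) (α i) (cd.f i))
    (q : ∀ i, AOb 𝒳 (P i)) (a : ∀ i, (q i).o ⟶ (η i).o) (ha : ∀ i, Lies (q i) (η i) (a i) (fa i))
    (b : ∀ i, (q i).o ⟶ u.o) (hb : ∀ i, Lies (q i) u (b i) (fb i))
    (γ : ∀ i, (q .o).o ⟶ (q i).o) (hγ : ∀ i, Lies (q .o) (q i) (γ i) (g i))
    (hγa : ∀ i, γ i ≫ a i = a .o ≫ α i) (hγb : ∀ i, γ i ≫ b i = b .o)
    (k' : Type) [Field k'] [Algebra k k'] [Module.Finite k k'] (π : B .l →ₐ[k] k') (ζ υ : B .l)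
    (hζ : Ψ .l (fa .l (cd.z .l)) = 1 ⊗ₜ ζ) (hυ : Ψ .l (fa .l (cd.y .l)) = 1 ⊗ₜ υ)
    (hπz : π ζ = algebraMap k k' (fr (k := k₀) k (j z₀)))
    (hπy : π υ = algebraMap k k' (fr (k := k₀) k (j y₀))) :
    ∃ y : AOb 𝒳 κ, IsGood (x₁.comp (cd.f .l)) (η .l) y := by
  have hX := hst.fibred
  let x : A .o →ₐ[κ] κ ⊗[k₀] k := (mapH j).comp x₁
  obtain ⟨w, ω, hω⟩ := exists_pullA hX (η .o) x
  haveI : Finite k' := Module.finite_of_finite k
  letI : Algebra k₀ k' := ((algebraMap k k').comp (algebraMap k₀ k)).toAlgebra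
  haveI : IsScalarTower k₀ k k' := IsScalarTower.of_algebraMap_eq fun _ => rfl
  let jj : k →ₐ[k₀] k' := IsScalarTower.toAlgHom k₀ k k'
  have hjj : ∀ c, jj c = algebraMap k k' c := fun c => rfl
  let h : κ ⊗[k₀] k →ₐ[κ] κ ⊗[k₀] k' := mapH jj
  obtain ⟨w', χ, hχ⟩ := exists_pullA hX w h
  let x' : A .l →ₐ[κ] κ ⊗[k₀] k' := (frK κ k₀ k').comp (h.comp (x.comp (cd.f .l)))
  obtain ⟨πE, hπE⟩ := exists_tlift (R := k) (A := E) (B := B .l)
    (Algebra.TensorProduct.includeLeftRingHom : E →+* E ⊗[k] k')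
    ((Algebra.TensorProduct.includeRight : k' →ₐ[k] E ⊗[k] k').toRingHom.comp π.toRingHom) (by
      ext c
      change (algebraMap k E c) ⊗ₜ[k] (1 : k') = 1 ⊗ₜ (π (algebraMap k (B .l) c))
      rw [AlgHom.commutes]
      exact balance c)
  have hπE' : ∀ s b, πE (s ⊗ₜ b) = s ⊗ₜ π b := by
    intro s b
    rw [hπE]
    change (s ⊗ₜ[k] (1 : k')) * (1 ⊗ₜ (π b)) = _
    rw [Algebra.TensorProduct.tmul_mul_tmul, mul_one, one_mul]
  obtain ⟨v, hv⟩ := exists_tlift (R := k₀) (A := κ) (B := k')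
    ((Algebra.TensorProduct.includeLeftRingHom : E →+* E ⊗[k] k').comp (algebraMap κ E))
    (Algebra.TensorProduct.includeRight : k' →ₐ[k] E ⊗[k] k').toRingHom (by
      ext c
      change (algebraMap κ E (algebraMap k₀ κ c)) ⊗ₜ[k] (1 : k') =
        1 ⊗ₜ (algebraMap k k' (algebraMap k₀ k c))
      rw [htk₀]
      exact balance _)
  have hv' : ∀ s b, v (s ⊗ₜ b) = (algebraMap κ E s) ⊗ₜ b := by
    intro s b
    rw [hv]
    change ((algebraMap κ E s) ⊗ₜ[k] (1 : k')) * (1 ⊗ₜ b) = _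
    rw [Algebra.TensorProduct.tmul_mul_tmul, mul_one, one_mul]
  have hzl : x (cd.f .l (cd.z .l)) = 1 ⊗ₜ (j z₀) := by
    rw [cd.hzl]
    change mapH j (x₁ (cd.z .o)) = _
    rw [hxz, mapH_tmul]
  have hyl : x (cd.f .l (cd.y .l)) = 1 ⊗ₜ (j y₀) := by
    rw [cd.hyl]
    change mapH j (x₁ (cd.y .o)) = _
    rw [hxy, mapH_tmul]
  have hx'v : ∀ (s : A .l) (c : k), x (cd.f .l s) = 1 ⊗ₜ c →
      v (x' s) = 1 ⊗ₜ (algebraMap k k' (fr (k := k₀) k c)) := by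
    intro s c hc
    change v (frK κ k₀ k' (h (x (cd.f .l s)))) = _
    rw [hc]
    change v (frK κ k₀ k' (mapH jj (1 ⊗ₜ c))) = _
    rw [mapH_tmul, frK_tmul, hv', map_one, hjj]
    congr 1
    simp
  have hx' : ∀ s, πE (Ψ .l (fa .l s)) = v (x' s) := by
    have key : (πE.comp (Ψ .l)).comp (fa .l).toRingHom = v.comp x'.toRingHom := by
      apply ringHom_ext_adjoin (κ := κ) (S := {cd.z .l, cd.y .l}) ?_
        (cd.mon_l.adjoin _ (by simp) (by simp))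
      · rintro s (rfl | rfl)
        · change πE (Ψ .l (fa .l (cd.z .l))) = v (x' (cd.z .l))
          rw [hζ, hπE', hx'v _ _ hzl, hπz]
        · change πE (Ψ .l (fa .l (cd.y .l))) = v (x' (cd.y .l))
          rw [hυ, hπE', hx'v _ _ hyl, hπy]
      · intro c
        change πE (Ψ .l (fa .l (algebraMap κ (A .l) c))) = v (x' (algebraMap κ (A .l) c))
        rw [AlgHom.commutes, AlgHom.commutes, hΨκ, hπE', map_one]
        have h5 : algebraMap κ (κ ⊗[k₀] k') c = c ⊗ₜ 1 := rfl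
        rw [h5, hv']
    exact fun s => congrArg (fun F : A .l →+* E ⊗[k] k' => F s) key
  have hh : ∀ a b, h (a ⊗ₜ b) = a ⊗ₜ (algebraMap k k' b) := fun a b => mapH_tmul jj a b
  obtain ⟨φ, hφ⟩ := kstep_abs hst hfield fa fb g hgb B hB hinf Ψ hΨκ hΨg hrat ι hι x hx u hu η α
      q a ha b hb γ hγ hγa hγb w ω hω k' π x' πE hπE' v hv' hx' w' χ h hh hχ
  -- the Frobenius
  let m : w'.o ⟶ (η .l).o := χ ≫ ω ≫ α .l
  have hm : Lies w' (η .l) m (h.comp (x.comp (cd.f .l))) := hχ.comp (hω.comp (hα .l))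
  obtain ⟨c, hc, hc'⟩ := liftA hX (f := frK κ k₀ k') m φ hm hφ
  obtain ⟨L', _, _, _, _, _, w'', m'', y, θ, hm'', hθ⟩ := exists_frob_desc hfield hst hu w' c hc
  refine ⟨y, L', inferInstance, inferInstance, inferInstance,
    (IsScalarTower.toAlgHom k₀ k' L').comp (jj.comp j), w'', m'' ≫ m, θ, ?_, hθ⟩
  have h6 := hm''.comp hm
  have h7 : (mapK k₀ k' L').comp (h.comp (x.comp (cd.f .l))) =
      (mapH ((IsScalarTower.toAlgHom k₀ k' L').comp (jj.comp j))).comp (x₁.comp (cd.f .l)) := by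
    rw [← mapH_comp, ← mapH_comp]
    rfl
  rw [h7] at h6
  exact h6

open PowerSeries in
/-- **Existence of good objects.** -/
theorem exists_good
    (hfield : ∀ (L : Type) [Field L] [Algebra k₀ L] [Finite L], IsField (κ ⊗[k₀] L))
    (hcon : ∀ (E : Type) [Field E] [Algebra κ E] [Module.Finite κ E] [CharP E p],
      Finite (conF E p))
    {D : Dat k₀} (hD : D.Good) {A : Ix → Type} [∀ i, CommRing (A i)] [∀ i, Algebra κ (A i)]
    (cd : CD κ D A) {k₁ : Type} [Field k₁] [Finite k₁] [Algebra k₀ k₁] (z₀ y₀ : k₁)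
    (hz₀ : z₀ ≠ 0) (hy₀ : y₀ ≠ 0) (h0 : D.val 0 z₀ y₀ = 0) (x₁ : A .o →ₐ[κ] κ ⊗[k₀] k₁)
    (hxz : x₁ (cd.z .o) = 1 ⊗ₜ z₀) (hxy : x₁ (cd.y .o) = 1 ⊗ₜ y₀)
    (h𝒳 : IsFiniteStack 𝒳) (η : ∀ i, AOb 𝒳 (A i)) (α : ∀ i, (η .o).o ⟶ (η i).o)
    (hα : ∀ i, Lies (η .o) (η i) (α i) (cd.f i)) (hαo : α .o = 𝟙 _) :
    ∃ y : AOb 𝒳 κ, IsGood (x₁.comp (cd.f .l)) (η .l) y := by
  have hst := h𝒳.stack
  have hX := hst.fibred
  obtain ⟨u₀, hufin, hu⟩ := h𝒳.atlas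
  obtain ⟨O, _, _, _, ⟨iu⟩⟩ := exists_finite_alg (𝒳.p.obj u₀) hufin
  let u : AOb 𝒳 O := ⟨u₀, iu⟩
  have hu' : IsFiniteAtlas 𝒳 u.o := hu
  have h1 := fun i => exists_prodA hu' (η i)
  choose P iP1 iP2 q a b fa hq ha hfin hflat hsurj using h1
  have hfb := fun i => exists_lies (q i) u (b i)
  choose fb hfb using hfb
  have hγ := fun i => exists_comp hX (α i) (hq i) (a .o) (b .o)
  choose γ g hγ hγa hγb using hγ
  have hγo : γ .o = 𝟙 _ := by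
    apply (hq .o).ext
    · rw [hγa, hαo, Category.comp_id, Category.id_comp]
    · rw [hγb, Category.id_comp]
  have hgo : g .o = AlgHom.id κ _ := by
    have h2 := hγ .o
    rw [hγo] at h2
    exact h2.unique (Lies.id _)
  have hgb : ∀ i, (g i).comp (fb i) = fb .o := by
    intro i
    have h2 := (hγ i).comp (hfb i)
    rw [hγb] at h2
    exact h2.unique (hfb .o)
  have hfg : ∀ i, (g i).comp (fa i) = (fa .o).comp (cd.f i) := by
    intro i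
    have h2 := (hγ i).comp (ha i)
    rw [hγa] at h2
    exact h2.unique ((ha .o).comp (hα i))
  haveI := cd.dom
  have hneA : ∀ i, Nontrivial (A i) := fun i => (cd.f i).toRingHom.domain_nontrivial
  haveI hneP : ∀ i, Nontrivial (P i) := by
    intro i
    haveI := hneA i
    obtain ⟨M₀, hM₀⟩ := Ideal.exists_maximal (A i)
    obtain ⟨q, _⟩ := hsurj i (⟨M₀, hM₀.isPrime⟩ : PrimeSpectrum (A i))
    exact ⟨0, 1, fun h01 => q.2.ne_top ((Ideal.eq_top_iff_one _).2 (by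
      rw [← h01]; exact Ideal.zero_mem _))⟩
  obtain ⟨n₀, hn₀⟩ := exists_n₀ (p := p) hX u hu'
  let pd₀ : PD cd P p n₀ :=
    { fa := fa
      g := g
      go := hgo
      hfg := hfg
      fin := hfin
      nzd := fun a ha c h => nzd_of_flat (fa .o).toRingHom (hflat .o) a ha c h
      loc_l := loc_of_bc hX (hα .l) (hq .l) (ha .l) (hq .o) (ha .o) (hγ .l) (hγa .l) (hγb .l)
        (cd.z .l) cd.loc_l
      loc_r := loc_of_bc hX (hα .r) (hq .r) (ha .r) (hq .o) (ha .o) (hγ .r) (hγa .r) (hγb .r)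
        (cd.z .r) cd.loc_r
      st := fun i n hn c => hn₀ (η i) (q i) (a i) (b i) (fa i) (hq i) (ha i) (hflat i) (hsurj i) n
        hn c }
  -- the point
  haveI : Module.Finite k₀ k₁ := Module.Finite.of_finite
  obtain ⟨E, _, _, _, i₁, e, he⟩ := exists_E hX hu' (hq .o) (ha .o) x₁
  have he' : ∀ s, e (fa .o s) = i₁ (x₁ s) := fun s => congrArg (fun F : A .o →ₐ[κ] E => F s) he
  haveI hchE : CharP E p := charP_of_injective_algebraMap (algebraMap κ E).injective p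
  obtain ⟨k, _, _, _, _, j, hk, hkp, hj, hk₀⟩ := exists_k (p := p) i₁ (hcon E)
  haveI hchk : CharP k p := RingHom.charP (algebraMap k E) (algebraMap k E).injective p
  letI : Algebra k₀ E := ((algebraMap κ E).comp (algebraMap k₀ κ)).toAlgebra
  haveI : IsScalarTower k₀ κ E := IsScalarTower.of_algebraMap_eq fun _ => rfl
  haveI : IsScalarTower k₀ k E := IsScalarTower.of_algebraMap_eq fun c => (hk₀ c).symm
  obtain ⟨n₁, hn₁, hn⟩ := exists_n₁ k p n₀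
  obtain ⟨⟨B, hB, hinf, Ψ, ζ, υ, hΨκ, hΨg, hΨe, hΨz, hΨy, pts⟩⟩ := exists_out hD (pd₀.raise n₁ hn₁) hk hkp e (j z₀) (j y₀)
    ((map_ne_zero j).2 hz₀) ((map_ne_zero j).2 hy₀)
    (by
      rw [hj, ← hxz]
      exact he' _)
    (by
      rw [hj, ← hxy]
      exact he' _)
  haveI : ExpChar E p := ExpChar.prime Fact.out
  -- the twisted structure
  obtain ⟨tκ, htκ⟩ : ∃ tκ : κ →+* E, ∀ c, tκ c = (algebraMap κ E c) ^ p ^ n₁ :=
    ⟨(iterateFrobenius E p n₁).comp (algebraMap κ E), fun c => iterateFrobenius_def p n₁ _⟩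
  have hkE : ∀ c : k, (algebraMap k E c) ^ p ^ n₁ = algebraMap k E c := fun c => by
    rw [← map_pow, hn]
  have htk₀ : ∀ c : k₀, tκ (algebraMap k₀ κ c) = algebraMap k E (algebraMap k₀ k c) := fun c => by
    rw [htκ, ← hk₀, hkE]
  obtain ⟨ι, hι⟩ := exists_tlift (R := k₀) (A := κ) (B := k) tκ (algebraMap k E) (by
    ext c
    exact htk₀ c)
  have hΨg' : ∀ i c, Phi E (B i) (Ψ i c) = Phi E (B .o) (Ψ .o (g i c)) := hΨg
  have hΨz' : ∀ i, Ψ i (fa i (cd.z i)) = 1 ⊗ₜ (ζ i ^ p ^ n₁) := hΨz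
  have hΨy' : ∀ i, Ψ i (fa i (cd.y i)) = 1 ⊗ₜ (υ i ^ p ^ n₁) := hΨy
  have hx : ∀ s : A .o, constantCoeff (Phi E (B .o) (Ψ .o (fa .o s))) = ι (mapH j (x₁ s)) := by
    intro s
    rw [hΨe, he']
    have key : (iterateFrobenius E p n₁).comp i₁.toRingHom = ι.comp (mapH (κ := κ) j).toRingHom := by
      apply tensor_ringHom_ext
      · intro c
        change (i₁ (c ⊗ₜ 1)) ^ p ^ n₁ = ι (mapH j (c ⊗ₜ 1))
        rw [mapH_tmul, hι, map_one, map_one, mul_one, htκ]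
        congr 1
        exact i₁.commutes c
      · intro c
        change (i₁ (1 ⊗ₜ c)) ^ p ^ n₁ = ι (mapH j (1 ⊗ₜ c))
        rw [mapH_tmul, hι, map_one, one_mul, ← hj, hkE]
    exact congrArg (fun F : κ ⊗[k₀] k₁ →+* E => F (x₁ s)) key
  have hrat : ∀ i, ∃ s : Set (A i), Algebra.adjoin κ s = ⊤ ∧
      ∀ a ∈ s, ∃ b : B i, Ψ i (fa i a) = 1 ⊗ₜ b := by
    intro i
    cases i
    · refine ⟨_, cd.gen, ?_⟩
      rintro s (rfl | rfl | rfl)
      · exact ⟨_, hΨz' .o⟩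
      · refine ⟨Subalgebra.inclusion (hB .r) (ζ .r ^ p ^ n₁), ?_⟩
        apply Phi_injective (B .o)
        have h2 : fa .o (cd.f .r (cd.z .r)) = g .r (fa .r (cd.z .r)) :=
          (congrArg (fun F : A .r →ₐ[κ] P .o => F (cd.z .r)) (hfg .r)).symm
        have h3 := hΨg' .r (fa .r (cd.z .r))
        rw [hΨz' .r] at h3
        rw [h2]
        refine h3.symm.trans ?_
        rw [Phi_tmul, Phi_tmul]
        rfl
      · exact ⟨_, hΨy' .o⟩
    · refine ⟨{cd.z .l, cd.y .l}, cd.mon_l.adjoin _ (by simp) (by simp), ?_⟩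
      rintro s (rfl | rfl)
      · exact ⟨_, hΨz' .l⟩
      · exact ⟨_, hΨy' .l⟩
    · refine ⟨{cd.z .r, cd.y .r}, cd.mon_r.adjoin _ (by simp) (by simp), ?_⟩
      rintro s (rfl | rfl)
      · exact ⟨_, hΨz' .r⟩
      · exact ⟨_, hΨy' .r⟩
  -- the new point
  have hcd0 : D.val 0 (fr (k := k₀) k (j z₀)) (fr (k := k₀) k (j y₀)) = 0 := by
    rw [← val_map_hom D 0 (fr (k := k₀) k), ← val_map_hom D 0 j, h0, map_zero, map_zero]
  obtain ⟨k', _, _, _, π, hπz, hπy⟩ := pts _ _ hcd0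
  have hΨκ' : ∀ i c, Ψ i (algebraMap κ _ c) = (tκ c) ⊗ₜ 1 := fun i c => by
    rw [hΨκ, htκ]
  have hπz' : π (ζ .l ^ p ^ n₁) = algebraMap k k' (fr (k := k₀) k (j z₀)) := by
    rw [map_pow, hπz, ← map_pow, hn]
  have hπy' : π (υ .l ^ p ^ n₁) = algebraMap k k' (fr (k := k₀) k (j y₀)) := by
    rw [map_pow, hπy, ← map_pow, hn]
  have hzl' := hΨz' .l
  have hyl' := hΨy' .l
  clear hΨz hΨy hΨz' hΨy' hΨe hΨg hΨκ pts he' he i₁ e hj hk₀ htκ
  letI tw : Algebra κ E := tκ.toAlgebra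
  exact good_of_data htk₀ hst hfield cd fa fb g hgb B hB hinf Ψ hΨκ' hΨg' hrat ι hι z₀ y₀ j x₁
    hxz hxy hx u hu' η α hα q a ha b hfb γ hγ hγa hγb k' π _ _ hzl' hyl' hπz' hπy'

end

end Pool.Agent.H920
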