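import Pool.Agent.H920.St.Prod

/-!
# Coverings and global functions
-/

set_option autoImplicit false
set_option linter.unusedSectionVars false

open CategoryTheory AlgebraicGeometry Opposite Pool.Agent.H666R3.NG

namespace Pool.Agent.H920

noncomputable section

variable {κ : Type} [Field κ] {𝒳 : OverSch κ}

/-- global functions on a scheme over `κ` -/
theorem exists_gamma (Z : Sch κ) : ∃ (Λ : Type) (_ : CommRing Λ) (_ : Algebra κ Λ)
    (can : Z ⟶ SpecO κ Λ), ∀ (A : Type) [CommRing A] [Algebra κ A] (m : Z ⟶ SpecO κ A),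
      ∃! f : A →ₐ[κ] Λ, m = can ≫ SpecM f := by
  let φ : κ →+* Γ(Z.left, ⊤) := toRing Z.hom
  letI : Algebra κ Γ(Z.left, ⊤) := φ.toAlgebra
  have key : ∀ (A : Type) [CommRing A] (f : A →+* Γ(Z.left, ⊤)),
      toRing (Z.left.toSpecΓ ≫ Spec.map (CommRingCat.ofHom f)) = f := by
    intro A _ f
    rw [toRing_SpecMap]
    have : toRing (A := Γ(Z.left, ⊤)) Z.left.toSpecΓ = RingHom.id _ := by
      unfold toRing
      rw [Scheme.toSpecΓ_appTop]
      ext x
      simp
    rw [this, RingHom.id_comp]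
  have hw : Z.left.toSpecΓ ≫ Spec.map (CommRingCat.ofHom (algebraMap κ Γ(Z.left, ⊤))) = Z.hom := by
    apply toRing_inj
    exact key _ _
  let can : Z ⟶ SpecO κ Γ(Z.left, ⊤) := Over.homMk Z.left.toSpecΓ hw
  refine ⟨Γ(Z.left, ⊤), inferInstance, inferInstance, can, ?_⟩
  intro A _ _ m
  have hm : (toRing m.left).comp (algebraMap κ A) = φ := by
    rw [← toRing_SpecMap]
    congr 1
    exact Over.w m
  let f : A →ₐ[κ] Γ(Z.left, ⊤) :=
    { toRing m.left with commutes' := fun r => congrArg (fun F : κ →+* Γ(Z.left, ⊤) => F r) hm }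
  refine ⟨f, ?_, ?_⟩
  · ext1
    apply toRing_inj
    change toRing m.left = toRing (Z.left.toSpecΓ ≫ Spec.map (CommRingCat.ofHom f.toRingHom))
    rw [key]
  · intro g hg
    have h1 : toRing m.left = g.toRingHom := by
      have h2 : m.left = Z.left.toSpecΓ ≫ Spec.map (CommRingCat.ofHom g.toRingHom) :=
        congrArg (fun t => t.left) hg
      rw [h2, key]
    ext x
    have h3 := congrArg (fun F : A →+* Γ(Z.left, ⊤) => F x) h1
    exact h3.symm

variable {K L : Type} [CommRing K] [Algebra κ K] [CommRing L] [Algebra κ L]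

/-- a faithfully flat homomorphism gives a covering -/
theorem cover_mem (v : K →ₐ[κ] L) (hflat : v.toRingHom.Flat)
    (hsurj : Function.Surjective (PrimeSpectrum.comap v.toRingHom)) {Y Y' : Sch κ}
    (e : Y ≅ SpecO κ K) (e' : Y' ≅ SpecO κ L) (m : Y' ⟶ Y) (hm : m = e'.hom ≫ SpecM v ≫ e.inv) :
    Sieve.generate (Presieve.singleton m) ∈ fpqc κ Y := by
  have h1 : Sieve.generate (Presieve.singleton (SpecM v)) ∈ fpqc κ (SpecO κ K) := by
    rw [GrothendieckTopology.mem_over_iff]
    let j : Spec (CommRingCat.of L) ⟶ Spec (CommRingCat.of K) :=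
      Spec.map (CommRingCat.ofHom v.toRingHom)
    have hflat : Flat j := by
      rw [Flat.SpecMap_iff]
      exact hflat
    have hsurj : Surjective j := ⟨hsurj⟩
    have h2 : Sieve.generate (Presieve.singleton j) ∈ Scheme.fpqcTopology (Spec (CommRingCat.of K)) :=
      Precoverage.generate_mem_toGrothendieck j.singleton_mem_fpqcPrecoverage
    refine GrothendieckTopology.superset_covering _ ?_ h2
    rw [Sieve.generate_le_iff]
    rintro W g ⟨⟩
    rw [Sieve.overEquiv_iff]
    refine ⟨SpecO κ L, Over.homMk (𝟙 _) ?_, SpecM v, Presieve.singleton_self _, ?_⟩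
    · have hw : (SpecM v).left ≫ (SpecO κ K).hom = (SpecO κ L).hom := Over.w (SpecM v)
      exact (Category.id_comp _).trans hw.symm
    · ext1
      exact Category.id_comp _
  have h3 := (fpqc κ).pullback_stable e.hom h1
  refine GrothendieckTopology.superset_covering _ ?_ h3
  rintro T h ⟨Z, g, _, ⟨⟩, hg⟩
  refine ⟨_, g ≫ e'.inv, m, Presieve.singleton_self m, ?_⟩
  rw [hm]
  have : g ≫ SpecM v = h ≫ e.hom := hg
  rw [Category.assoc, Iso.inv_hom_id_assoc, ← Category.assoc, this]
  simp

end

end Pool.Agent.H920
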