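import Pool.Agent.H920.St.Frob

/-!
# Good objects
-/

set_option autoImplicit false
set_option linter.unusedSectionVars false

open CategoryTheory AlgebraicGeometry Opposite Pool.Agent.H666R3.NG TensorProduct

namespace Pool.Agent.H920

noncomputable section

variable {κ : Type} [Field κ] {𝒳 : OverSch κ}

/-- the base of an object over `κ` is terminal -/
lemma terminal_y (y : AOb 𝒳 κ) (T : Sch κ) (a b : T ⟶ 𝒳.p.obj y.o) : a = b := by
  obtain ⟨i₀⟩ : Nonempty (pt κ ≅ SpecO κ κ) := by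
    refine ⟨Over.isoMk (Iso.refl _) ?_⟩
    simp only [Iso.refl_hom, Over.mk_hom]
    exact (Category.id_comp _).trans (Spec.map_id _)
  exact pt_unique' (y.i ≪≫ i₀.symm) _ _ _

variable {k : Type} [Field k] [Fintype k] [Algebra k κ]

/-- the homomorphism of constant extensions -/
def mapH {L L' : Type} [Field L] [Algebra k L] [Field L'] [Algebra k L'] (φ : L →ₐ[k] L') :
    κ ⊗[k] L →ₐ[κ] κ ⊗[k] L' :=
  Algebra.TensorProduct.map (AlgHom.id κ κ) φ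

lemma mapH_tmul {L L' : Type} [Field L] [Algebra k L] [Field L'] [Algebra k L'] (φ : L →ₐ[k] L')
    (a : κ) (b : L) : mapH (κ := κ) φ (a ⊗ₜ b) = a ⊗ₜ (φ b) := by
  rw [mapH, Algebra.TensorProduct.map_tmul]; rfl

/-- extensionality for algebra homomorphisms from constant extensions -/
lemma algHom_ext_K {L A : Type} [CommRing L] [Algebra k L] [CommRing A] [Algebra κ A]
    {F G : κ ⊗[k] L →ₐ[κ] A} (h : ∀ b : L, F (1 ⊗ₜ b) = G (1 ⊗ₜ b)) : F = G := by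
  apply AlgHom.coe_ringHom_injective
  apply tensor_ext
  · intro a
    have h1 : ∀ F : κ ⊗[k] L →ₐ[κ] A, F (a ⊗ₜ[k] (1 : L)) = algebraMap κ A a := by
      intro F
      have : a ⊗ₜ[k] (1 : L) = algebraMap κ (κ ⊗[k] L) a := by
        rw [Algebra.TensorProduct.algebraMap_apply]; rfl
      rw [this, AlgHom.commutes]
    exact (h1 F).trans (h1 G).symm
  · exact h

lemma frK_mapH {L L' : Type} [Field L] [Algebra k L] [Field L'] [Algebra k L'] (φ : L →ₐ[k] L') :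
    (frK κ k L').comp (mapH φ) = (mapH φ).comp (frK κ k L) := by
  apply algHom_ext_K
  intro b
  rw [AlgHom.comp_apply, AlgHom.comp_apply, mapH_tmul, frK_tmul, frK_tmul, mapH_tmul]
  congr 1
  simp

lemma mapH_comp {L L' L'' : Type} [Field L] [Algebra k L] [Field L'] [Algebra k L'] [Field L'']
    [Algebra k L''] (φ : L →ₐ[k] L') (ψ : L' →ₐ[k] L'') :
    (mapH ψ).comp (mapH φ) = mapH (κ := κ) (ψ.comp φ) := by
  apply algHom_ext_K
  intro b
  rw [AlgHom.comp_apply, mapH_tmul, mapH_tmul, mapH_tmul]; rfl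

lemma comp_ofId {A B : Type} [CommRing A] [Algebra κ A] [CommRing B] [Algebra κ B] (f : A →ₐ[κ] B) :
    f.comp (Algebra.ofId κ A) = Algebra.ofId κ B := by
  ext

/-- the covering sieve defined by a constant extension -/
lemma sieve_mem {L : Type} [Field L] [Algebra k L] (w : AOb 𝒳 (κ ⊗[k] L)) (y : AOb 𝒳 κ) :
    sieveOf (𝒳.p.obj y.o) (𝒳.p.obj w.o) ∈ fpqc κ (𝒳.p.obj y.o) := by
  have hff := ff_field (algebraMap κ (κ ⊗[k] L))
  refine GrothendieckTopology.superset_covering _ ?_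
    (cover_mem (Algebra.ofId κ (κ ⊗[k] L)) hff.1 hff.2 y.i w.i _ rfl)
  rintro T h ⟨Z, g, _, ⟨⟩, hg⟩
  exact ⟨g⟩

/-- the power of a Frobenius structure -/
lemma pow_frob (hX : IsFibredInGroupoids 𝒳) {L : Type} [Field L] [Algebra k L] [Finite L]
    {w : AOb 𝒳 (κ ⊗[k] L)} {y : AOb 𝒳 κ} {c : w.o ⟶ w.o} (hc : Lies w w c (frK κ k L))
    (θ : w.o ⟶ y.o) (hθ : c ≫ θ = θ) : it c (Module.finrank k L) = 𝟙 w.o := by
  have hcyc := isCyclic_obj hc
  apply hom_eq hX θ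
  · rw [map_it, hcyc.pow, CategoryTheory.Functor.map_id]
  · rw [Category.id_comp]
    generalize Module.finrank k L = n
    induction n with
    | zero => simp
    | succ n ih => rw [it_succ, Category.assoc, hθ, ih]

/-- descent of isomorphisms along constant extensions -/
theorem exists_iso (hst : IsStack (fpqc κ) 𝒳) {L : Type} [Field L] [Algebra k L] [Finite L]
    {w : AOb 𝒳 (κ ⊗[k] L)} {y y' : AOb 𝒳 κ} {c : w.o ⟶ w.o} (hc : Lies w w c (frK κ k L))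
    (θ : w.o ⟶ y.o) (hθ : c ≫ θ = θ) (θ' : w.o ⟶ y'.o) (hθ' : c ≫ θ' = θ') :
    Nonempty (y.o ≅ y'.o) := by
  have hX := hst.fibred
  obtain ⟨e, ⟨he, _⟩, _⟩ := desc_mor hX hst.morphisms₀ c (pow_frob hX hc θ hθ) (isCyclic_obj hc)
    θ θ' hθ hθ' (y.i.hom ≫ y'.i.inv) (terminal_y y' _ _ _) (terminal_y y) (sieveOf _ _)
    (sieve_mem w y) (fun T _ hT => hT) ⟨𝟙 _⟩
  haveI : IsIso e := isIso_of_base hX e (by rw [he]; infer_instance)
  exact ⟨asIso e⟩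

section good

variable {k₁ : Type} [Field k₁] [Algebra k k₁] {A : Type} [CommRing A] [Algebra κ A]

/-- the object `y` over `κ` becomes isomorphic to the value of `η` at the point `x₁` after a constant
extension -/
def IsGood (x₁ : A →ₐ[κ] κ ⊗[k] k₁) (η : AOb 𝒳 A) (y : AOb 𝒳 κ) : Prop :=
  ∃ (L : Type) (_ : Field L) (_ : Algebra k L) (_ : Finite L) (φ : k₁ →ₐ[k] L)
    (w : AOb 𝒳 (κ ⊗[k] L)) (ω : w.o ⟶ η.o) (θ : w.o ⟶ y.o),
      Lies w η ω ((mapH φ).comp x₁) ∧ Lies w y θ (Algebra.ofId κ _)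

/-- the type of a good object -/
def IsTypeG {Ω : Type} [Field Ω] [Algebra κ Ω] (i₁ : κ ⊗[k] k₁ →ₐ[κ] Ω) (x₁ : A →ₐ[κ] κ ⊗[k] k₁)
    (η : AOb 𝒳 A) (o : AOb 𝒳 Ω) (ωo : o.o ⟶ η.o) (y : AOb 𝒳 κ) (τ : o.o ⟶ η.o) : Prop :=
  ∃ (L : Type) (_ : Field L) (_ : Algebra k L) (_ : Finite L) (φ : k₁ →ₐ[k] L)
    (w : AOb 𝒳 (κ ⊗[k] L)) (ω : w.o ⟶ η.o) (θ : w.o ⟶ y.o) (c : w.o ⟶ w.o)
    (j : κ ⊗[k] L →ₐ[κ] Ω) (m : o.o ⟶ w.o),
      Lies w η ω ((mapH φ).comp x₁) ∧ Lies w y θ (Algebra.ofId κ _) ∧ Lies w w c (frK κ k L) ∧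
      c ≫ θ = θ ∧ j.comp (mapH φ) = i₁ ∧ Lies o w m j ∧ m ≫ ω = ωo ∧ τ = m ≫ c ≫ ω

variable {Ω : Type} [Field Ω] [Algebra κ Ω] [IsAlgClosed Ω] (i₁ : κ ⊗[k] k₁ →ₐ[κ] Ω)
  (x₁ : A →ₐ[κ] κ ⊗[k] k₁) (η : AOb 𝒳 A) (o : AOb 𝒳 Ω) (ωo : o.o ⟶ η.o)
  (hωo : Lies o η ωo (i₁.comp x₁))

include hωo in
lemma exists_typeG (hX : IsFibredInGroupoids 𝒳) {y : AOb 𝒳 κ} (hy : IsGood x₁ η y) :
    ∃ τ, IsTypeG i₁ x₁ η o ωo y τ := by
  obtain ⟨L, _, _, _, φ, w, ω, θ, hω, hθ⟩ := hy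
  obtain ⟨c, hc, hc'⟩ := liftA hX (f := frK κ k L) θ θ hθ (by rw [comp_ofId]; exact hθ)
  -- extend the embedding
  letI : Algebra k Ω := ((algebraMap κ Ω).comp (algebraMap k κ)).toAlgebra
  haveI : IsScalarTower k κ Ω := IsScalarTower.of_algebraMap_eq fun _ => rfl
  letI : Algebra k₁ Ω := (i₁.toRingHom.comp
    (Algebra.TensorProduct.includeRight : k₁ →ₐ[k] κ ⊗[k] k₁).toRingHom).toAlgebra
  haveI : IsScalarTower k k₁ Ω := IsScalarTower.of_algebraMap_eq fun a => by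
    change algebraMap κ Ω (algebraMap k κ a) = i₁ ((1 : κ) ⊗ₜ[k] (algebraMap k k₁ a))
    rw [← mul_one (algebraMap k k₁ a), ← Algebra.smul_def, ← TensorProduct.smul_tmul,
        Algebra.smul_def, mul_one]
    exact (i₁.commutes _).symm
  letI : Algebra k₁ L := φ.toRingHom.toAlgebra
  haveI : IsScalarTower k k₁ L := IsScalarTower.of_algebraMap_eq fun a => (φ.commutes a).symm
  haveI : Module.Finite k₁ L := Module.Finite.of_finite
  haveI : Algebra.IsAlgebraic k₁ L := inferInstance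
  let π : L →ₐ[k₁] Ω := IsAlgClosed.lift
  let π' : L →ₐ[k] Ω := π.restrictScalars k
  let j : κ ⊗[k] L →ₐ[κ] Ω :=
    Algebra.TensorProduct.lift (Algebra.ofId κ Ω) π' (fun _ _ => Commute.all _ _)
  have hj : j.comp (mapH φ) = i₁ := by
    apply algHom_ext_K
    intro b
    rw [AlgHom.comp_apply, mapH_tmul]
    change Algebra.TensorProduct.lift (Algebra.ofId κ Ω) π' _ ((1 : κ) ⊗ₜ[k] φ b) = _
    rw [Algebra.TensorProduct.lift_tmul, map_one, one_mul]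
    exact π.commutes b
  obtain ⟨m, hm, hm'⟩ := liftA hX (f := j) ω ωo hω (by
    rw [← AlgHom.comp_assoc, hj]; exact hωo)
  exact ⟨_, L, inferInstance, inferInstance, inferInstance, φ, w, ω, θ, c, j, m, hω, hθ, hc, hc', hj,
    hm, hm', rfl⟩

lemma IsTypeG.lies {y : AOb 𝒳 κ} {τ : o.o ⟶ η.o} (h : IsTypeG i₁ x₁ η o ωo y τ) :
    Lies o η τ (i₁.comp ((frK κ k k₁).comp x₁)) := by
  obtain ⟨L, _, _, _, φ, w, ω, θ, c, j, m, hω, hθ, hc, hc', hj, hm, hm', rfl⟩ := h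
  have h1 := hm.comp (hc.comp hω)
  have e : i₁.comp ((frK κ k k₁).comp x₁) = j.comp ((frK κ k L).comp ((mapH φ).comp x₁)) := by
    rw [← AlgHom.comp_assoc (frK κ k L), frK_mapH, ← hj]
    simp only [AlgHom.comp_assoc]
  rw [e]; exact h1

include hωo in
/-- good objects with the same type are isomorphic -/
lemma iso_of_typeG (hst : IsStack (fpqc κ) 𝒳)
    (hfield : ∀ (L : Type) [Field L] [Algebra k L] [Finite L], IsField (κ ⊗[k] L))
    {y y' : AOb 𝒳 κ} {τ : o.o ⟶ η.o}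
    (h : IsTypeG i₁ x₁ η o ωo y τ) (h' : IsTypeG i₁ x₁ η o ωo y' τ) : Nonempty (y.o ≅ y'.o) := by
  have hX := hst.fibred
  obtain ⟨L, _, _, _, φ, w, ω, θ, c, j, m, hω, hθ, hc, hc', hj, hm, hm', hτ⟩ := h
  obtain ⟨L', _, _, _, φ', w', ω', θ', c', j', m', hω', hθ', hd, hd', hj', hn, hn', hτ'⟩ := h'
  -- the compositum
  letI : Algebra k Ω := ((algebraMap κ Ω).comp (algebraMap k κ)).toAlgebra
  haveI : IsScalarTower k κ Ω := IsScalarTower.of_algebraMap_eq fun _ => rfl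
  have hres : ∀ {M : Type} [Field M] [Algebra k M] (g : κ ⊗[k] M →ₐ[κ] Ω) (a : k),
      g ((1 : κ) ⊗ₜ[k] (algebraMap k M a)) = algebraMap k Ω a := by
    intro M _ _ g a
    rw [← mul_one (algebraMap k M a), ← Algebra.smul_def, ← TensorProduct.smul_tmul,
        Algebra.smul_def, mul_one]
    exact g.commutes _
  let jL : L →ₐ[k] Ω :=
    { j.toRingHom.comp (Algebra.TensorProduct.includeRight : L →ₐ[k] κ ⊗[k] L).toRingHom with
      commutes' := fun a => hres j a }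
  let jL' : L' →ₐ[k] Ω :=
    { j'.toRingHom.comp (Algebra.TensorProduct.includeRight : L' →ₐ[k] κ ⊗[k] L').toRingHom with
      commutes' := fun a => hres j' a }
  haveI : Module.Finite k L := Module.Finite.of_finite
  haveI : Module.Finite k L' := Module.Finite.of_finite
  let M : IntermediateField k Ω := jL.fieldRange ⊔ jL'.fieldRange
  haveI : FiniteDimensional k jL.fieldRange := by
    have : Module.Finite k jL.range := Module.Finite.of_surjective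
      (jL.rangeRestrict.toLinearMap : L →ₗ[k] jL.range) jL.rangeRestrict_surjective
    exact this
  haveI : FiniteDimensional k jL'.fieldRange := by
    have : Module.Finite k jL'.range := Module.Finite.of_surjective
      (jL'.rangeRestrict.toLinearMap : L' →ₗ[k] jL'.range) jL'.rangeRestrict_surjective
    exact this
  haveI : FiniteDimensional k M := IntermediateField.finiteDimensional_sup _ _
  haveI : Finite M := Module.finite_of_finite k
  let ι : L →ₐ[k] M := (IntermediateField.inclusion le_sup_left).comp jL.rangeRestrict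
  let ι' : L' →ₐ[k] M := (IntermediateField.inclusion le_sup_right).comp jL'.rangeRestrict
  let jM : κ ⊗[k] M →ₐ[κ] Ω :=
    Algebra.TensorProduct.lift (Algebra.ofId κ Ω) M.val (fun _ _ => Commute.all _ _)
  have hjM : ∀ b : M, jM ((1 : κ) ⊗ₜ[k] b) = b := by
    intro b
    change Algebra.TensorProduct.lift (Algebra.ofId κ Ω) M.val _ ((1 : κ) ⊗ₜ[k] b) = _
    rw [Algebra.TensorProduct.lift_tmul, map_one, one_mul]
    rfl
  have hι : jM.comp (mapH ι) = j := by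
    apply algHom_ext_K
    intro b
    rw [AlgHom.comp_apply, mapH_tmul, hjM]
    rfl
  have hι' : jM.comp (mapH ι') = j' := by
    apply algHom_ext_K
    intro b
    rw [AlgHom.comp_apply, mapH_tmul, hjM]
    rfl
  have hιφ : ι.comp φ = ι'.comp φ' := by
    ext b
    have h1 : j ((1 : κ) ⊗ₜ[k] φ b) = i₁ ((1 : κ) ⊗ₜ[k] b) := by
      rw [← hj, AlgHom.comp_apply, mapH_tmul]
    have h2 : j' ((1 : κ) ⊗ₜ[k] φ' b) = i₁ ((1 : κ) ⊗ₜ[k] b) := by
      rw [← hj', AlgHom.comp_apply, mapH_tmul]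
    have e1 : ((ι.comp φ) b : Ω) = j ((1 : κ) ⊗ₜ[k] φ b) := rfl
    have e2 : ((ι'.comp φ') b : Ω) = j' ((1 : κ) ⊗ₜ[k] φ' b) := rfl
    rw [e1, e2, h1, h2]
  -- the object over the compositum
  obtain ⟨w₃, ω₃, hω₃⟩ := exists_pullA hX η ((mapH (κ := κ) (ι.comp φ)).comp x₁)
  obtain ⟨s, hs, hs'⟩ := liftA hX (f := mapH ι) ω ω₃ hω (by
    rw [← AlgHom.comp_assoc, mapH_comp]; exact hω₃)
  obtain ⟨t, ht, ht'⟩ := liftA hX (f := mapH ι') ω' ω₃ hω' (by
    rw [← AlgHom.comp_assoc, mapH_comp, ← hιφ]; exact hω₃)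
  obtain ⟨o₃, ho₃, ho₃'⟩ := liftA hX (f := jM) ω₃ ωo hω₃ (by
    rw [← AlgHom.comp_assoc, ← mapH_comp, ← AlgHom.comp_assoc, hι, hj]; exact hωo)
  have hos : o₃ ≫ s = m := by
    refine homA_eq hX ω (f := j) ?_ hm ?_
    · rw [← hι]; exact ho₃.comp hs
    · rw [Category.assoc, hs', ho₃', hm']
  have hot : o₃ ≫ t = m' := by
    refine homA_eq hX ω' (f := j') ?_ hn ?_
    · rw [← hι']; exact ho₃.comp ht
    · rw [Category.assoc, ht', ho₃', hn']
  have hsθ : Lies w₃ y (s ≫ θ) (Algebra.ofId κ _) := by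
    rw [← comp_ofId (mapH ι)]; exact hs.comp hθ
  have htθ : Lies w₃ y' (t ≫ θ') (Algebra.ofId κ _) := by
    rw [← comp_ofId (mapH ι')]; exact ht.comp hθ'
  obtain ⟨c₃, hc₃, hc₃'⟩ := liftA hX (f := frK κ k M) (s ≫ θ) (s ≫ θ) hsθ (by
    rw [comp_ofId]; exact hsθ)
  obtain ⟨d₃, hd₃, hd₃'⟩ := liftA hX (f := frK κ k M) (t ≫ θ') (t ≫ θ') htθ (by
    rw [comp_ofId]; exact htθ)
  have hcs : c₃ ≫ s = s ≫ c := by
    refine homA_eq hX θ (f := (frK κ k M).comp (mapH ι)) (hc₃.comp hs) ?_ ?_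
    · rw [frK_mapH]; exact hs.comp hc
    · rw [Category.assoc, hc₃', Category.assoc, hc']
  have hdt : d₃ ≫ t = t ≫ c' := by
    refine homA_eq hX θ' (f := (frK κ k M).comp (mapH ι')) (hd₃.comp ht) ?_ ?_
    · rw [frK_mapH]; exact ht.comp hd
    · rw [Category.assoc, hd₃', Category.assoc, hd']
  have hff := ff_isField (hfield M) jM.toRingHom
  have hcd : c₃ = d₃ := by
    refine homA_eq hX ω₃ hc₃ hd₃ ?_
    refine eq_of_ff hst ho₃ hff.1 hff.2 _ _ ((hc₃.comp hω₃).map_unique (hd₃.comp hω₃)) ?_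
    have e1 : o₃ ≫ c₃ ≫ ω₃ = τ := by
      calc o₃ ≫ c₃ ≫ ω₃ = o₃ ≫ (c₃ ≫ s) ≫ ω := by rw [← hs', Category.assoc]
        _ = (o₃ ≫ s) ≫ c ≫ ω := by rw [hcs]; simp only [Category.assoc]
        _ = τ := by rw [hos, hτ]
    have e2 : o₃ ≫ d₃ ≫ ω₃ = τ := by
      calc o₃ ≫ d₃ ≫ ω₃ = o₃ ≫ (d₃ ≫ t) ≫ ω' := by rw [← ht', Category.assoc]
        _ = (o₃ ≫ t) ≫ c' ≫ ω' := by rw [hdt]; simp only [Category.assoc]
        _ = τ := by rw [hot, hτ']
    rw [e1, e2]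
  rw [← hcd] at hd₃'
  exact exists_iso hst hc₃ (s ≫ θ) hc₃' (t ≫ θ') hd₃'

end good

section reps

variable {k₁ : Type} [Field k₁] [Algebra k k₁] [Finite k₁] {A : Type} [CommRing A] [Algebra κ A]

/-- finitely many isomorphism classes of good objects -/
theorem exists_repsG (hst : IsStack (fpqc κ) 𝒳) {u : 𝒳.obj} (hu : IsFiniteAtlas 𝒳 u)
    (hfield : ∀ (L : Type) [Field L] [Algebra k L] [Finite L], IsField (κ ⊗[k] L))
    (x₁ : A →ₐ[κ] κ ⊗[k] k₁) (η : AOb 𝒳 A) :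
    ∃ (ι : Type) (_ : Finite ι) (s : ι → {y : AOb 𝒳 κ // IsGood x₁ η y}),
      ∀ y : AOb 𝒳 κ, IsGood x₁ η y → ∃ i, Nonempty (y.o ≅ (s i).1.o) := by
  obtain ⟨Ω, _, _, _, i₁, -⟩ := exists_ac (κ := κ) (κ ⊗[k] k₁) (hfield k₁)
  obtain ⟨o, ωo, hωo⟩ := exists_pullA hst.fibred η (i₁.comp x₁)
  have hfin := finite_arrows hst.fibred hu o η (i₁.comp ((frK κ k k₁).comp x₁))
  let T := {τ : {f : o.o ⟶ η.o // Lies o η f (i₁.comp ((frK κ k k₁).comp x₁))} //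
    ∃ y : {y : AOb 𝒳 κ // IsGood x₁ η y}, IsTypeG i₁ x₁ η o ωo y.1 τ.1}
  let s : T → {y : AOb 𝒳 κ // IsGood x₁ η y} := fun τ => τ.2.choose
  have hs : ∀ τ : T, IsTypeG i₁ x₁ η o ωo (s τ).1 τ.1.1 := fun τ => τ.2.choose_spec
  refine ⟨T, inferInstance, s, ?_⟩
  intro y hy
  obtain ⟨τ, hτ⟩ := exists_typeG i₁ x₁ η o ωo hωo hst.fibred hy
  refine ⟨⟨⟨τ, hτ.lies⟩, ⟨y, hy⟩, hτ⟩, ?_⟩
  exact iso_of_typeG i₁ x₁ η o ωo hωo hst hfield hτ (hs ⟨⟨τ, hτ.lies⟩, ⟨y, hy⟩, hτ⟩)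

end reps

end

end Pool.Agent.H920
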