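import Pool.Agent.H920.St.Prep
import Pool.Agent.H920.St.Good

/-!
# Points of the product with the atlas
-/

set_option autoImplicit false
set_option linter.unusedSectionVars false

open CategoryTheory AlgebraicGeometry Opposite Pool.Agent.H666R3.NG TensorProduct

namespace Pool.Agent.H920

noncomputable section

variable {κ : Type} [Field κ] {𝒳 : OverSch κ}

/-- a point of the product with the atlas over a given point -/
theorem exists_E (hX : IsFibredInGroupoids 𝒳) {u : 𝒳.obj} (hu : IsFiniteAtlas 𝒳 u) {K₁ : Type}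
    [CommRing K₁] [Nontrivial K₁] [Algebra κ K₁] [Module.Finite κ K₁] {A P : Type} [CommRing A]
    [Algebra κ A] [CommRing P] [Algebra κ P] {y : AOb 𝒳 A} {q : AOb 𝒳 P} {a : q.o ⟶ y.o}
    {b : q.o ⟶ u} {fa : A →ₐ[κ] P} (hq : IsProd a b) (ha : Lies q y a fa) (x₁ : A →ₐ[κ] K₁) :
    ∃ (E : Type) (_ : Field E) (_ : Algebra κ E) (_ : Module.Finite κ E) (i₁ : K₁ →ₐ[κ] E)
      (e : P →ₐ[κ] E), e.comp fa = i₁.comp x₁ := by
  obtain ⟨w₁, ω₁, hω₁⟩ := exists_pullA hX y x₁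
  obtain ⟨W', _, _, W, c1, c2, fw, hW, hc1, hfin, -, hsurj⟩ := exists_prodA hu w₁
  obtain ⟨γ, g, hγ, hγa, hγb⟩ := exists_comp hX ω₁ hq c1 c2
  letI : Algebra K₁ W' := fw.toRingHom.toAlgebra
  haveI : IsScalarTower κ K₁ W' := IsScalarTower.of_algebraMap_eq fun r => (fw.commutes r).symm
  haveI hfin' : Module.Finite K₁ W' := hfin
  haveI : Module.Finite κ W' := Module.Finite.trans K₁ W'
  haveI hne : Nontrivial W' := by
    obtain ⟨M₀, hM₀⟩ := Ideal.exists_maximal K₁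
    obtain ⟨q, _⟩ := hsurj (⟨M₀, hM₀.isPrime⟩ : PrimeSpectrum K₁)
    exact ⟨0, 1, fun h01 => q.2.ne_top ((Ideal.eq_top_iff_one _).2 (by
      rw [← h01]; exact Ideal.zero_mem _))⟩
  obtain ⟨M, hM⟩ := Ideal.exists_maximal W'
  letI := Ideal.Quotient.field M
  let π : W' →ₐ[κ] (W' ⧸ M) := Ideal.Quotient.mkₐ κ M
  refine ⟨W' ⧸ M, inferInstance, inferInstance, inferInstance, π.comp fw, π.comp g, ?_⟩
  have h1 := hγ.comp ha
  rw [hγa] at h1
  have h2 : fw.comp x₁ = g.comp fa := (hc1.comp hω₁).unique h1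
  rw [AlgHom.comp_assoc, AlgHom.comp_assoc, h2]

/-- the subfield of constants -/
def conF (E : Type) [Field E] (p : ℕ) [Fact p.Prime] [CharP E p] : Subfield E where
  carrier := {e | ∀ n, ∃ a, a ^ p ^ n = e}
  mul_mem' := by
    intro x y hx hy n
    obtain ⟨a, rfl⟩ := hx n
    obtain ⟨b, rfl⟩ := hy n
    exact ⟨a * b, mul_pow _ _ _⟩
  one_mem' := fun n => ⟨1, one_pow _⟩
  add_mem' := by
    intro x y hx hy n
    obtain ⟨a, rfl⟩ := hx n
    obtain ⟨b, rfl⟩ := hy n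
    haveI : ExpChar E p := ExpChar.prime Fact.out
    exact ⟨a + b, add_pow_expChar_pow _ _ _ _⟩
  zero_mem' := fun n => ⟨0, zero_pow (pow_ne_zero _ (Fact.out : p.Prime).ne_zero)⟩
  neg_mem' := by
    intro x hx n
    obtain ⟨a, rfl⟩ := hx n
    haveI : ExpChar E p := ExpChar.prime Fact.out
    exact ⟨-a, by
      have := map_neg (iterateFrobenius E p n) a
      rwa [iterateFrobenius_def, iterateFrobenius_def] at this⟩
  inv_mem' := by
    intro x hx n
    obtain ⟨a, rfl⟩ := hx n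
    exact ⟨a⁻¹, inv_pow _ _⟩

lemma mem_conF {E : Type} [Field E] {p : ℕ} [Fact p.Prime] [CharP E p] {e : E} :
    e ∈ conF E p ↔ ∀ n, ∃ a, a ^ p ^ n = e := Iff.rfl

/-- elements of finite subfields are constants -/
lemma mem_conF_of_finite {E k₁ : Type} [Field E] {p : ℕ} [Fact p.Prime] [CharP E p] [Field k₁]
    [Finite k₁] (f : k₁ →+* E) (b : k₁) : f b ∈ conF E p := by
  haveI : CharP k₁ p := RingHom.charP f f.injective p
  haveI : ExpChar k₁ p := ExpChar.prime Fact.out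
  haveI : PerfectRing k₁ p := PerfectRing.ofFiniteOfIsReduced p k₁
  rw [mem_conF]
  intro n
  obtain ⟨c, hc⟩ := (iterateFrobeniusEquiv k₁ p n).surjective b
  refine ⟨f c, ?_⟩
  rw [← map_pow, ← hc]
  rfl

theorem exists_k {k₀ k₁ E : Type} [Field k₀] [Field k₁] [Field E] [Algebra k₀ κ]
    [Algebra k₀ k₁] [Finite k₁] [Algebra κ E] {p : ℕ} [Fact p.Prime] [CharP E p]
    (i₁ : κ ⊗[k₀] k₁ →ₐ[κ] E) (hfin : Finite (conF E p)) :
    ∃ (k : Type) (_ : Field k) (_ : Finite k) (_ : Algebra k E) (_ : Algebra k₀ k)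
      (j : k₁ →ₐ[k₀] k),
      (∀ e : E, (∀ n, ∃ a, a ^ p ^ n = e) → ∃ c : k, algebraMap k E c = e) ∧
      (∀ (c : k) (n : ℕ), ∃ a : E, a ^ p ^ n = algebraMap k E c) ∧
      (∀ b, algebraMap k E (j b) = i₁ (1 ⊗ₜ b)) ∧
      ∀ c : k₀, algebraMap k E (algebraMap k₀ k c) = algebraMap κ E (algebraMap k₀ κ c) := by
  let f : k₁ →+* E := i₁.toRingHom.comp
    (Algebra.TensorProduct.includeRight : k₁ →ₐ[k₀] κ ⊗[k₀] k₁).toRingHom
  let jj : k₁ →+* conF E p := f.codRestrict (conF E p) (mem_conF_of_finite f)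
  letI : Algebra k₀ (conF E p) := (jj.comp (algebraMap k₀ k₁)).toAlgebra
  refine ⟨conF E p, inferInstance, hfin, inferInstance, inferInstance,
    { jj with commutes' := fun r => rfl }, ?_, ?_, ?_, ?_⟩
  · intro e he
    exact ⟨⟨e, he⟩, rfl⟩
  · intro c n
    exact c.2 n
  · intro b
    rfl
  · intro c
    change i₁ (1 ⊗ₜ (algebraMap k₀ k₁ c)) = _
    rw [← balance]
    exact i₁.commutes _

end

end Pool.Agent.H920
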