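import Pool.Agent.H920.St.Cover

/-!
# Finiteness of sets of morphisms
-/

set_option autoImplicit false
set_option linter.unusedSectionVars false

open CategoryTheory AlgebraicGeometry Opposite Pool.Agent.H666R3.NG

namespace Pool.Agent.H920

noncomputable section

variable {κ : Type} [Field κ] {𝒳 : OverSch κ}

section ff

variable {K L : Type} [CommRing K] [Algebra κ K] [CommRing L] [Algebra κ L]

/-- morphisms which agree on a faithfully flat cover are equal -/
theorem eq_of_ff (hst : IsStack (fpqc κ) 𝒳) {w : AOb 𝒳 K} {s : AOb 𝒳 L} {m : s.o ⟶ w.o}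
    {v : K →ₐ[κ] L} (hm : Lies s w m v) (hflat : v.toRingHom.Flat)
    (hsurj : Function.Surjective (PrimeSpectrum.comap v.toRingHom)) {z : 𝒳.obj} (f g : w.o ⟶ z)
    (hfg : 𝒳.p.map f = 𝒳.p.map g) (h : m ≫ f = m ≫ g) : f = g := by
  have hX := hst.fibred
  refine eq_of_cover hst.morphisms₀ f g hfg (Sieve.generate (Presieve.singleton (𝒳.p.map m)))
    (cover_mem v hflat hsurj w.i s.i _ hm.map_eq) ?_
  rintro z' a ⟨_, g0, _, ⟨⟩, hg0⟩
  obtain ⟨g', ⟨_, hg'⟩, _⟩ := lift_unique hX m a g0 hg0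
  rw [← hg', Category.assoc, h, Category.assoc]

end ff

/-- a homomorphism of fields is faithfully flat -/
lemma ff_field {K L : Type} [Field K] [CommRing L] [Nontrivial L] (v : K →+* L) :
    v.Flat ∧ Function.Surjective (PrimeSpectrum.comap v) := by
  constructor
  · letI := v.toAlgebra
    change Module.Flat K L
    infer_instance
  · intro y
    obtain ⟨y'⟩ : Nonempty (PrimeSpectrum L) := inferInstance
    exact ⟨y', Subsingleton.elim _ _⟩

lemma ff_isField {K L : Type} [CommRing K] (hK : IsField K) [CommRing L] [Nontrivial L]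
    (v : K →+* L) : v.Flat ∧ Function.Surjective (PrimeSpectrum.comap v) := by
  letI := hK.toField
  have := ff_field v
  exact this

section finite

open Polynomial in
/-- finiteness of sets of homomorphisms -/
lemma finite_homs {B W Ω : Type} [CommRing B] [Algebra κ B] [CommRing W] [Algebra κ W] [Field Ω]
    [Algebra κ Ω] (fa : B →ₐ[κ] W) (hfin : fa.toRingHom.Finite) (g : B →ₐ[κ] Ω) :
    Finite {χ : W →ₐ[κ] Ω // χ.comp fa = g} := by
  classical
  letI : Algebra B W := fa.toRingHom.toAlgebra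
  have hfin' : Module.Finite B W := hfin
  obtain ⟨s, hs⟩ := hfin'.fg_top
  have hint : ∀ x : W, ∃ P : B[X], P.Monic ∧ eval₂ fa.toRingHom x P = 0 := fun x =>
    (Algebra.IsIntegral.of_finite B W).isIntegral x
  choose P hP hP' using hint
  have hroot : ∀ (χ : {χ : W →ₐ[κ] Ω // χ.comp fa = g}) (x : W),
      χ.1 x ∈ ((P x).map g.toRingHom).roots.toFinset := by
    intro χ x
    rw [Multiset.mem_toFinset, mem_roots ((hP x).map _).ne_zero, IsRoot.def, Polynomial.eval_map]
    have h1 := congrArg χ.1 (hP' x)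
    rw [map_zero] at h1
    rw [← h1]
    have h2 : g.toRingHom = χ.1.toRingHom.comp fa.toRingHom :=
      congrArg (fun F : B →ₐ[κ] Ω => F.toRingHom) χ.2.symm
    rw [h2]
    exact (hom_eval₂ (P x) fa.toRingHom χ.1.toRingHom x).symm
  let F : {χ : W →ₐ[κ] Ω // χ.comp fa = g} →
      ((x : s) → (((P x.1).map g.toRingHom).roots.toFinset)) := fun χ x => ⟨χ.1 x.1, hroot χ x.1⟩
  refine Finite.of_injective F ?_
  intro χ χ' h
  apply Subtype.ext
  ext x
  have hx : x ∈ Submodule.span B (s : Set W) := by rw [hs]; trivial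
  induction hx using Submodule.span_induction with
  | mem x hx => exact congrArg Subtype.val (congrFun h ⟨x, hx⟩)
  | zero => rw [map_zero, map_zero]
  | add x y _ _ hx hy => rw [map_add, map_add, hx, hy]
  | smul b x _ hx =>
    have e1 : ∀ χ : {χ : W →ₐ[κ] Ω // χ.comp fa = g}, χ.1 (b • x) = g b * χ.1 x := by
      intro χ
      rw [Algebra.smul_def, map_mul]
      congr 1
      exact congrArg (fun F : B →ₐ[κ] Ω => F b) χ.2
    rw [e1, e1, hx]

variable {Ω : Type} [Field Ω] [Algebra κ Ω] [IsAlgClosed Ω]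

/-- over an algebraically closed field every object has a morphism to the atlas -/
lemma exists_arrow_u (hX : IsFibredInGroupoids 𝒳) {u : 𝒳.obj} (hu : IsFiniteAtlas 𝒳 u)
    (o : AOb 𝒳 Ω) : Nonempty (o.o ⟶ u) := by
  obtain ⟨W', _, _, W, pr, pu, fw, hW, hpr, hfin, -, hsurj⟩ := exists_prodA hu o
  letI : Algebra Ω W' := fw.toRingHom.toAlgebra
  have hfin' : Module.Finite Ω W' := hfin
  have hne : Nontrivial W' := by
    obtain ⟨q, _⟩ := hsurj (⟨⊥, Ideal.isPrime_bot⟩ : PrimeSpectrum Ω)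
    exact ⟨0, 1, fun h01 => q.2.ne_top ((Ideal.eq_top_iff_one _).2 (by
      rw [← h01]; exact Ideal.zero_mem _))⟩
  obtain ⟨M, hM⟩ := Ideal.exists_maximal W'
  letI := Ideal.Quotient.field M
  have hint : Algebra.IsIntegral Ω (W' ⧸ M) := Algebra.IsIntegral.of_finite _ _
  have halg : Algebra.IsAlgebraic Ω (W' ⧸ M) := inferInstance
  let π : (W' ⧸ M) →ₐ[Ω] Ω := IsAlgClosed.lift
  let χ : W' →ₐ[κ] Ω :=
    { π.toRingHom.comp (Ideal.Quotient.mk M) with
      commutes' := by
        intro r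
        change π (Ideal.Quotient.mk M (algebraMap κ W' r)) = algebraMap κ Ω r
        have h1 : algebraMap κ W' r = algebraMap Ω W' (algebraMap κ Ω r) := (fw.commutes r).symm
        rw [h1]
        exact π.commutes _ }
  have hχ : χ.comp fw = AlgHom.id κ Ω := by
    ext r
    exact π.commutes r
  obtain ⟨z, ζ, hζ⟩ := exists_pullA hX W χ
  have h1 : Lies z o (ζ ≫ pr) (AlgHom.id κ Ω) := by rw [← hχ]; exact hζ.comp hpr
  obtain ⟨ν, -, -, -⟩ := lies_inv hX h1
  exact ⟨ν ≫ ζ ≫ pu⟩

/-- finiteness of the sets of morphisms from an object over an algebraically closed field -/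
theorem finite_arrows (hX : IsFibredInGroupoids 𝒳) {u : 𝒳.obj} (hu : IsFiniteAtlas 𝒳 u)
    (o : AOb 𝒳 Ω) {B : Type} [CommRing B] [Algebra κ B] (y : AOb 𝒳 B) (g : B →ₐ[κ] Ω) :
    Finite {f : o.o ⟶ y.o // Lies o y f g} := by
  obtain ⟨b⟩ := exists_arrow_u hX hu o
  obtain ⟨W', _, _, W, pr, pu, fw, hW, hpr, hfin, -, -⟩ := exists_prodA hu y
  have hl : ∀ f : o.o ⟶ y.o, ∃ l : o.o ⟶ W.o, l ≫ pr = f ∧ l ≫ pu = b := fun f => hW.lift f b
  choose l hl1 hl2 using hl
  have hΓ : ∀ f : o.o ⟶ y.o, ∃ Γ : W' →ₐ[κ] Ω, Lies o W (l f) Γ := fun f => exists_lies _ _ _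
  choose Γ hΓ using hΓ
  have := finite_homs fw hfin g
  let F : {f : o.o ⟶ y.o // Lies o y f g} → {χ : W' →ₐ[κ] Ω // χ.comp fw = g} := fun f =>
    ⟨Γ f.1, by
      have h1 := (hΓ f.1).comp hpr
      rw [hl1] at h1
      exact h1.unique f.2⟩
  refine Finite.of_injective F ?_
  rintro ⟨f, hf⟩ ⟨f', hf'⟩ h
  have h1 : Γ f = Γ f' := congrArg Subtype.val h
  have h2 : l f = l f' := by
    refine homA_eq hX pu (hΓ f) ?_ (by rw [hl2, hl2])
    rw [h1]; exact hΓ f'
  apply Subtype.ext
  change f = f'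
  rw [← hl1 f, ← hl1 f', h2]

end finite

end

end Pool.Agent.H920
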