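import Pool.Agent.H920.St.Cyc

/-!
# Descent of objects along constant extensions
-/

set_option autoImplicit false
set_option linter.unusedSectionVars false

open CategoryTheory AlgebraicGeometry Opposite Pool.Agent.H666R3.NG TensorProduct

namespace Pool.Agent.H920

noncomputable section

variable {κ : Type} [Field κ] {𝒳 : OverSch κ}

lemma exists_ac (K : Type) [CommRing K] [Algebra κ K] (hK : IsField K) :
    ∃ (Ω : Type) (_ : Field Ω) (_ : Algebra κ Ω) (_ : IsAlgClosed Ω) (_ : K →ₐ[κ] Ω), True := by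
  letI := hK.toField
  let Ω := AlgebraicClosure K
  let g : K →+* Ω := algebraMap K Ω
  letI : Algebra κ Ω := (g.comp (algebraMap κ K)).toAlgebra
  exact ⟨Ω, inferInstance, inferInstance, inferInstance, { g with commutes' := fun r => rfl }, trivial⟩

/-- finiteness of the set of morphisms over a given one, from an object over a field -/
theorem finite_hom_field (hst : IsStack (fpqc κ) 𝒳) {u : 𝒳.obj} (hu : IsFiniteAtlas 𝒳 u)
    {K B : Type} [CommRing K] [Algebra κ K] (hK : IsField K) [CommRing B] [Algebra κ B]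
    (w : AOb 𝒳 K) (y : AOb 𝒳 B) (g : B →ₐ[κ] K) : Finite {f : w.o ⟶ y.o // Lies w y f g} := by
  obtain ⟨Ω, _, _, _, i, -⟩ := exists_ac (κ := κ) K hK
  obtain ⟨o, m, hm⟩ := exists_pullA hst.fibred w i
  have hfin := finite_arrows hst.fibred hu o y (i.comp g)
  have hff := ff_isField hK i.toRingHom
  let F : {f : w.o ⟶ y.o // Lies w y f g} → {f : o.o ⟶ y.o // Lies o y f (i.comp g)} := fun f =>
    ⟨m ≫ f.1, hm.comp f.2⟩
  refine Finite.of_injective F ?_
  rintro ⟨f, hf⟩ ⟨f', hf'⟩ h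
  apply Subtype.ext
  exact eq_of_ff hst hm hff.1 hff.2 f f' (hf.map_unique hf') (congrArg Subtype.val h)

section it

lemma Lies.it {A : Type} [CommRing A] [Algebra κ A] {x : AOb 𝒳 A} {c : x.o ⟶ x.o}
    {σ : A →ₐ[κ] A} (hc : Lies x x c σ) (n : ℕ) : Lies x x (it c n) (σ ^ n) := by
  induction n with
  | zero => exact Lies.id x
  | succ n ih => rw [it_succ, pow_succ]; exact ih.comp hc

end it

variable (k : Type) [Field k] [Fintype k] [Algebra k κ]

/-- the homomorphism of constant extensions -/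
def mapK (L L' : Type) [Field L] [Algebra k L] [Field L'] [Algebra k L'] [Algebra L L']
    [IsScalarTower k L L'] : κ ⊗[k] L →ₐ[κ] κ ⊗[k] L' :=
  Algebra.TensorProduct.map (AlgHom.id κ κ) (IsScalarTower.toAlgHom k L L')

variable {k}

lemma mapK_tmul {L L' : Type} [Field L] [Algebra k L] [Field L'] [Algebra k L'] [Algebra L L']
    [IsScalarTower k L L'] (a : κ) (b : L) :
    mapK (κ := κ) k L L' (a ⊗ₜ b) = a ⊗ₜ (algebraMap L L' b) := by
  rw [mapK, Algebra.TensorProduct.map_tmul]; rfl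

lemma frK_mapK {L L' : Type} [Field L] [Algebra k L] [Field L'] [Algebra k L'] [Algebra L L']
    [IsScalarTower k L L'] :
    (frK κ k L').comp (mapK k L L') = (mapK k L L').comp (frK κ k L) := by
  apply AlgHom.coe_ringHom_injective
  apply tensor_ext
  · intro a
    change frK κ k L' (mapK k L L' (a ⊗ₜ[k] (1 : L))) = mapK k L L' (frK κ k L (a ⊗ₜ[k] (1 : L)))
    rw [mapK_tmul, frK_tmul, frK_tmul, mapK_tmul, map_one, map_one, map_one, map_one]
  · intro b
    change frK κ k L' (mapK k L L' ((1 : κ) ⊗ₜ[k] b)) =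
      mapK k L L' (frK κ k L ((1 : κ) ⊗ₜ[k] b))
    rw [mapK_tmul, frK_tmul, frK_tmul, mapK_tmul]
    congr 1
    simp

variable (hfield : ∀ (L : Type) [Field L] [Algebra k L] [Finite L], IsField (κ ⊗[k] L))

include hfield

/-- an object with a Frobenius descends after a constant extension -/
theorem exists_frob_desc (hst : IsStack (fpqc κ) 𝒳) {u : 𝒳.obj} (hu : IsFiniteAtlas 𝒳 u)
    {L : Type} [Field L] [Algebra k L] [Finite L] (w : AOb 𝒳 (κ ⊗[k] L)) (c : w.o ⟶ w.o)
    (hc : Lies w w c (frK κ k L)) :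
    ∃ (L' : Type) (_ : Field L') (_ : Algebra k L') (_ : Algebra L L') (_ : IsScalarTower k L L')
      (_ : Finite L') (w' : AOb 𝒳 (κ ⊗[k] L')) (m : w'.o ⟶ w.o) (y : AOb 𝒳 κ) (θ : w'.o ⟶ y.o),
      Lies w' w m (mapK k L L') ∧ Lies w' y θ (Algebra.ofId κ _) := by
  have hX := hst.fibred
  -- a power of `c` is the identity
  have hE := finite_hom_field hst hu (hfield L) w w (AlgHom.id κ _)
  set m := Module.finrank k L with hm
  have hcyc := isCyclic_obj hc
  have hfm : frK κ k L ^ m = AlgHom.id κ _ := by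
    have h1 := (isCyclic_frK (κ := κ) (k := k) L).pow
    rw [it_SpecM] at h1
    exact SpecM_inj (h1.trans (SpecM_id _).symm)
  have hpow : ∀ j : ℕ, Lies w w (it c (m * j)) (AlgHom.id κ _) := by
    intro j
    have h1 := hc.it (m * j)
    rw [pow_mul, hfm] at h1
    have h2 : ∀ j : ℕ, (AlgHom.id κ (κ ⊗[k] L)) ^ j = AlgHom.id κ _ := fun j => one_pow j
    rwa [h2] at h1
  obtain ⟨i, j, hij, hij'⟩ := Finite.exists_ne_map_eq_of_infinite
    (fun j : ℕ => (⟨it c (m * j), hpow j⟩ : {f : w.o ⟶ w.o // Lies w w f (AlgHom.id κ _)}))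
  have hij'' : it c (m * i) = it c (m * j) := congrArg Subtype.val hij'
  obtain ⟨r, hr, hcr⟩ : ∃ r : ℕ, 0 < r ∧ it c (m * r) = 𝟙 w.o := by
    have key : ∀ i j : ℕ, i < j → it c (m * i) = it c (m * j) → ∃ r : ℕ, 0 < r ∧
        it c (m * r) = 𝟙 w.o := by
      intro i j hlt heq
      refine ⟨j - i, by omega, ?_⟩
      have h1 : m * j = m * i + m * (j - i) := by
        rw [← Nat.mul_add]; congr 1; omega
      rw [h1, it_add] at heq
      have hiso : IsIso (it c (m * i)) := isIso_of_lies hX (hpow i)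
      have h2 : it c (m * i) ≫ 𝟙 w.o = it c (m * i) ≫ it c (m * (j - i)) := by
        rw [Category.comp_id]; exact heq
      exact ((cancel_epi _).1 h2).symm
    rcases lt_or_gt_of_ne hij with h1 | h1
    · exact key i j h1 hij''
    · exact key j i h1 hij''.symm
  -- go to the extension of degree `r`
  obtain ⟨p, hp⟩ := CharP.exists L
  have hpp : Fact p.Prime := ⟨(CharP.char_is_prime_or_zero L p).resolve_right (by
    rintro rfl
    have := CharP.charP_to_charZero L
    exact not_finite L)⟩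
  haveI : NeZero r := ⟨hr.ne'⟩
  let L₂ := FiniteField.Extension L p r
  letI : Algebra k L₂ := ((algebraMap L L₂).comp (algebraMap k L)).toAlgebra
  haveI : IsScalarTower k L L₂ := IsScalarTower.of_algebraMap_eq (fun _ => rfl)
  haveI : Module.Finite k L := Module.Finite.of_finite
  haveI : Module.Finite k L₂ := Module.Finite.trans L L₂
  haveI : Finite L₂ := Module.finite_of_finite k
  have hrank : Module.finrank k L₂ = m * r := by
    rw [← Module.finrank_mul_finrank k L L₂, FiniteField.finrank_extension]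
  obtain ⟨w₂, a₂, ha₂⟩ := exists_pullA hX w (mapK (κ := κ) k L L₂)
  obtain ⟨c₂, hc₂, hc₂'⟩ := liftA hX (f := frK κ k L₂) a₂ (a₂ ≫ c) ha₂ (by
    rw [frK_mapK]
    exact ha₂.comp hc)
  have hitc : ∀ i : ℕ, it c₂ i ≫ a₂ = a₂ ≫ it c i := by
    intro i
    induction i with
    | zero => simp
    | succ i ih => rw [it_succ, Category.assoc, hc₂', ← Category.assoc, ih, it_succ, Category.assoc]
  have hcyc₂ := isCyclic_obj hc₂
  have hc₂n : it c₂ (Module.finrank k L₂) = 𝟙 w₂.o := by
    apply hom_eq hX a₂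
    · rw [map_it, hcyc₂.pow, CategoryTheory.Functor.map_id]
    · rw [hitc, hrank, hcr]; simp
  -- descend
  have hff := ff_field (algebraMap κ (κ ⊗[k] L₂))
  obtain ⟨i₀⟩ : Nonempty (pt κ ≅ SpecO κ κ) := by
    refine ⟨Over.isoMk (Iso.refl _) ?_⟩
    simp only [Iso.refl_hom, Over.mk_hom]
    exact (Category.id_comp _).trans (Spec.map_id _)
  have hS : ∀ (T : Sch κ) (a b : T ⟶ SpecO κ κ), a = b := pt_unique' i₀.symm
  let S₀ : Sieve (SpecO κ κ) :=
    { arrows := fun T _ => Nonempty (T ⟶ 𝒳.p.obj w₂.o)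
      downward_closed := by
        rintro T T' _ ⟨m⟩ g
        exact ⟨g ≫ m⟩ }
  have hS₀ : S₀ ∈ fpqc κ (SpecO κ κ) := by
    refine GrothendieckTopology.superset_covering _ ?_
      (cover_mem (Algebra.ofId κ (κ ⊗[k] L₂)) hff.1 hff.2 (Iso.refl _) w₂.i
        (w₂.i.hom ≫ SpecM (Algebra.ofId κ (κ ⊗[k] L₂))) (by simp))
    rintro T h ⟨Z, g, _, ⟨⟩, hg⟩
    exact ⟨g⟩
  obtain ⟨y, ey, θ, _⟩ := desc_obj hst.fibred hst.morphisms₀ c₂ hc₂n hcyc₂ hst.objects₀
    (S := SpecO κ κ) (w₂.i.hom ≫ SpecM (Algebra.ofId κ (κ ⊗[k] L₂))) hS S₀ hS₀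
    (fun T _ hT => hT) ⟨𝟙 _⟩
  refine ⟨L₂, inferInstance, inferInstance, inferInstance, inferInstance, inferInstance, w₂, a₂,
    ⟨y, ey⟩, θ, ha₂, ?_⟩
  exact hS _ _ _

end

end Pool.Agent.H920
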