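import Pool.Agent.H920.St.Rigid
import Pool.Agent.H920.St.Cover

/-!
# Descent of the isomorphism between the values of an object at two points
-/

set_option autoImplicit false
set_option linter.unusedSectionVars false

open CategoryTheory AlgebraicGeometry Opposite Pool.Agent.H666R3.NG

namespace Pool.Agent.H920

noncomputable section

variable {κ : Type} [Field κ] {𝒳 : OverSch κ}

variable {A₁ P₁ S₁ T₁ K E R K' L : Type} [CommRing A₁] [Algebra κ A₁] [CommRing P₁] [Algebra κ P₁]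
  [CommRing S₁] [Algebra κ S₁] [CommRing T₁] [Algebra κ T₁] [CommRing K] [Algebra κ K]
  [CommRing E] [Algebra κ E] [CommRing R] [Algebra κ R] [CommRing K'] [Algebra κ K']
  [CommRing L] [Algebra κ L]

/-- **Descent.** -/
theorem kstep (hst : IsStack (fpqc κ) 𝒳) (η : AOb 𝒳 A₁) (s : AOb 𝒳 S₁) (α : s.o ⟶ η.o)
    (fα : A₁ →ₐ[κ] S₁) (hα : Lies s η α fα) (w : AOb 𝒳 K) (β : s.o ⟶ w.o) (fβ : K →ₐ[κ] S₁)
    (hβ : Lies s w β fβ) (l : Bool → (S₁ →ₐ[κ] T₁)) (hlα : (l false).comp fα = (l true).comp fα)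
    (hrig : ∀ (z₁ : AOb 𝒳 T₁) (q : Bool → (z₁.o ⟶ s.o)), (∀ e, Lies z₁ s (q e) (l e)) →
        q false ≫ α = q true ≫ α → q false ≫ β = q true ≫ β)
    (w' : AOb 𝒳 K') (χ : w'.o ⟶ w.o) (h : K →ₐ[κ] K') (hχ : Lies w' w χ h)
    (v : K' →ₐ[κ] L) (hflat : v.toRingHom.Flat)
    (hsurj : Function.Surjective (PrimeSpectrum.comap v.toRingHom))
    (y : S₁ →ₐ[κ] L) (hy : y.comp fβ = v.comp h) (x' : A₁ →ₐ[κ] K') (hx' : y.comp fα = v.comp x')
    (hU : ∀ (Λ : Type) [CommRing Λ] [Algebra κ Λ] (m₁ m₂ : L →ₐ[κ] Λ), m₁.comp v = m₂.comp v →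
      ∃ n : T₁ →ₐ[κ] Λ, n.comp (l false) = m₁.comp y ∧ n.comp (l true) = m₂.comp y) :
    ∃ φ : w'.o ⟶ η.o, Lies w' η φ x' := by
  have hX := hst.fibred
  obtain ⟨s', τ, hτ⟩ := exists_pullA hX s y
  obtain ⟨ξ, hξ, hξχ⟩ := liftA hX (f := v) χ (τ ≫ β) hχ (by rw [← hy]; exact hτ.comp hβ)
  have hτα : Lies s' η (τ ≫ α) (v.comp x') := by rw [← hx']; exact hτ.comp hα
  -- the covering sieve
  let Rs : Sieve (𝒳.p.obj w'.o) := Sieve.generate (Presieve.singleton (𝒳.p.map ξ))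
  have hRs : Rs ∈ fpqc κ (𝒳.p.obj w'.o) := cover_mem v hflat hsurj w'.i s'.i _ hξ.map_eq
  -- independence
  have indep : ∀ (z : 𝒳.obj) (g g' : z ⟶ s'.o), g ≫ ξ = g' ≫ ξ → g ≫ τ ≫ α = g' ≫ τ ≫ α := by
    intro z g g' hgg
    obtain ⟨Λ, _, _, can, hcan⟩ := exists_gamma (𝒳.p.obj z)
    obtain ⟨m₁, hm₁, -⟩ := hcan L (𝒳.p.map g ≫ s'.i.hom)
    obtain ⟨m₂, hm₂, -⟩ := hcan L (𝒳.p.map g' ≫ s'.i.hom)
    have hmv : m₁.comp v = m₂.comp v := by
      have e1 : can ≫ SpecM (m₁.comp v) = can ≫ SpecM (m₂.comp v) := by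
        rw [← SpecM_comp, ← SpecM_comp, ← Category.assoc, ← Category.assoc, ← hm₁, ← hm₂]
        have hξ' : 𝒳.p.map ξ ≫ w'.i.hom = s'.i.hom ≫ SpecM v := hξ
        rw [Category.assoc, Category.assoc, ← hξ', ← Category.assoc, ← Category.assoc,
          ← Functor.map_comp, ← Functor.map_comp, hgg]
      exact (hcan K' (can ≫ SpecM (m₁.comp v))).unique rfl e1
    obtain ⟨n, hn0, hn1⟩ := hU Λ m₁ m₂ hmv
    -- the universal object
    obtain ⟨z₁, q0, hq0⟩ := exists_pullA hX s (l false)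
    obtain ⟨q1, hq1, hq1'⟩ := liftA hX (f := l true) α (q0 ≫ α) hα (by
      rw [← hlα]; exact hq0.comp hα)
    have hq := hrig z₁ (fun e => match e with
      | false => q0
      | true => q1) (by
        intro e
        cases e
        · exact hq0
        · exact hq1) hq1'.symm
    have hq' : q0 ≫ β = q1 ≫ β := hq
    -- the morphism to the universal object
    have hbase : ∀ (g : z ⟶ s'.o) (m : L →ₐ[κ] Λ) (_ : 𝒳.p.map g ≫ s'.i.hom = can ≫ SpecM m)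
        (le : S₁ →ₐ[κ] T₁) (_ : n.comp le = m.comp y),
        𝒳.p.map (g ≫ τ) ≫ s.i.hom = (can ≫ SpecM n) ≫ SpecM le := by
      intro g m hm le hle
      have hτ' : 𝒳.p.map τ ≫ s.i.hom = s'.i.hom ≫ SpecM y := hτ
      rw [Functor.map_comp, Category.assoc, hτ', ← Category.assoc, hm, Category.assoc, Category.assoc,
        SpecM_comp, SpecM_comp, hle]
    obtain ⟨κz, ⟨hκ1, hκ2⟩, -⟩ := lift_unique hX q0 (g ≫ τ) ((can ≫ SpecM n) ≫ z₁.i.inv) (by
      rw [hq0.map_eq, ← cancel_mono s.i.hom]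
      rw [hbase g m₁ hm₁ _ hn0]
      simp)
    have hκ3 : κz ≫ q1 = g' ≫ τ := by
      apply hom_eq hX β
      · rw [← cancel_mono s.i.hom, hbase g' m₂ hm₂ _ hn1, Functor.map_comp, hκ1, hq1.map_eq]
        simp
      · calc (κz ≫ q1) ≫ β = κz ≫ q0 ≫ β := by rw [hq', Category.assoc]
          _ = (g ≫ τ) ≫ β := by rw [← Category.assoc, hκ2]
          _ = (g ≫ ξ) ≫ χ := by rw [Category.assoc, Category.assoc, hξχ]
          _ = (g' ≫ τ) ≫ β := by rw [hgg, Category.assoc, Category.assoc, hξχ]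
    calc g ≫ τ ≫ α = (κz ≫ q0) ≫ α := by rw [hκ2, Category.assoc]
      _ = (κz ≫ q1) ≫ α := by rw [Category.assoc, Category.assoc, hq1']
      _ = g' ≫ τ ≫ α := by rw [hκ3, Category.assoc]
  -- the descent datum
  have key : ∀ (z : 𝒳.obj) (a : z ⟶ w'.o), Rs (𝒳.p.map a) → ∃ g : z ⟶ s'.o, g ≫ ξ = a := by
    rintro z a ⟨_, g0, _, ⟨⟩, hg0⟩
    obtain ⟨g, ⟨_, hg⟩, _⟩ := lift_unique hX ξ a g0 hg0
    exact ⟨g, hg⟩
  choose g hg using key
  have hw : 𝒳.p.map ξ ≫ (w'.i.hom ≫ SpecM x' ≫ η.i.inv) = 𝒳.p.map (τ ≫ α) := by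
    rw [hτα.map_eq, hξ.map_eq, ← SpecM_comp]
    simp
  obtain ⟨ψ, ⟨hψ1, _⟩, _⟩ := hst.morphisms₀ w'.o η.o (w'.i.hom ≫ SpecM x' ≫ η.i.inv) Rs hRs
    (fun z a h => g z a h ≫ τ ≫ α) (by
      intro z a h
      have := congrArg 𝒳.p.map (hg z a h)
      rw [Functor.map_comp] at this
      rw [Functor.map_comp, ← hw, ← Category.assoc, this]) (by
      intro z z' e a h h'
      have := indep z' (g z' (e ≫ a) h') (e ≫ g z a h) (by rw [hg, Category.assoc, hg])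
      rw [this, Category.assoc])
  exact ⟨ψ, Lies.of_map_eq hψ1⟩

end

end Pool.Agent.H920
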