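import Pool.Agent.H920.St.Build
import Pool.Agent.H920.Alg.Stab

/-!
# The rings of the products with an atlas
-/

set_option autoImplicit false
set_option linter.unusedSectionVars false

open CategoryTheory AlgebraicGeometry Opposite Pool.Agent.H666R3.NG TensorProduct

namespace Pool.Agent.H920

noncomputable section

lemma nzd_of_flat {A P : Type} [CommRing A] [IsDomain A] [CommRing P] (fa : A →+* P)
    (hflat : fa.Flat) (a : A) (ha : a ≠ 0) (c : P) (h : fa a * c = 0) : c = 0 := by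
  letI := fa.toAlgebra
  haveI : Module.Flat A P := hflat
  have h1 : IsSMulRegular P a :=
    Module.Flat.isSMulRegular_of_nonZeroDivisors (mem_nonZeroDivisors_of_ne_zero ha)
  apply h1
  change a • c = a • 0
  rw [smul_zero, Algebra.smul_def]
  exact h

variable {κ : Type} [Field κ] {𝒳 : OverSch κ}

section bc

variable {A B P P' : Type} [CommRing A] [Algebra κ A] [CommRing B] [Algebra κ B]
  [CommRing P] [Algebra κ P] [CommRing P'] [Algebra κ P']

/-- base change of the product with the atlas -/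
theorem bc_equiv [Algebra A B] [Algebra A P] (hX : IsFibredInGroupoids 𝒳) {u : 𝒳.obj} {y : AOb 𝒳 A} {y' : AOb 𝒳 B}
    {φ : y'.o ⟶ y.o} {f : A →ₐ[κ] B}
    (hφ : Lies y' y φ f) {p : AOb 𝒳 P} {a : p.o ⟶ y.o} {b : p.o ⟶ u} {fa : A →ₐ[κ] P}
    (hp : IsProd a b) (ha : Lies p y a fa)
    {p' : AOb 𝒳 P'} {a' : p'.o ⟶ y'.o} {b' : p'.o ⟶ u} {fa' : B →ₐ[κ] P'}
    (hp' : IsProd a' b') (ha' : Lies p' y' a' fa')
    {γ : p'.o ⟶ p.o} {g : P →ₐ[κ] P'} (hγ : Lies p' p γ g) (hγa : γ ≫ a = a' ≫ φ)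
    (hγb : γ ≫ b = b') (h1 : algebraMap A B = f.toRingHom) (h2 : algebraMap A P = fa.toRingHom) :
    ∃ e : P' ≃+* B ⊗[A] P, (∀ b, e (fa' b) = b ⊗ₜ 1) ∧ ∀ x, e (g x) = 1 ⊗ₜ x := by
  haveI : IsScalarTower κ A B := IsScalarTower.of_algebraMap_eq fun r => by
    rw [h1]; exact (f.commutes r).symm
  haveI : IsScalarTower κ A P := IsScalarTower.of_algebraMap_eq fun r => by
    rw [h2]; exact (fa.commutes r).symm
  have e1 : IsScalarTower.toAlgHom κ A B = f := by
    ext r
    exact congrArg (fun F : A →+* B => F r) h1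
  have e2 : IsScalarTower.toAlgHom κ A P = fa := by
    ext r
    exact congrArg (fun F : A →+* P => F r) h2
  have hc : fa'.comp f = g.comp fa := by
    have h1 := hγ.comp ha
    rw [hγa] at h1
    exact (ha'.comp hφ).unique h1
  obtain ⟨e, he1, he2⟩ := equiv_of_univ (κ := κ) (A := A) fa' g (by rw [e1, e2]; exact hc) (by
    intro S _ _ h₁ h₂ h
    rw [e1, e2] at h
    exact bc_univ hX hφ hp ha hp' ha' hγ hγa hγb S h₁ h₂ h)
  exact ⟨e, he1, he2⟩

/-- localisation of the ring of the product -/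
theorem loc_of_bc (hX : IsFibredInGroupoids 𝒳) {u : 𝒳.obj} {y : AOb 𝒳 A} {y' : AOb 𝒳 B}
    {φ : y'.o ⟶ y.o} {f : A →ₐ[κ] B}
    (hφ : Lies y' y φ f) {p : AOb 𝒳 P} {a : p.o ⟶ y.o} {b : p.o ⟶ u} {fa : A →ₐ[κ] P}
    (hp : IsProd a b) (ha : Lies p y a fa)
    {p' : AOb 𝒳 P'} {a' : p'.o ⟶ y'.o} {b' : p'.o ⟶ u} {fa' : B →ₐ[κ] P'}
    (hp' : IsProd a' b') (ha' : Lies p' y' a' fa')
    {γ : p'.o ⟶ p.o} {g : P →ₐ[κ] P'} (hγ : Lies p' p γ g) (hγa : γ ≫ a = a' ≫ φ)
    (hγb : γ ≫ b = b') (z : A)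
    (hloc : ∀ c : B, ∃ (m : ℕ) (s : A), f z ^ m * c = f s) (d : P') :
    ∃ (m : ℕ) (s : P), fa' (f z) ^ m * d = g s := by
  have hc : fa'.comp f = g.comp fa := by
    have h1 := hγ.comp ha
    rw [hγa] at h1
    exact (ha'.comp hφ).unique h1
  have hc' : ∀ s, fa' (f s) = g (fa s) := fun s => congrArg (fun F : A →ₐ[κ] P' => F s) hc
  letI i1 : Algebra A B := f.toRingHom.toAlgebra
  letI i2 : Algebra A P := fa.toRingHom.toAlgebra
  obtain ⟨e, he1, he2⟩ := bc_equiv hX hφ hp ha hp' ha' hγ hγa hγb rfl rfl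
  obtain ⟨w, rfl⟩ := e.symm.surjective d
  induction w using TensorProduct.induction_on with
  | zero => exact ⟨0, 0, by rw [map_zero, mul_zero, map_zero]⟩
  | tmul c x =>
    obtain ⟨m, s, hs⟩ := hloc c
    refine ⟨m, fa s * x, ?_⟩
    have e1 : e.symm (c ⊗ₜ x) = fa' c * g x := by
      apply e.injective
      rw [e.apply_symm_apply, map_mul, he1, he2, Algebra.TensorProduct.tmul_mul_tmul, mul_one,
        one_mul]
    rw [e1, ← mul_assoc, ← map_pow, ← map_mul, hs, hc', map_mul]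
  | add x y hx hy =>
    obtain ⟨m₁, s₁, h₁⟩ := hx
    obtain ⟨m₂, s₂, h₂⟩ := hy
    refine ⟨m₁ + m₂, fa z ^ m₂ * s₁ + fa z ^ m₁ * s₂, ?_⟩
    rw [map_add, map_add, map_mul, map_mul, map_pow, map_pow, ← hc', ← h₁, ← h₂, pow_add]
    ring

end bc

section stab

variable {O : Type} [CommRing O] [Algebra κ O] [Module.Finite κ O] {p : ℕ} [Fact p.Prime] [CharP κ p]

/-- stabilisation -/
theorem exists_n₀ (hX : IsFibredInGroupoids 𝒳) (u : AOb 𝒳 O) (hu : IsFiniteAtlas 𝒳 u.o) :
    ∃ n₀ : ℕ, ∀ {A P : Type} [CommRing A] [Algebra κ A] [CommRing P] [Algebra κ P] [Nontrivial P]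
      (y : AOb 𝒳 A) (q : AOb 𝒳 P) (a : q.o ⟶ y.o) (b : q.o ⟶ u.o) (fa : A →ₐ[κ] P),
      IsProd a b → Lies q y a fa → fa.toRingHom.Flat →
      Function.Surjective (PrimeSpectrum.comap fa.toRingHom) → ∀ n, n₀ ≤ n → ∀ c : P,
        c ^ p ^ n₀ ∈ Submodule.span κ {x | ∃ a d, x = fa a * d ^ p ^ n} := by
  -- the product of the atlas with itself
  obtain ⟨R', _, _, rr, r1, r2, fr1, hR, hr1, hfin, -, -⟩ := exists_prodA hu u
  letI iOR : Algebra O R' := fr1.toRingHom.toAlgebra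
  haveI : IsScalarTower κ O R' := IsScalarTower.of_algebraMap_eq fun r => (fr1.commutes r).symm
  haveI hfin' : Module.Finite O R' := hfin
  haveI : Module.Finite κ R' := Module.Finite.trans O R'
  obtain ⟨n₀, hn₀⟩ := exists_stab (p := p) κ O R'
  refine ⟨n₀, ?_⟩
  intro A P _ _ _ _ _ y q a b fa hq ha hflat hsurj n hn c
  obtain ⟨fb, hfb⟩ := exists_lies q u b
  obtain ⟨W', _, _, W, w1, w2, fw, hW, hw1, -, -, -⟩ := exists_prodA hu q
  -- the first description
  obtain ⟨γ₁, g₁, hγ₁, hγ₁a, hγ₁b⟩ := exists_comp hX (y := y) (y' := q) a hq w1 w2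
  letI iAP : Algebra A P := fa.toRingHom.toAlgebra
  obtain ⟨e, he1, he2⟩ := bc_equiv hX ha hq ha hW hw1 hγ₁ hγ₁a hγ₁b rfl rfl
  -- the second description
  obtain ⟨γ₂, g₂, hγ₂, hγ₂a, hγ₂b⟩ := exists_comp hX (y := u) (y' := q) b hR w1 w2
  letI iOP : Algebra O P := fb.toRingHom.toAlgebra
  obtain ⟨e', he1', he2'⟩ := bc_equiv hX hfb hR hr1 hW hw1 hγ₂ hγ₂a hγ₂b rfl rfl
  haveI hfl : Module.Flat A P := hflat
  haveI : Module.FaithfullyFlat A P := Module.FaithfullyFlat.of_comap_surjective hsurj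
  haveI hnt : Nontrivial (P ⊗[A] P) :=
    (Algebra.TensorProduct.lmul' A : P ⊗[A] P →ₐ[A] P).toRingHom.domain_nontrivial
  have hch : CharP (P ⊗[A] P) p := by
    let F : κ →+* P ⊗[A] P := (Algebra.TensorProduct.includeLeftRingHom).comp (algebraMap κ P)
    exact charP_of_injective_ringHom F.injective p
  have hc₂ : fw.comp fb = g₂.comp fr1 := by
    have h3 := hγ₂.comp hr1
    rw [hγ₂a] at h3
    exact (hw1.comp hfb).unique h3
  have hpow := stab_of_iso (A := A) (S := P) (P := P) (O := O) (R' := R') hch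
    ((e : W' →+* P ⊗[A] P).comp g₂.toRingHom) fb.toRingHom (by
      intro o
      change e (g₂ (fr1 o)) = (fb o) ⊗ₜ 1
      rw [← he1]
      congr 1
      exact (congrArg (fun F : O →ₐ[κ] W' => F o) hc₂).symm) (by
      intro w
      obtain ⟨w, rfl⟩ := e.surjective w
      obtain ⟨w, rfl⟩ := e'.symm.surjective w
      induction w using TensorProduct.induction_on with
      | zero => rw [map_zero, map_zero]; exact Submodule.zero_mem _
      | add x y hx hy => rw [map_add, map_add]; exact Submodule.add_mem _ hx hy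
      | tmul s x =>
        have e1 : e'.symm (s ⊗ₜ x) = fw s * g₂ x := by
          apply e'.injective
          rw [e'.apply_symm_apply, map_mul, he1', he2', Algebra.TensorProduct.tmul_mul_tmul,
            mul_one, one_mul]
        rw [e1, map_mul, he1]
        have e2 : (s ⊗ₜ[A] (1 : P)) * e (g₂ x) = s • e (g₂ x) := by
          rw [Algebra.smul_def]; rfl
        rw [e2]
        exact Submodule.smul_mem _ _ (Submodule.subset_span ⟨x, rfl⟩)) n₀ n (hn₀ n hn) c
  have hle : ∀ x ∈ powSpan p A P n, x ∈ Submodule.span κ {x | ∃ a d, x = fa a * d ^ p ^ n} := by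
    intro x hx
    have key : ∀ (s : A), s • x ∈ Submodule.span κ {x | ∃ a d, x = fa a * d ^ p ^ n} := by
      induction hx using Submodule.span_induction with
      | mem x hx =>
        obtain ⟨f, rfl⟩ := hx
        intro s
        refine Submodule.subset_span ⟨s, f, ?_⟩
        rw [Algebra.smul_def]
        rfl
      | zero => intro s; rw [smul_zero]; exact Submodule.zero_mem _
      | add x y _ _ hx hy => intro s; rw [smul_add]; exact Submodule.add_mem _ (hx s) (hy s)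
      | smul r x _ hx => intro s; rw [smul_smul]; exact hx _
    have := key 1
    rwa [one_smul] at this
  exact hle _ hpow

end stab

end

end Pool.Agent.H920
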