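import Pool.Agent.H920.St.AOb

/-!
# Products with an atlas and base change
-/

set_option autoImplicit false
set_option linter.unusedSectionVars false

open CategoryTheory AlgebraicGeometry Opposite Pool.Agent.H666R3.NG TensorProduct

namespace Pool.Agent.H920

noncomputable section

variable {κ : Type} [Field κ] {𝒳 : OverSch κ}

/-- `a`, `b` are the projections of a product -/
abbrev IsProd {P x y : 𝒳.obj} (a : P ⟶ x) (b : P ⟶ y) : Prop :=
  Nonempty (Limits.IsLimit (Limits.BinaryFan.mk a b))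

lemma IsProd.ext {P x y z : 𝒳.obj} {a : P ⟶ x} {b : P ⟶ y} (h : IsProd a b) {f g : z ⟶ P}
    (h1 : f ≫ a = g ≫ a) (h2 : f ≫ b = g ≫ b) : f = g := by
  obtain ⟨h⟩ := h
  apply h.hom_ext
  rintro ⟨⟨⟩⟩
  · exact h1
  · exact h2

lemma IsProd.lift {P x y z : 𝒳.obj} {a : P ⟶ x} {b : P ⟶ y} (h : IsProd a b) (f : z ⟶ x)
    (g : z ⟶ y) : ∃ l : z ⟶ P, l ≫ a = f ∧ l ≫ b = g := by
  obtain ⟨h⟩ := h
  exact ⟨h.lift (Limits.BinaryFan.mk f g), h.fac _ ⟨Limits.WalkingPair.left⟩,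
    h.fac _ ⟨Limits.WalkingPair.right⟩⟩

/-- an affine scheme over `κ` is the spectrum of an algebra -/
theorem exists_affine_alg (Q : Sch κ) (hQ' : IsAffine Q.left) :
    ∃ (A : Type) (_ : CommRing A) (_ : Algebra κ A), Nonempty (Q ≅ SpecO κ A) := by
  let φ : κ →+* Γ(Q.left, ⊤) := toRing Q.hom
  letI : Algebra κ Γ(Q.left, ⊤) := φ.toAlgebra
  have hw : Q.left.isoSpec.hom ≫ Spec.map (CommRingCat.ofHom (algebraMap κ Γ(Q.left, ⊤))) = Q.hom := by
    have h1 : Spec.map (CommRingCat.ofHom (algebraMap κ Γ(Q.left, ⊤))) =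
        Spec.map Q.hom.appTop ≫ Spec.map (Scheme.ΓSpecIso (CommRingCat.of κ)).inv := by
      rw [← Spec.map_comp]
      rfl
    rw [h1, ← Category.assoc, Scheme.isoSpec_hom_naturality, Category.assoc]
    have h2 : (Spec (CommRingCat.of κ)).isoSpec.hom = Spec.map (Scheme.ΓSpecIso (CommRingCat.of κ)).hom :=
      Scheme.isoSpec_Spec_hom _
    rw [h2, ← Spec.map_comp]
    simp
  exact ⟨Γ(Q.left, ⊤), inferInstance, inferInstance, ⟨Over.isoMk Q.left.isoSpec hw⟩⟩

section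

variable {A B : Type} [CommRing A] [Algebra κ A] [CommRing B] [Algebra κ B]

/-- the product of an object over an affine scheme with an atlas -/
theorem exists_prodA {u : 𝒳.obj} (hu : IsFiniteAtlas 𝒳 u) (y : AOb 𝒳 A) :
    ∃ (P' : Type) (_ : CommRing P') (_ : Algebra κ P') (P : AOb 𝒳 P') (a : P.o ⟶ y.o)
      (b : P.o ⟶ u) (fa : A →ₐ[κ] P'), IsProd a b ∧ Lies P y a fa ∧ fa.toRingHom.Finite ∧
        fa.toRingHom.Flat ∧ Function.Surjective (PrimeSpectrum.comap fa.toRingHom) := by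
  obtain ⟨P, a, b, hP, hc⟩ := hu y.o
  have hyaff : IsAffine (𝒳.p.obj y.o).left := by
    have e : (𝒳.p.obj y.o).left ≅ Spec (CommRingCat.of A) :=
      (Over.forget _).mapIso y.i
    exact IsAffine.of_isIso e.hom
  have hfin := hc.finite
  have hPaff : IsAffine (𝒳.p.obj P).left := isAffine_of_isAffineHom (𝒳.p.map a).left
  obtain ⟨P', _, _, ⟨e⟩⟩ := exists_affine_alg (𝒳.p.obj P) hPaff
  obtain ⟨fa, hfa⟩ := exists_lies (⟨P, e⟩ : AOb 𝒳 P') y a
  have key : (SpecM fa).left = e.inv.left ≫ (𝒳.p.map a).left ≫ y.i.hom.left := by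
    have h1 : SpecM fa = e.inv ≫ 𝒳.p.map a ≫ y.i.hom := by
      have h2 : 𝒳.p.map a ≫ y.i.hom = e.hom ≫ SpecM fa := hfa
      rw [h2]; simp
    rw [h1]; rfl
  have key' : Spec.map (CommRingCat.ofHom fa.toRingHom) =
      e.inv.left ≫ (𝒳.p.map a).left ≫ y.i.hom.left := key
  refine ⟨P', inferInstance, inferInstance, ⟨P, e⟩, a, b, fa, hP, hfa, ?_, ?_, ?_⟩
  · have : IsFinite (Spec.map (CommRingCat.ofHom fa.toRingHom)) := by
      rw [key']
      infer_instance
    rw [IsFinite.SpecMap_iff] at this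
    exact this
  · have hfl := hc.flat
    have : Flat (Spec.map (CommRingCat.ofHom fa.toRingHom)) := by
      rw [key']
      infer_instance
    rw [Flat.SpecMap_iff] at this
    exact this
  · have hs := hc.surjective
    have : Surjective (Spec.map (CommRingCat.ofHom fa.toRingHom)) := by
      rw [key']
      infer_instance
    exact this.surj

variable (hX : IsFibredInGroupoids 𝒳)

variable {P P' : Type} [CommRing P] [Algebra κ P] [CommRing P'] [Algebra κ P']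

include hX

/-- the universal property of the base change -/
theorem bc_univ {u : 𝒳.obj} {y : AOb 𝒳 A} {y' : AOb 𝒳 B} {φ : y'.o ⟶ y.o} {f : A →ₐ[κ] B}
    (hφ : Lies y' y φ f) {p : AOb 𝒳 P} {a : p.o ⟶ y.o} {b : p.o ⟶ u} {fa : A →ₐ[κ] P}
    (hp : IsProd a b) (ha : Lies p y a fa)
    {p' : AOb 𝒳 P'} {a' : p'.o ⟶ y'.o} {b' : p'.o ⟶ u} {fa' : B →ₐ[κ] P'}
    (hp' : IsProd a' b') (ha' : Lies p' y' a' fa')
    {γ : p'.o ⟶ p.o} {g : P →ₐ[κ] P'} (hγ : Lies p' p γ g) (hγa : γ ≫ a = a' ≫ φ)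
    (hγb : γ ≫ b = b')
    (S : Type) [CommRing S] [Algebra κ S] (h₁ : B →ₐ[κ] S) (h₂ : P →ₐ[κ] S)
    (h : h₁.comp f = h₂.comp fa) :
    ∃! t : P' →ₐ[κ] S, t.comp fa' = h₁ ∧ t.comp g = h₂ := by
  obtain ⟨z, ζ, hζ⟩ := exists_pullA hX y' h₁
  obtain ⟨χ, hχ, hχ'⟩ := liftA hX (f := h₂) a (ζ ≫ φ) ha (h ▸ hζ.comp hφ)
  obtain ⟨l, hl, hl'⟩ := hp'.lift ζ (χ ≫ b)
  obtain ⟨t, ht⟩ := exists_lies z p' l
  refine ⟨t, ⟨?_, ?_⟩, ?_⟩
  · have h3 := ht.comp ha'
    rw [hl] at h3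
    exact h3.unique hζ
  · have h3 : l ≫ γ = χ := by
      apply hp.ext
      · rw [Category.assoc, hγa, ← Category.assoc, hl, hχ']
      · rw [Category.assoc, hγb, hl']
    have h4 := ht.comp hγ
    rw [h3] at h4
    exact h4.unique hχ
  · rintro t' ⟨h3, h4⟩
    have h5 : t.comp fa' = h₁ := by
      have h3 := ht.comp ha'
      rw [hl] at h3
      exact h3.unique hζ
    obtain ⟨l', hl1, hl2⟩ := liftA hX (f := t') a' (l ≫ a') ha' (by
      rw [h3, ← h5]; exact ht.comp ha')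
    have h6 : l' ≫ γ = l ≫ γ := by
      apply homA_eq hX a (f := h₂)
      · rw [← h4]; exact hl1.comp hγ
      · have h7 : l ≫ γ = χ := by
          apply hp.ext
          · rw [Category.assoc, hγa, ← Category.assoc, hl, hχ']
          · rw [Category.assoc, hγb, hl']
        rw [h7]
        exact hχ
      · rw [Category.assoc, hγa, ← Category.assoc, hl2, Category.assoc, Category.assoc, hγa]
    have h7 : l' = l := by
      apply hp'.ext hl2
      rw [← hγb, ← Category.assoc, h6, Category.assoc]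
    rw [h7] at hl1
    exact hl1.unique ht

/-- the comparison morphism -/
theorem exists_comp {u : 𝒳.obj} {y : AOb 𝒳 A} {y' : AOb 𝒳 B} (φ : y'.o ⟶ y.o)
    {p : AOb 𝒳 P} {a : p.o ⟶ y.o} {b : p.o ⟶ u} (hp : IsProd a b)
    {p' : AOb 𝒳 P'} (a' : p'.o ⟶ y'.o) (b' : p'.o ⟶ u) :
    ∃ (γ : p'.o ⟶ p.o) (g : P →ₐ[κ] P'), Lies p' p γ g ∧ γ ≫ a = a' ≫ φ ∧ γ ≫ b = b' := by
  obtain ⟨γ, h1, h2⟩ := hp.lift (a' ≫ φ) b'
  obtain ⟨g, hg⟩ := exists_lies p' p γ
  exact ⟨γ, g, hg, h1, h2⟩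

end

section alg

variable {A B P P' : Type} [CommRing A] [Algebra κ A] [CommRing B] [Algebra κ B]
  [CommRing P] [Algebra κ P] [CommRing P'] [Algebra κ P'] [Algebra A B] [IsScalarTower κ A B]
  [Algebra A P] [IsScalarTower κ A P]

/-- the universal property gives an isomorphism with the tensor product -/
theorem equiv_of_univ (fa' : B →ₐ[κ] P') (g : P →ₐ[κ] P')
    (hc : fa'.comp (IsScalarTower.toAlgHom κ A B) = g.comp (IsScalarTower.toAlgHom κ A P))
    (huniv : ∀ (S : Type) [CommRing S] [Algebra κ S] (h₁ : B →ₐ[κ] S) (h₂ : P →ₐ[κ] S),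
      h₁.comp (IsScalarTower.toAlgHom κ A B) = h₂.comp (IsScalarTower.toAlgHom κ A P) →
      ∃! t : P' →ₐ[κ] S, t.comp fa' = h₁ ∧ t.comp g = h₂) :
    ∃ e : P' ≃+* B ⊗[A] P, (∀ b, e (fa' b) = b ⊗ₜ 1) ∧ ∀ x, e (g x) = 1 ⊗ₜ x := by
  let j1 : B →ₐ[κ] B ⊗[A] P := Algebra.TensorProduct.includeLeft
  let j2 : P →ₐ[κ] B ⊗[A] P :=
    { (Algebra.TensorProduct.includeRight : P →ₐ[A] B ⊗[A] P).toRingHom with
      commutes' := by
        intro r
        change (1 : B) ⊗ₜ[A] (algebraMap κ P r) = algebraMap κ (B ⊗[A] P) r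
        rw [IsScalarTower.algebraMap_apply κ A P, Algebra.TensorProduct.algebraMap_apply,
          IsScalarTower.algebraMap_apply κ A B, ← mul_one (algebraMap A P _), ← Algebra.smul_def,
          ← TensorProduct.smul_tmul, Algebra.smul_def, mul_one] }
  obtain ⟨t, ⟨ht1, ht2⟩, -⟩ := huniv (B ⊗[A] P) j1 j2 (by
    ext r
    change (algebraMap A B r) ⊗ₜ[A] (1 : P) = (1 : B) ⊗ₜ[A] (algebraMap A P r)
    rw [← mul_one (algebraMap A P _), ← Algebra.smul_def,
          ← TensorProduct.smul_tmul, Algebra.smul_def, mul_one])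
  letI : Algebra A P' := (fa'.toRingHom.comp (algebraMap A B)).toAlgebra
  let q1 : B →ₐ[A] P' := { fa'.toRingHom with commutes' := fun r => rfl }
  let q2 : P →ₐ[A] P' := { g.toRingHom with
    commutes' := fun r => (congrArg (fun F : A →ₐ[κ] P' => F r) hc).symm }
  let s : B ⊗[A] P →ₐ[A] P' := Algebra.TensorProduct.lift q1 q2 (fun _ _ => Commute.all _ _)
  have hs1 : ∀ b, s (b ⊗ₜ 1) = fa' b := by
    intro b
    change Algebra.TensorProduct.lift q1 q2 _ (b ⊗ₜ 1) = _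
    rw [Algebra.TensorProduct.lift_tmul, map_one, mul_one]
    rfl
  have hs2 : ∀ x, s (1 ⊗ₜ x) = g x := by
    intro b
    change Algebra.TensorProduct.lift q1 q2 _ (1 ⊗ₜ b) = _
    rw [Algebra.TensorProduct.lift_tmul, map_one, one_mul]
    rfl
  have ht1' : ∀ b, t (fa' b) = b ⊗ₜ 1 := fun b => congrArg (fun F : B →ₐ[κ] B ⊗[A] P => F b) ht1
  have ht2' : ∀ x, t (g x) = 1 ⊗ₜ x := fun b => congrArg (fun F : P →ₐ[κ] B ⊗[A] P => F b) ht2
  let s' : B ⊗[A] P →ₐ[κ] P' :=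
    { s.toRingHom with
      commutes' := by
        intro r
        change s (algebraMap κ (B ⊗[A] P) r) = _
        rw [Algebra.TensorProduct.algebraMap_apply, hs1, AlgHom.commutes] }
  have hts : ∀ w, t (s w) = w := by
    intro w
    induction w using TensorProduct.induction_on with
    | zero => rw [map_zero, map_zero]
    | tmul b x =>
      have : b ⊗ₜ[A] x = (b ⊗ₜ[A] (1 : P)) * ((1 : B) ⊗ₜ[A] x) := by
        rw [Algebra.TensorProduct.tmul_mul_tmul, mul_one, one_mul]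
      rw [this, map_mul, map_mul, hs1, hs2, ht1', ht2']
    | add x y hx hy => rw [map_add, map_add, hx, hy]
  have hst : ∀ w, s (t w) = w := by
    intro w
    obtain ⟨v, _, hv⟩ := huniv P' fa' g hc
    have e1 := hv (s'.comp t) ⟨by
      ext b
      change s (t (fa' b)) = _
      rw [ht1', hs1], by
      ext b
      change s (t (g b)) = _
      rw [ht2', hs2]⟩
    have e2 := hv (AlgHom.id κ P') ⟨by ext; rfl, by ext; rfl⟩
    have e3 : (s'.comp t) w = (AlgHom.id κ P') w := by rw [e1, e2]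
    exact e3
  exact ⟨RingEquiv.ofRingHom t.toRingHom s.toRingHom (RingHom.ext hts) (RingHom.ext hst),
    ht1', ht2'⟩

end alg

end

end Pool.Agent.H920
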