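import Pool.Agent.H920.St.Prod
import Pool.Agent.H920.Alg.Ix

/-!
# Rigidity
-/

set_option autoImplicit false
set_option linter.unusedSectionVars false

open CategoryTheory AlgebraicGeometry Opposite Pool.Agent.H666R3.NG

namespace Pool.Agent.H920

noncomputable section

variable {κ : Type} [Field κ] {𝒳 : OverSch κ} (hX : IsFibredInGroupoids 𝒳)

/-- The rings and homomorphisms which occur in the rigidity argument: `A` the rings of the charts,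
`P` the rings of the products with the atlas, `S` and `T` the rings of the covering charts over `E`
and `R`. The index `0` stands for the intersection of the two charts. -/
structure RData (κ : Type) [Field κ] (A : Ix → Type) [∀ i, CommRing (A i)] [∀ i, Algebra κ (A i)]
    (P : Ix → Type) [∀ i, CommRing (P i)] [∀ i, Algebra κ (P i)]
    (S : Ix → Type) [∀ i, CommRing (S i)] [∀ i, Algebra κ (S i)]
    (T : Ix → Type) [∀ i, CommRing (T i)] [∀ i, Algebra κ (T i)]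
    (K E R O : Type) [CommRing K] [Algebra κ K] [CommRing E] [Algebra κ E] [CommRing R]
    [Algebra κ R] [CommRing O] [Algebra κ O] where
  fa : ∀ i, A i →ₐ[κ] P i
  fb : ∀ i, O →ₐ[κ] P i
  g : ∀ i, P i →ₐ[κ] P .o
  ψ : ∀ i, P i →ₐ[κ] S i
  r : ∀ i, S i →ₐ[κ] S .o
  c : ∀ i, E →ₐ[κ] S i
  t : O →ₐ[κ] E
  y0 : S .o →ₐ[κ] E
  ι : K →ₐ[κ] E
  x : A .o →ₐ[κ] K
  j : Bool → (E →ₐ[κ] R)
  d : ∀ i, R →ₐ[κ] T i
  l : ∀ i, Bool → (S i →ₐ[κ] T i)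
  ρ : ∀ i, T i →ₐ[κ] T .o
  yT : T .o →ₐ[κ] R
  hrψ : ∀ i, (r i).comp (ψ i) = (ψ .o).comp (g i)
  hrc : ∀ i, (r i).comp (c i) = c .o
  hψb : ∀ i, (ψ i).comp (fb i) = (c i).comp t
  hy0 : y0.comp (c .o) = AlgHom.id κ E
  hx : y0.comp ((ψ .o).comp (fa .o)) = ι.comp x
  hj : (j false).comp ι = (j true).comp ι
  hlc : ∀ i a, (l i a).comp (c i) = (d i).comp (j a)
  hρl : ∀ i a, (ρ i).comp (l i a) = (l .o a).comp (r i)
  hρd : ∀ i, (ρ i).comp (d i) = d .o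
  hyd : yT.comp (d .o) = AlgHom.id κ R
  hyl : ∀ a, yT.comp (l .o a) = (j a).comp y0
  hA : ∀ i, (l i false).comp ((ψ i).comp (fa i)) = (l i true).comp ((ψ i).comp (fa i))
  glue : ∀ (t₁ : T .l) (t₂ : T .r), ρ .l t₁ = ρ .r t₂ → ∃ r, t₁ = d .l r

variable {A : Ix → Type} [∀ i, CommRing (A i)] [∀ i, Algebra κ (A i)]
    {P : Ix → Type} [∀ i, CommRing (P i)] [∀ i, Algebra κ (P i)]
    {S : Ix → Type} [∀ i, CommRing (S i)] [∀ i, Algebra κ (S i)]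
    {T : Ix → Type} [∀ i, CommRing (T i)] [∀ i, Algebra κ (T i)]
    {K E R O : Type} [CommRing K] [Algebra κ K] [CommRing E] [Algebra κ E] [CommRing R]
    [Algebra κ R] [CommRing O] [Algebra κ O] (D : RData κ A P S T K E R O)

include hX

/-- **Rigidity.** -/
theorem rigid (u : AOb 𝒳 O) (hu : IsFiniteAtlas 𝒳 u.o) (η : ∀ i, AOb 𝒳 (A i))
    (α : ∀ i, (η .o).o ⟶ (η i).o)
    (p : ∀ i, AOb 𝒳 (P i)) (a : ∀ i, (p i).o ⟶ (η i).o) (ha : ∀ i, Lies (p i) (η i) (a i) (D.fa i))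
    (b : ∀ i, (p i).o ⟶ u.o) (hb : ∀ i, Lies (p i) u (b i) (D.fb i))
    (γ : ∀ i, (p .o).o ⟶ (p i).o) (hγ : ∀ i, Lies (p .o) (p i) (γ i) (D.g i))
    (hγa : ∀ i, γ i ≫ a i = a .o ≫ α i) (hγb : ∀ i, γ i ≫ b i = b .o)
    (w : AOb 𝒳 K) (ω : w.o ⟶ (η .o).o) (hω : Lies w (η .o) ω D.x)
    (s₁ : AOb 𝒳 (S .l)) (σ₁ : s₁.o ⟶ (p .l).o) (hσ₁ : Lies s₁ (p .l) σ₁ (D.ψ .l)) :
    ∃ β : s₁.o ⟶ w.o, Lies s₁ w β ((D.c .l).comp D.ι) ∧
      ∀ (z₁ : AOb 𝒳 (T .l)) (q : Bool → (z₁.o ⟶ s₁.o)), (∀ e, Lies z₁ s₁ (q e) (D.l .l e)) →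
        q false ≫ σ₁ ≫ a .l = q true ≫ σ₁ ≫ a .l → q false ≫ β = q true ≫ β := by
  -- the objects over the covering charts
  obtain ⟨s₂, σ₂, hσ₂⟩ := exists_pullA hX (p .r) (D.ψ .r)
  obtain ⟨s₀, σ₀, hσ₀⟩ := exists_pullA hX (p .o) (D.ψ .o)
  let s : ∀ i, AOb 𝒳 (S i) := fun i => match i with
    | .o => s₀
    | .l => s₁
    | .r => s₂
  let σ : ∀ i, (s i).o ⟶ (p i).o := fun i => match i with
    | .o => σ₀
    | .l => σ₁
    | .r => σ₂
  have hσ : ∀ i, Lies (s i) (p i) (σ i) (D.ψ i) := by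
    intro i
    cases i
    · exact hσ₀
    · exact hσ₁
    · exact hσ₂
  obtain ⟨μ, hμ⟩ : ∃ μ : ∀ i, (s .o).o ⟶ (s i).o, ∀ i, Lies (s .o) (s i) (μ i) (D.r i) ∧
      μ i ≫ σ i = σ .o ≫ γ i := by
    have h1 : ∀ i, ∃ χ : (s .o).o ⟶ (s i).o, Lies (s .o) (s i) χ (D.r i) ∧
        χ ≫ σ i = σ .o ≫ γ i := fun i =>
      liftA hX (σ i) (σ .o ≫ γ i) (hσ i) (by rw [D.hrψ]; exact (hσ .o).comp (hγ i))
    choose μ hμ using h1
    exact ⟨μ, hμ⟩
  obtain ⟨ut, υ, hυ⟩ := exists_pullA hX u D.t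
  obtain ⟨ρ', hρ'⟩ : ∃ ρ' : ∀ i, (s i).o ⟶ ut.o, ∀ i, Lies (s i) ut (ρ' i) (D.c i) ∧
      ρ' i ≫ υ = σ i ≫ b i := by
    have h1 : ∀ i, ∃ χ : (s i).o ⟶ ut.o, Lies (s i) ut χ (D.c i) ∧ χ ≫ υ = σ i ≫ b i := fun i =>
      liftA hX υ (σ i ≫ b i) hυ (by rw [← D.hψb]; exact (hσ i).comp (hb i))
    choose ρ' hρ' using h1
    exact ⟨ρ', hρ'⟩
  have hμρ : ∀ i, μ i ≫ ρ' i = ρ' .o := by
    intro i
    refine homA_eq hX υ (f := D.c .o) ?_ (hρ' .o).1 ?_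
    · rw [← D.hrc i]; exact (hμ i).1.comp (hρ' i).1
    · rw [Category.assoc, (hρ' i).2, ← Category.assoc, (hμ i).2, Category.assoc, hγb, (hρ' .o).2]
  obtain ⟨e₀, ε, hε⟩ := exists_pullA hX (s .o) D.y0
  obtain ⟨ν, hν, hν1, hν2⟩ := lies_inv hX (x := e₀) (y := ut) (φ := ε ≫ ρ' .o) (by
    rw [← D.hy0]; exact hε.comp (hρ' .o).1)
  let τ : ∀ i, (s i).o ⟶ e₀.o := fun i => ρ' i ≫ ν
  have hτ : ∀ i, Lies (s i) e₀ (τ i) (D.c i) := fun i => by
    have := (hρ' i).1.comp hν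
    rwa [AlgHom.comp_id] at this
  have hετ : ε ≫ τ .o = 𝟙 _ := by rw [← hν1, Category.assoc]
  have hμτ : ∀ i, μ i ≫ τ i = τ .o := fun i => by
    change μ i ≫ ρ' i ≫ ν = ρ' .o ≫ ν
    rw [← Category.assoc, hμρ]
  obtain ⟨θ, hθ, hθω⟩ := liftA hX (f := D.ι) ω (ε ≫ σ .o ≫ a .o) hω (by
    rw [← D.hx]
    exact hε.comp ((hσ .o).comp (ha .o)))
  let β : ∀ i, (s i).o ⟶ w.o := fun i => τ i ≫ θ
  have hβ : ∀ i, Lies (s i) w (β i) ((D.c i).comp D.ι) := fun i => (hτ i).comp hθ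
  have hμβ : ∀ i, μ i ≫ β i = β .o := fun i => by
    change μ i ≫ τ i ≫ θ = τ .o ≫ θ
    rw [← Category.assoc, hμτ]
  refine ⟨β .l, hβ .l, ?_⟩
  intro z₁ q₁ hq₁ hq₁'
  -- the objects over `T`
  have hex : ∀ i, ∃ (z : AOb 𝒳 (T i)) (q : Bool → (z.o ⟶ (s i).o)),
      (∀ e, Lies z (s i) (q e) (D.l i e)) ∧ q false ≫ σ i ≫ a i = q true ≫ σ i ≫ a i := by
    intro i
    obtain ⟨z, q0, hq0⟩ := exists_pullA hX (s i) (D.l i false)
    obtain ⟨q1, hq1, hq1'⟩ := liftA hX (f := D.l i true) (σ i ≫ a i) (q0 ≫ σ i ≫ a i)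
      ((hσ i).comp (ha i)) (by
        rw [← D.hA i]
        exact hq0.comp ((hσ i).comp (ha i)))
    refine ⟨z, fun e => match e with
      | false => q0
      | true => q1, ?_, ?_⟩
    · intro e
      cases e
      · exact hq0
      · exact hq1
    · exact hq1'.symm
  obtain ⟨z₂, q₂, hq₂, hq₂'⟩ := hex .r
  obtain ⟨z₀, q₀, hq₀, hq₀'⟩ := hex .o
  let z : ∀ i, AOb 𝒳 (T i) := fun i => match i with
    | .o => z₀
    | .l => z₁
    | .r => z₂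
  let q : ∀ i, Bool → ((z i).o ⟶ (s i).o) := fun i => match i with
    | .o => q₀
    | .l => q₁
    | .r => q₂
  have hq : ∀ i e, Lies (z i) (s i) (q i e) (D.l i e) := by
    intro i
    cases i
    · exact hq₀
    · exact hq₁
    · exact hq₂
  have hq' : ∀ i, q i false ≫ σ i ≫ a i = q i true ≫ σ i ≫ a i := by
    intro i
    cases i
    · exact hq₀'
    · exact hq₁'
    · exact hq₂'
  obtain ⟨lam, hlam⟩ : ∃ lam : ∀ i, (z .o).o ⟶ (z i).o, ∀ i, Lies (z .o) (z i) (lam i) (D.ρ i) ∧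
      lam i ≫ q i false = q .o false ≫ μ i := by
    have h1 : ∀ i, ∃ χ : (z .o).o ⟶ (z i).o, Lies (z .o) (z i) χ (D.ρ i) ∧
        χ ≫ q i false = q .o false ≫ μ i := fun i =>
      liftA hX (q i false) (q .o false ≫ μ i) (hq i false) (by rw [D.hρl]; exact (hq .o false).comp (hμ i).1)
    choose lam hlam using h1
    exact ⟨lam, hlam⟩
  have hlam' : ∀ i e, lam i ≫ q i e = q .o e ≫ μ i := by
    intro i e
    cases e
    · exact (hlam i).2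
    · refine homA_eq hX (σ i ≫ a i) (f := (D.ρ i).comp (D.l i true)) ((hlam i).1.comp (hq i true)) ?_ ?_
      · rw [D.hρl]; exact (hq .o true).comp (hμ i).1
      · calc (lam i ≫ q i true) ≫ σ i ≫ a i = lam i ≫ (q i true ≫ σ i ≫ a i) := by
              rw [Category.assoc]
          _ = (lam i ≫ q i false) ≫ σ i ≫ a i := by rw [← hq' i, Category.assoc]
          _ = q .o false ≫ (μ i ≫ σ i) ≫ a i := by rw [(hlam i).2]; simp only [Category.assoc]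
          _ = (q .o false ≫ σ .o ≫ a .o) ≫ α i := by
              rw [(hμ i).2]; simp only [Category.assoc]; rw [hγa]
          _ = (q .o true ≫ σ .o ≫ a .o) ≫ α i := by rw [hq' .o]
          _ = q .o true ≫ (μ i ≫ σ i) ≫ a i := by
              rw [(hμ i).2]; simp only [Category.assoc]; rw [hγa]
          _ = (q .o true ≫ μ i) ≫ σ i ≫ a i := by simp only [Category.assoc]
  -- the object over `R`
  obtain ⟨r, κ₁, hκ₁⟩ := exists_pullA hX e₀ (D.j false)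
  let br : r.o ⟶ u.o := κ₁ ≫ ε ≫ σ .o ≫ b .o
  have hbr : Lies r u br ((D.j false).comp (D.y0.comp ((D.ψ .o).comp (D.fb .o)))) :=
    hκ₁.comp (hε.comp ((hσ .o).comp (hb .o)))
  have hrw : Lies r w (κ₁ ≫ θ) ((D.j false).comp D.ι) := hκ₁.comp hθ
  have hj' : ∀ e, (D.j e).comp D.ι = (D.j false).comp D.ι := by
    intro e
    cases e
    · rfl
    · exact D.hj.symm
  obtain ⟨m, hm⟩ : ∃ m : ∀ i, Bool → ((z i).o ⟶ r.o), ∀ i e, Lies (z i) r (m i e) (D.d i) ∧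
      m i e ≫ κ₁ ≫ θ = q i e ≫ β i := by
    have h1 : ∀ i e, ∃ χ : (z i).o ⟶ r.o, Lies (z i) r χ (D.d i) ∧
        χ ≫ κ₁ ≫ θ = q i e ≫ β i := fun i e =>
      liftA hX (κ₁ ≫ θ) (q i e ≫ β i) hrw (by
        rw [← hj' e, ← AlgHom.comp_assoc, ← D.hlc, AlgHom.comp_assoc]
        exact (hq i e).comp (hβ i))
    choose m hm using h1
    exact ⟨m, hm⟩
  have hlm : ∀ i e, lam i ≫ m i e = m .o e := by
    intro i e
    refine homA_eq hX (κ₁ ≫ θ) (f := D.d .o) ?_ (hm .o e).1 ?_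
    · rw [← D.hρd i]; exact (hlam i).1.comp (hm i e).1
    · calc (lam i ≫ m i e) ≫ κ₁ ≫ θ = lam i ≫ (m i e ≫ κ₁ ≫ θ) := by
            rw [Category.assoc]
        _ = (lam i ≫ q i e) ≫ β i := by rw [(hm i e).2, Category.assoc]
        _ = q .o e ≫ (μ i ≫ β i) := by rw [hlam', Category.assoc]
        _ = m .o e ≫ κ₁ ≫ θ := by rw [hμβ, (hm .o e).2]
  -- the product
  obtain ⟨Wr, _, _, W, pr, pu, fw, hW, hpr, -, -, -⟩ := exists_prodA hu r
  obtain ⟨G, hG⟩ : ∃ G : ∀ i, (z i).o ⟶ W.o, ∀ i, G i ≫ pr = m i false ∧ G i ≫ pu = m i true ≫ br := by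
    have h1 : ∀ i, ∃ χ : (z i).o ⟶ W.o, χ ≫ pr = m i false ∧ χ ≫ pu = m i true ≫ br := fun i =>
      hW.lift _ _
    choose G hG using h1
    exact ⟨G, hG⟩
  have hΓ : ∀ i, ∃ Γ : Wr →ₐ[κ] T i, Lies (z i) W (G i) Γ := fun i => exists_lies _ _ _
  choose Γ hΓ using hΓ
  have hlG : ∀ i, lam i ≫ G i = G .o := by
    intro i
    apply hW.ext
    · rw [Category.assoc, (hG i).1, hlm, (hG .o).1]
    · rw [Category.assoc, (hG i).2, ← Category.assoc, hlm, (hG .o).2]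
  have hρΓ : ∀ i, (D.ρ i).comp (Γ i) = Γ .o := by
    intro i
    have h1 := (hlam i).1.comp (hΓ i)
    rw [hlG] at h1
    exact h1.unique (hΓ .o)
  let h : Wr →ₐ[κ] R := D.yT.comp (Γ .o)
  have hΓ1 : Γ .l = (D.d .l).comp h := by
    ext f
    obtain ⟨ρf, hρf⟩ := D.glue (Γ .l f) (Γ .r f) (by
      have e1 := congrArg (fun F : Wr →ₐ[κ] T .o => F f) (hρΓ .l)
      have e2 := congrArg (fun F : Wr →ₐ[κ] T .o => F f) (hρΓ .r)
      exact e1.trans e2.symm)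
    have e3 : h f = ρf := by
      change D.yT (Γ .o f) = ρf
      have e1 : D.ρ .l (Γ .l f) = Γ .o f := congrArg (fun F : Wr →ₐ[κ] T .o => F f) (hρΓ .l)
      rw [← e1, hρf]
      have e2 : D.ρ .l (D.d .l ρf) = D.d .o ρf := congrArg (fun F : R →ₐ[κ] T .o => F ρf) (D.hρd .l)
      rw [e2]
      exact congrArg (fun F : R →ₐ[κ] R => F ρf) D.hyd
    rw [hρf]
    change _ = D.d .l (h f)
    rw [e3]
  obtain ⟨σr, hσr, hσr'⟩ := hW.lift (𝟙 r.o) br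
  obtain ⟨h₀, hh₀⟩ := exists_lies r W σr
  -- evaluate at the point
  obtain ⟨z₀₀, ζ, hζ⟩ := exists_pullA hX (z .o) D.yT
  have hq'' : ∀ e, ∃ χ : z₀₀.o ⟶ e₀.o, Lies z₀₀ e₀ χ (D.j e) ∧ χ ≫ ε = ζ ≫ q .o e := fun e =>
    liftA hX ε (ζ ≫ q .o e) hε (by rw [← D.hyl]; exact hζ.comp (hq .o e))
  choose q'' hq'' using hq''
  have hev : ∀ e, ζ ≫ q .o e ≫ β .o = q'' e ≫ θ := by
    intro e
    calc ζ ≫ q .o e ≫ β .o = (ζ ≫ q .o e) ≫ τ .o ≫ θ := by rw [Category.assoc]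
      _ = q'' e ≫ (ε ≫ τ .o) ≫ θ := by rw [← (hq'' e).2]; simp only [Category.assoc]
      _ = q'' e ≫ θ := by rw [hετ, Category.id_comp]
  have hev2 : q'' false ≫ θ = q'' true ≫ θ := by
    refine homA_eq hX ω (f := (D.j false).comp D.ι) ((hq'' false).1.comp hθ) ?_ ?_
    · rw [D.hj]; exact (hq'' true).1.comp hθ
    · have h1 : ∀ e, (q'' e ≫ θ) ≫ ω = ζ ≫ q .o e ≫ σ .o ≫ a .o := by
        intro e
        calc (q'' e ≫ θ) ≫ ω = (q'' e ≫ ε) ≫ σ .o ≫ a .o := by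
              rw [Category.assoc, hθω, Category.assoc]
          _ = ζ ≫ q .o e ≫ σ .o ≫ a .o := by rw [(hq'' e).2, Category.assoc]
      rw [h1, h1, hq' .o]
  have hζm : ζ ≫ m .o false = ζ ≫ m .o true := by
    refine homA_eq hX (κ₁ ≫ θ) (f := D.yT.comp (D.d .o)) (hζ.comp (hm .o false).1) (hζ.comp (hm .o true).1) ?_
    rw [Category.assoc, (hm .o false).2, Category.assoc, (hm .o true).2, hev, hev, hev2]
  have hζG : ζ ≫ G .o = (ζ ≫ m .o false) ≫ σr := by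
    apply hW.ext
    · rw [Category.assoc, (hG .o).1, Category.assoc, hσr, Category.comp_id]
    · calc (ζ ≫ G .o) ≫ pu = ζ ≫ (m .o true ≫ br) := by rw [Category.assoc, (hG .o).2]
        _ = (ζ ≫ m .o true) ≫ br := (Category.assoc _ _ _).symm
        _ = ((ζ ≫ m .o false) ≫ σr) ≫ pu := by rw [← hζm, Category.assoc _ σr, hσr']
  have hh : h = h₀ := by
    have h1 := hζ.comp (hΓ .o)
    rw [hζG] at h1
    have h2 := (hζ.comp (hm .o false).1).comp hh₀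
    rw [D.hyd, AlgHom.id_comp] at h2
    exact h1.unique h2
  have hG1 : G .l = m .l false ≫ σr := by
    refine homA_eq hX pr (f := (D.d .l).comp h₀) ?_ ((hm .l false).1.comp hh₀) ?_
    · rw [← hh, ← hΓ1]; exact hΓ .l
    · rw [(hG .l).1, Category.assoc, hσr, Category.comp_id]
  have hfin : m .l true = m .l false := by
    refine homA_eq hX br (hm .l true).1 (hm .l false).1 ?_
    rw [← (hG .l).2, hG1, Category.assoc, hσr']
  have e0 := (hm .l false).2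
  have e1 := (hm .l true).2
  rw [hfin] at e1
  exact e0.symm.trans e1

end

end Pool.Agent.H920
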